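import Pool.Agent.Lib.DI.Iface

/-!
# Theorem DI, part B: complex conjugation and roots of unity in `Om`
-/

set_option autoImplicit false

namespace Pool.Agent.DI

open Pool.Agent.MuZ

private theorem alg_io (x : Om) : IsAlgebraic ℚ (io x) := by
  have h : IsAlgebraic ℚ x := Algebra.IsAlgebraic.isAlgebraic x
  have h1 : io x = (IsAlgClosed.lift : Om →ₐ[ℚ] ℂ) x := rfl
  rw [h1]
  exact h.algHom _

private theorem alg_conj (x : Om) : IsAlgebraic ℚ ((starRingEnd ℂ) (io x)) := by
  obtain ⟨p, hp, h0⟩ := alg_io x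
  refine ⟨p, hp, ?_⟩
  have h1 : (starRingEnd ℂ) (Polynomial.aeval (io x) p) =
      Polynomial.aeval ((starRingEnd ℂ) (io x)) p := by
    rw [Polynomial.aeval_def, Polynomial.aeval_def, Polynomial.hom_eval₂,
      RingHom.ext_rat ((starRingEnd ℂ).comp (algebraMap ℚ ℂ)) (algebraMap ℚ ℂ)]
  rw [← h1, h0, map_zero]

private noncomputable def c0 (x : Om) : Om := ofC ((starRingEnd ℂ) (io x))

private theorem io_c0 (x : Om) : io (c0 x) = (starRingEnd ℂ) (io x) := io_ofC _ (alg_conj x)

private noncomputable def c1 : Om ≃+* Om where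
  toFun := c0
  invFun := c0
  left_inv x := by
    apply io_inj
    rw [io_c0, io_c0, Complex.conj_conj]
  right_inv x := by
    apply io_inj
    rw [io_c0, io_c0, Complex.conj_conj]
  map_mul' x y := by
    apply io_inj
    rw [map_mul, io_c0, io_c0, io_c0, map_mul, map_mul]
  map_add' x y := by
    apply io_inj
    rw [map_add, io_c0, io_c0, io_c0, map_add, map_add]

theorem tA1 : S_A1 := by
  refine ⟨AlgEquiv.ofRingEquiv (f := c1) fun r => ?_, fun x => io_c0 x⟩
  rw [eq_ratCast, map_ratCast]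

theorem tA2 : S_A2 := by
  intro n hn
  have h0 : ex (1 / n) = Complex.exp (2 * Real.pi * Complex.I / n) := by
    unfold ex
    congr 1
    ring
  have h1 : IsPrimitiveRoot (ex (1 / n)) n := by
    rw [h0]
    exact Complex.isPrimitiveRoot_exp n hn.ne'
  have h2 : IsAlgebraic ℚ (ex (1 / n)) := (h1.isIntegral hn).tower_top.isAlgebraic
  have h3 : io (zet n) = ex (1 / n) := io_ofC _ h2
  refine ⟨h3, ?_⟩
  refine IsPrimitiveRoot.of_map_of_injective (f := io) ?_ io_inj
  rw [h3]
  exact h1

end Pool.Agent.DI
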