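import Pool.Agent.Lib.DI.B.Spec

set_option autoImplicit false

namespace DI

open Complex Filter Topology

private theorem AlgE_pw : IsAlgebraic ℚ pw := by
  refine ⟨Polynomial.X ^ 2 - Polynomial.X + Polynomial.C 2, ?_, ?_⟩
  · intro h
    have h1 := congrArg (fun q : Polynomial ℚ => q.coeff 2) h
    simp [Polynomial.coeff_X] at h1
  · simp only [map_add, map_sub, map_pow, Polynomial.aeval_X, Polynomial.aeval_C, pw_sq]
    simp

private theorem AlgE_pow (j : ℕ) {z : ℂ} (h : inO z) : inO (pw ^ j * z) := by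
  induction j with
  | zero => rwa [pow_zero, one_mul]
  | succ j ih =>
    rw [pow_succ', mul_assoc]
    exact inO_pw ih

private theorem AlgE_tor {z : ℂ} {n : ℕ} (h : inO (n * z)) (j : ℕ) : inO (n * (pw ^ j * z)) := by
  rw [mul_left_comm]
  exact AlgE_pow j h

private theorem AlgE_reps : IsReps QuadraticAlgebra.omega {0, 1 / pw} where
  mem := by
    intro u hu
    rw [Finset.mem_insert, Finset.mem_singleton] at hu
    rw [em_omega]
    rcases hu with rfl | rfl
    · rw [mul_zero]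
      exact inO_zero
    · rw [mul_one_div_cancel pw_ne]
      exact inO_one
  ex := by
    intro z hz
    rw [em_omega] at hz
    rcases inO_of_pw hz with h | h
    · exact ⟨0, Finset.mem_insert_self _ _, by rwa [sub_zero]⟩
    · refine ⟨1 / pw, Finset.mem_insert_of_mem (Finset.mem_singleton_self _), ?_⟩
      have h1 := inO_sub h inO_qw_self
      rw [← two_div_pw] at h1
      have h2 : z + 1 / pw - (1 / pw + 1 / pw) = z - 1 / pw := by ring
      rwa [h2] at h1
  uni := by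
    intro u hu u' hu' h
    rw [Finset.mem_insert, Finset.mem_singleton] at hu hu'
    rcases hu with rfl | rfl <;> rcases hu' with rfl | rfl
    · rfl
    · rw [zero_sub] at h
      exact absurd (inO_neg_iff.1 h) notO_t
    · rw [sub_zero] at h
      exact absurd h notO_t
    · rfl

private theorem AlgE_t (h2 : S_XB) : E1 (1 / pw) = 0 := by
  obtain ⟨-, hev, hper, -⟩ := h2
  have h3 : ¬ inO (-(1 / pw)) := fun h => notO_t (inO_neg_iff.1 h)
  have h4 := hper (-(1 / pw)) (1 - QuadraticAlgebra.omega) h3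
  rw [em_qw, (hev (1 / pw)).2.2.2, ← two_div_pw, neg_add_cancel_left] at h4
  have h5 : 2 * E1 (1 / pw) = 0 := by linear_combination h4
  exact (mul_eq_zero.1 h5).resolve_left two_ne_zero

private theorem AlgE_two (h1 : S_KB) (h2 : S_XB) (h3 : S_XAdd) (h4 : S_Om) (h6 : S_AlgX) {z : ℂ}
    {n : ℕ} (hn : 0 < n) (hz : inO (n * z)) (hpz : ¬ inO (pw * z)) :
    pw * E1 (pw * z) - 2 * E1 z ∈ algebraicClosure ℚ ℂ := by
  have hz0 : ¬ inO z := fun h => hpz (inO_pw h)
  have ht0 : ¬ inO (z + 1 / pw) := by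
    intro h
    have h5 := inO_sub (inO_pw h) inO_one
    rw [mul_add, mul_one_div_cancel pw_ne, add_sub_cancel_right] at h5
    exact hpz h5
  have ht1 : ¬ inO (z - 1 / pw) := by
    intro h
    have h5 := inO_add (inO_pw h) inO_one
    rw [mul_sub, mul_one_div_cancel pw_ne, sub_add_cancel] at h5
    exact hpz h5
  have hX : X z ≠ X (1 / pw) := by
    intro h
    rcases (h2.2.2.2.2.1 z (1 / pw) hz0 notO_t).1 h with h5 | h5
    · exact ht1 h5
    · exact ht0 h5
  have hne : (QuadraticAlgebra.omega : O) ≠ 0 := by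
    intro h
    have h5 := congrArg em h
    rw [em_omega, map_zero] at h5
    exact pw_ne h5
  have e1 := h1.2.2.2.2 QuadraticAlgebra.omega _ hne AlgE_reps z (by rw [em_omega]; exact hpz)
  have h0t : (0 : ℂ) ≠ 1 / pw := fun h => by
    have := notO_t
    rw [← h] at this
    exact this inO_zero
  rw [Finset.sum_pair h0t, em_omega, add_zero] at e1
  have e2 : E1 z + E1 (z + 1 / pw) = pw * E1 (pw * z) := by
    unfold E1
    rw [← add_div, e1, mul_div_assoc]
  have e3 := (h3.1 z (1 / pw) hz0 notO_t ht0 hX).2.2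
  rw [AlgE_t h2] at e3
  have e4 : pw * E1 (pw * z) - 2 * E1 z = lam z (1 / pw) + 1 / 2 := by
    linear_combination -e2 + e3
  rw [e4]
  obtain ⟨a1, a2⟩ := h6 z n hn hz hz0
  obtain ⟨b1, b2⟩ := h6 (1 / pw) 2 two_pos (by
    push_cast
    rw [two_mul, two_div_pw]
    exact inO_qw_self) notO_t
  have m1 := mem_algebraicClosure_iff.2 a1
  have m2 := mem_algebraicClosure_iff.2 a2
  have m3 := mem_algebraicClosure_iff.2 b1
  have m4 := mem_algebraicClosure_iff.2 b2
  unfold lam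
  refine add_mem (div_mem (sub_mem m2 m4) (sub_mem m1 m3)) ?_
  exact div_mem (one_mem _) (ofNat_mem _ 2)

private theorem AlgE_desc (h1 : S_KB) (h2 : S_XB) (h3 : S_XAdd) (h4 : S_Om) (h6 : S_AlgX) {z : ℂ}
    {n : ℕ} (hn : 0 < n) (hz : inO (n * z)) (l : ℕ) : (∀ j ≤ l, ¬ inO (pw ^ j * z)) →
    E1 (pw ^ l * z) ∈ algebraicClosure ℚ ℂ → E1 z ∈ algebraicClosure ℚ ℂ := by
  induction l with
  | zero =>
    intro _ h
    rwa [pow_zero, one_mul] at h
  | succ l ih =>
    intro hj h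
    refine ih (fun j hjl => hj j (Nat.le_succ_of_le hjl)) ?_
    have h5 : ¬ inO (pw * (pw ^ l * z)) := by
      have := hj (l + 1) le_rfl
      rwa [pow_succ', mul_assoc] at this
    have h7 := AlgE_two h1 h2 h3 h4 h6 hn (AlgE_tor hz l) h5
    rw [pow_succ', mul_assoc] at h
    have hp : pw ∈ algebraicClosure ℚ ℂ := mem_algebraicClosure_iff.2 AlgE_pw
    have h8 := div_mem (sub_mem (mul_mem hp h) h7) (ofNat_mem (algebraicClosure ℚ ℂ) 2)
    have h9 : (pw * E1 (pw * (pw ^ l * z)) -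
        (pw * E1 (pw * (pw ^ l * z)) - 2 * E1 (pw ^ l * z))) / 2 = E1 (pw ^ l * z) := by
      ring
    rwa [h9] at h8

private theorem AlgE_norm : ‖pw‖ ^ 2 = 2 := by
  rw [← Complex.normSq_eq_norm_sq]
  have h : (Complex.normSq pw : ℂ) = 2 := by
    rw [← Complex.mul_conj, conj_pw, pw_mul_qw]
  exact_mod_cast h

private theorem AlgE_pne {k : ℕ} (hk : 0 < k) : pw ^ k - 2 ^ k ≠ 0 := by
  intro h
  have h1 : pw ^ k = 2 ^ k := sub_eq_zero.1 h
  have h2 := congrArg (fun x : ℂ => ‖x‖ ^ 2) h1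
  simp only [norm_pow, ← pow_mul, mul_comm k 2] at h2
  rw [pow_mul, AlgE_norm, pow_mul] at h2
  have h3 : ‖(2 : ℂ)‖ = 2 := by norm_num
  rw [h3] at h2
  have h4 : (2 : ℝ) ^ k < ((2 : ℝ) ^ 2) ^ k :=
    pow_lt_pow_left₀ (by norm_num) (by norm_num) hk.ne'
  linarith

theorem tAlgE (h1 : S_KB) (h2 : S_XB) (h3 : S_XAdd) (h4 : S_Om) (h5 : S_Tor) (h6 : S_AlgX) :
    S_AlgE := by
  intro z n hn hz hz0
  rw [← mem_algebraicClosure_iff]
  have hp : pw ∈ algebraicClosure ℚ ℂ := mem_algebraicClosure_iff.2 AlgE_pw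
  have h7 : (2 : ℂ) ∈ algebraicClosure ℚ ℂ := ofNat_mem _ 2
  rcases h5 z n hn hz hz0 with ⟨l, hl, hl1⟩ | ⟨hall, i, k, hk, hik⟩
  · refine AlgE_desc h1 h2 h3 h4 h6 hn hz l hl ?_
    rw [pow_succ', mul_assoc] at hl1
    have h8 := (inO_of_pw hl1).resolve_left (hl l le_rfl)
    obtain ⟨v, hv⟩ := inO_iff.1 h8
    have h9 : ¬ inO (-(1 / pw)) := fun h => notO_t (inO_neg_iff.1 h)
    have h10 : pw ^ l * z = -(1 / pw) + em v := by
      rw [hv]
      ring
    rw [h10, h2.2.2.1 _ v h9, (h2.2.1 (1 / pw)).2.2.2, AlgE_t h2, neg_zero]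
    exact zero_mem _
  · refine AlgE_desc h1 h2 h3 h4 h6 hn hz i (fun j _ => hall j) ?_
    have h8 : ∀ j : ℕ, pw ^ j * E1 (pw ^ j * (pw ^ i * z)) - 2 ^ j * E1 (pw ^ i * z) ∈
        algebraicClosure ℚ ℂ := by
      intro j
      induction j with
      | zero =>
        rw [pow_zero, pow_zero, one_mul, one_mul, one_mul, sub_self]
        exact zero_mem _
      | succ j ih =>
        have h9 : ¬ inO (pw * (pw ^ j * (pw ^ i * z))) := by
          have := hall (j + 1 + i)
          rwa [pow_add, pow_succ', mul_assoc, mul_assoc] at this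
        have h10 := AlgE_two h1 h2 h3 h4 h6 hn (AlgE_tor (AlgE_tor hz i) j) h9
        have h11 := add_mem (mul_mem (pow_mem hp j) h10) (mul_mem h7 ih)
        have h12 : pw ^ j * (pw * E1 (pw * (pw ^ j * (pw ^ i * z))) -
            2 * E1 (pw ^ j * (pw ^ i * z))) +
            2 * (pw ^ j * E1 (pw ^ j * (pw ^ i * z)) - 2 ^ j * E1 (pw ^ i * z)) =
            pw ^ (j + 1) * E1 (pw ^ (j + 1) * (pw ^ i * z)) - 2 ^ (j + 1) * E1 (pw ^ i * z) := by
          rw [pow_succ' pw j, mul_assoc pw (pw ^ j) (pw ^ i * z)]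
          ring
        rwa [h12] at h11
    obtain ⟨v, hv⟩ := inO_iff.1 hik
    have h9 : pw ^ k * (pw ^ i * z) = pw ^ i * z + em v := by
      rw [hv, pow_add]
      ring
    have h10 := h8 k
    rw [h9, h2.2.2.1 _ v (hall i), ← sub_mul] at h10
    have h11 := div_mem h10 (sub_mem (pow_mem hp k) (pow_mem h7 k))
    rwa [mul_div_cancel_left₀ _ (AlgE_pne hk)] at h11

end DI
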