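import Pool.Agent.Lib.DI.B.Spec

set_option autoImplicit false

/-! # Theorem DI, Part B: `X`, `Y` are algebraic at torsion points (module `AlgX`) -/

namespace DI

open Complex Filter Topology

/-- The field of algebraic numbers. -/
noncomputable abbrev AlgX_A : IntermediateField ℚ ℂ := algebraicClosure ℚ ℂ

theorem AlgX_quad {x a b : ℂ} (ha : IsAlgebraic ℚ a) (hb : IsAlgebraic ℚ b)
    (h : x ^ 2 = a * x + b) : IsAlgebraic ℚ x := by
  have h2 : IsAlgebraic ℚ (2 : ℂ) := isAlgebraic_natCast 2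
  have ha2 : IsAlgebraic ℚ (a / 2) := by
    rw [div_eq_mul_inv]
    exact ha.mul h2.inv
  have h3 : IsAlgebraic ℚ ((x - a / 2) ^ 2) := by
    have e : (x - a / 2) ^ 2 = b + (a / 2) ^ 2 := by linear_combination h
    rw [e]
    exact hb.add (ha2.pow 2)
  have h4 : IsAlgebraic ℚ (x - a / 2) := IsAlgebraic.of_pow (by norm_num) h3
  have h5 := h4.add ha2
  rwa [sub_add_cancel] at h5

theorem AlgX_pw : IsAlgebraic ℚ pw :=
  AlgX_quad (a := 1) (b := -2) isAlgebraic_one ((isAlgebraic_natCast 2).neg) (by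
    rw [pw_sq]
    ring)

theorem AlgX_qw : IsAlgebraic ℚ qw := by
  rw [qw_eq]
  exact isAlgebraic_one.sub AlgX_pw

/-- `pw` as an algebraic number. -/
noncomputable def AlgX_p : AlgX_A := ⟨pw, mem_algebraicClosure_iff.2 AlgX_pw⟩

/-- `qw` as an algebraic number. -/
noncomputable def AlgX_q : AlgX_A := ⟨qw, mem_algebraicClosure_iff.2 AlgX_qw⟩

open Polynomial in
/-- Numerator and denominator of `X (pw ^ k y)`. -/
noncomputable def AlgX_P : ℕ → AlgX_A[X] × AlgX_A[X]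
  | 0 => (Polynomial.X, 1)
  | k + 1 => ((AlgX_P k).1 * (AlgX_P k).1 - C AlgX_p * ((AlgX_P k).2 * (AlgX_P k).2),
      C (AlgX_p ^ 2) * ((AlgX_P k).1 * (AlgX_P k).2) - C AlgX_q * ((AlgX_P k).2 * (AlgX_P k).2))

theorem AlgX_sub {p q : Polynomial AlgX_A} {m : ℕ} (hp : p.natDegree ≤ m) (hq : q.natDegree ≤ m) :
    (p - q).natDegree ≤ m :=
  (Polynomial.natDegree_sub_le p q).trans (max_le hp hq)

theorem AlgX_deg (k : ℕ) : (AlgX_P k).1.natDegree ≤ 2 ^ k ∧ (AlgX_P k).1.coeff (2 ^ k) = 1 ∧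
    (AlgX_P k).2.natDegree ≤ 2 ^ k ∧ (AlgX_P k).2.coeff (2 ^ k) = 0 ∧
    (Polynomial.X * (AlgX_P k).2).natDegree ≤ 2 ^ k ∧
    (Polynomial.X * (AlgX_P k).2).coeff (2 ^ k) = (AlgX_p ^ 2) ^ k := by
  induction k with
  | zero =>
    simp only [AlgX_P, pow_zero, mul_one]
    refine ⟨Polynomial.natDegree_X_le, Polynomial.coeff_X_one, ?_, ?_,
      Polynomial.natDegree_X_le, Polynomial.coeff_X_one⟩
    · rw [Polynomial.natDegree_one]
      exact zero_le_one
    · rw [Polynomial.coeff_one]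
      rfl
  | succ k ih =>
    obtain ⟨a1, a2, d1, d2, e1, e2⟩ := ih
    have hk : 2 ^ (k + 1) = 2 ^ k + 2 ^ k := by ring
    have hX : Polynomial.X * (AlgX_P (k + 1)).2 =
        Polynomial.C (AlgX_p ^ 2) * ((AlgX_P k).1 * (Polynomial.X * (AlgX_P k).2)) -
          Polynomial.C AlgX_q * ((AlgX_P k).2 * (Polynomial.X * (AlgX_P k).2)) := by
      simp only [AlgX_P]
      ring
    rw [hX, hk]
    simp only [AlgX_P]
    refine ⟨?_, ?_, ?_, ?_, ?_, ?_⟩
    · refine AlgX_sub (Polynomial.natDegree_mul_le_of_le a1 a1) ?_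
      exact (Polynomial.natDegree_C_mul_le _ _).trans (Polynomial.natDegree_mul_le_of_le d1 d1)
    · rw [Polynomial.coeff_sub, Polynomial.coeff_C_mul, Polynomial.coeff_mul_add_eq_of_natDegree_le a1 a1,
        Polynomial.coeff_mul_add_eq_of_natDegree_le d1 d1, a2, d2]
      ring
    · refine AlgX_sub ?_ ?_
      · exact (Polynomial.natDegree_C_mul_le _ _).trans (Polynomial.natDegree_mul_le_of_le a1 d1)
      · exact (Polynomial.natDegree_C_mul_le _ _).trans (Polynomial.natDegree_mul_le_of_le d1 d1)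
    · rw [Polynomial.coeff_sub, Polynomial.coeff_C_mul, Polynomial.coeff_C_mul,
        Polynomial.coeff_mul_add_eq_of_natDegree_le a1 d1,
        Polynomial.coeff_mul_add_eq_of_natDegree_le d1 d1, d2]
      ring
    · refine AlgX_sub ?_ ?_
      · exact (Polynomial.natDegree_C_mul_le _ _).trans (Polynomial.natDegree_mul_le_of_le a1 e1)
      · exact (Polynomial.natDegree_C_mul_le _ _).trans (Polynomial.natDegree_mul_le_of_le d1 e1)
    · rw [Polynomial.coeff_sub, Polynomial.coeff_C_mul, Polynomial.coeff_C_mul,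
        Polynomial.coeff_mul_add_eq_of_natDegree_le a1 e1,
        Polynomial.coeff_mul_add_eq_of_natDegree_le d1 e1, a2, d2, e2]
      ring

theorem AlgX_step (h2 : S_XMul) {z : ℂ} (hz : ¬ inO z) (hz' : ¬ inO (pw * z)) :
    X (pw * z) * (pw ^ 2 * X z - qw) = X z ^ 2 - pw :=
  (h2 pw qw (Or.inl ⟨rfl, rfl⟩) z hz hz').2.1

theorem AlgX_eval (h2 : S_XMul) {y : ℂ} (hy : ∀ j : ℕ, ¬ inO (pw ^ j * y)) (k : ℕ) :
    Polynomial.aeval (X y) (AlgX_P k).2 * X (pw ^ k * y) = Polynomial.aeval (X y) (AlgX_P k).1 := by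
  induction k with
  | zero =>
    simp only [AlgX_P, pow_zero, map_one, one_mul, Polynomial.aeval_X]
  | succ k ih =>
    have h := AlgX_step h2 (hy k) (by
      rw [← mul_assoc, ← pow_succ']
      exact hy (k + 1))
    rw [← mul_assoc, ← pow_succ'] at h
    have hp : algebraMap AlgX_A ℂ AlgX_p = pw := rfl
    have hq : algebraMap AlgX_A ℂ AlgX_q = qw := rfl
    simp only [AlgX_P, map_sub, map_mul, Polynomial.aeval_C, map_pow, hp, hq]
    rw [← ih]
    linear_combination (Polynomial.aeval (X y) (AlgX_P k).2) ^ 2 * h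

theorem AlgX_norm : ‖pw‖ ^ 2 = 2 := by
  have h1 : pw * (starRingEnd ℂ) pw = 2 := by rw [conj_pw, pw_mul_qw]
  rw [Complex.mul_conj] at h1
  have h2 : Complex.normSq pw = 2 := by exact_mod_cast h1
  rw [← Complex.normSq_eq_norm_sq, h2]

theorem AlgX_per (h2 : S_XMul) {y : ℂ} (hy : ∀ j : ℕ, ¬ inO (pw ^ j * y)) (k : ℕ) (hk : 0 < k)
    (he : X (pw ^ k * y) = X y) : IsAlgebraic ℚ (X y) := by
  have h1 : IsAlgebraic AlgX_A (X y) := by
    refine ⟨(AlgX_P k).1 - Polynomial.X * (AlgX_P k).2, ?_, ?_⟩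
    · intro h0
      have h3 := congrArg (fun f => Polynomial.coeff f (2 ^ k)) h0
      obtain ⟨-, a2, -, -, -, e2⟩ := AlgX_deg k
      simp only [Polynomial.coeff_sub, Polynomial.coeff_zero] at h3
      rw [a2, e2, sub_eq_zero] at h3
      have h4 : (1 : ℂ) = (pw ^ 2) ^ k := by
        have := congrArg (algebraMap AlgX_A ℂ) h3
        rw [map_one, map_pow, map_pow] at this
        exact this
      have h5 := congrArg norm h4
      rw [norm_one, norm_pow, norm_pow, AlgX_norm] at h5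
      have h6 : (1 : ℝ) < 2 ^ k := one_lt_pow₀ (by norm_num) hk.ne'
      linarith
    · rw [map_sub, map_mul, Polynomial.aeval_X, ← AlgX_eval h2 hy k, he]
      ring
  have h3 : Algebra.IsAlgebraic ℚ AlgX_A := algebraicClosure.isAlgebraic ℚ ℂ
  exact h1.restrictScalars ℚ

theorem AlgX_desc (h2 : S_XMul) : ∀ (l : ℕ) (z : ℂ), (∀ j ≤ l, ¬ inO (pw ^ j * z)) →
    IsAlgebraic ℚ (X (pw ^ l * z)) → IsAlgebraic ℚ (X z) := by
  intro l
  induction l with
  | zero =>
    intro z _ h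
    rwa [pow_zero, one_mul] at h
  | succ l ih =>
    intro z hz h
    refine ih z (fun j hj => hz j (hj.trans (Nat.le_succ l))) ?_
    have h3 := AlgX_step h2 (hz l (Nat.le_succ l)) (by
      rw [← mul_assoc, ← pow_succ']
      exact hz (l + 1) le_rfl)
    rw [← mul_assoc, ← pow_succ'] at h3
    refine AlgX_quad (a := X (pw ^ (l + 1) * z) * pw ^ 2) (b := pw - X (pw ^ (l + 1) * z) * qw)
      (h.mul (AlgX_pw.pow 2)) (AlgX_pw.sub (h.mul AlgX_qw)) ?_
    linear_combination -h3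

theorem tAlgX (h1 : S_XB) (h2 : S_XMul) (h3 : S_X2) (h4 : S_Tor) : S_AlgX := by
  intro z n hn hz hz0
  obtain ⟨-, -, -, b4, b5, -⟩ := h1
  have hX : IsAlgebraic ℚ (X z) := by
    rcases h4 z n hn hz hz0 with ⟨l, hl, hl1⟩ | ⟨hj, i, k, hk, hik⟩
    · refine AlgX_desc h2 l z hl ?_
      have hy : ¬ inO (pw ^ l * z) := hl l le_rfl
      have hy1 : inO (pw * (pw ^ l * z)) := by
        rw [← mul_assoc, ← pow_succ']
        exact hl1
      rcases inO_of_pw hy1 with h | h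
      · exact absurd h hy
      · rw [(b5 _ _ hy notO_t).2 (Or.inr h), (h3.2 pw qw (Or.inl ⟨rfl, rfl⟩)).1, div_eq_mul_inv]
        exact AlgX_qw.mul (AlgX_pw.pow 2).inv
    · refine AlgX_desc h2 i z (fun j _ => hj j) ?_
      refine AlgX_per h2 (fun j => ?_) k hk ?_
      · rw [← mul_assoc, ← pow_add]
        exact hj (j + i)
      · rw [← mul_assoc, ← pow_add, add_comm k i]
        exact (b5 _ _ (hj (i + k)) (hj i)).2 (Or.inl hik)
  refine ⟨hX, ?_⟩
  have h2' : IsAlgebraic ℚ (2 : ℂ) := isAlgebraic_natCast 2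
  have hn' : ∀ m : ℕ, IsAlgebraic ℚ (m : ℂ) := fun m => isAlgebraic_natCast m
  have hW2 : IsAlgebraic ℚ (W z ^ 2) := by
    rw [(b4 z hz0).2]
    have h8 := (((hn' 4).mul (hX.pow 3)).sub ((hn' 3).mul (hX.pow 2))).sub ((hn' 8).mul hX)
    have h9 := h8.sub (hn' 4)
    push_cast at h9
    exact h9
  have hW : IsAlgebraic ℚ (W z) := IsAlgebraic.of_pow (by norm_num) hW2
  unfold Y
  rw [div_eq_mul_inv]
  exact (hW.sub hX).mul h2'.inv

end DI
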