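import Pool.Agent.Lib.DI.B.Spec

/-! # Theorem DI, Part B: complex conjugation (module Cj) -/

set_option autoImplicit false

namespace DI

open Complex Filter Topology

private theorem Cj_sum (f g : ℂ → ℂ)
    (h : ∀ x, g ((starRingEnd ℂ) x) = (starRingEnd ℂ) (f x)) :
    ∑' l : LO.lattice, g l = (starRingEnd ℂ) (∑' l : LO.lattice, f l) := by
  rw [← tsum_eq g, ← tsum_eq f, Complex.conj_tsum,
    ← Equiv.tsum_eq (Equiv.Perm.star : O ≃ O) (fun v : O => g (em v))]
  refine tsum_congr fun v => ?_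
  rw [← h (em v), ← em_star]
  rfl

private theorem Cj_G (n : ℕ) : (starRingEnd ℂ) (LO.G n) = LO.G n := by
  unfold PeriodPair.G
  refine (Cj_sum (fun x => (x ^ n)⁻¹) (fun x => (x ^ n)⁻¹) fun x => ?_).symm
  rw [map_inv₀, map_pow]

theorem tCj : S_Cj := by
  refine ⟨fun z => ?_, fun z => ?_, fun z => ?_, ?_, ?_⟩
  · unfold wp PeriodPair.weierstrassP
    refine Cj_sum (fun x => 1 / (z - x) ^ 2 - 1 / x ^ 2)
      (fun x => 1 / ((starRingEnd ℂ) z - x) ^ 2 - 1 / x ^ 2) fun x => ?_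
    simp only [map_sub, map_div₀, map_one, map_pow]
  · unfold wp' PeriodPair.derivWeierstrassP
    rw [map_neg]
    congr 1
    refine Cj_sum (fun x => 2 / (z - x) ^ 3)
      (fun x => 2 / ((starRingEnd ℂ) z - x) ^ 3) fun x => ?_
    simp only [map_sub, map_div₀, map_ofNat, map_pow]
  · unfold zt
    refine Cj_sum (fun x => 1 / (z - x) + 1 / x + z / x ^ 2)
      (fun x => 1 / ((starRingEnd ℂ) z - x) + 1 / x + (starRingEnd ℂ) z / x ^ 2) fun x => ?_
    simp only [map_sub, map_add, map_div₀, map_one, map_pow]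
  · unfold PeriodPair.g₂
    rw [map_mul, Cj_G, map_ofNat]
  · unfold PeriodPair.g₃
    rw [map_mul, Cj_G, map_ofNat]

end DI
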