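import Pool.Agent.Lib.DI.B.Spec

/-! # Theorem DI, Part B: the constants of the lattice (author helper94) -/

set_option autoImplicit false

namespace DI

open Complex Filter Topology

private theorem Con_pw4 : pw ^ 4 = 2 - 3 * pw := by
  linear_combination (pw ^ 2 + pw - 1) * pw_sq

private theorem Con_pw6 : pw ^ 6 = 5 * pw + 2 := by
  linear_combination (pw ^ 4 + pw ^ 3 - pw ^ 2 - 3 * pw - 1) * pw_sq

private theorem Con_ne1 : 1 - 3 * pw ≠ 0 := by
  intro h
  have h1 : (1 - 3 * pw) * (3 * pw - 2) = 16 := by linear_combination (-9) * pw_sq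
  rw [h, zero_mul] at h1
  norm_num at h1

private theorem Con_ne2 : 5 * pw + 1 ≠ 0 := by
  intro h
  have h1 : (5 * pw + 1) * (6 - 5 * pw) = 56 := by linear_combination (-25) * pw_sq
  rw [h, zero_mul] at h1
  norm_num at h1

private theorem Con_ne3 : 2 - pw ≠ 0 := by
  intro h
  have h1 : (2 - pw) * (pw + 1) = 4 := by linear_combination -pw_sq
  rw [h, zero_mul] at h1
  norm_num at h1

/-- `℘ z ≠ 0` for small `z ≠ 0`. -/
private theorem Con_ev (h1 : S_Exp) : ∀ᶠ z in 𝓝[≠] (0 : ℂ), wp z ≠ 0 := by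
  obtain ⟨⟨r, r1, hr, -, hE⟩, -, -⟩ := h1
  have hc : ContinuousAt (fun z : ℂ => 1 + ca * z ^ 4 + cb * z ^ 6 + z ^ 8 * r z) 0 := by
    have := hr.continuousAt
    fun_prop
  have h0 : (fun z : ℂ => 1 + ca * z ^ 4 + cb * z ^ 6 + z ^ 8 * r z) 0 ≠ 0 := by
    simp
  have h2 := (hc.eventually_ne h0).filter_mono (nhdsWithin_le_nhds (s := {(0 : ℂ)}ᶜ))
  filter_upwards [h2, self_mem_nhdsWithin] with z hz hz0
  have hz0' : z ≠ 0 := hz0
  intro hw
  apply hz
  have h3 := (hE z hz0').1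
  rw [hw] at h3
  have h4 : z ^ 2 * (z ^ 2)⁻¹ = 1 := mul_inv_cancel₀ (pow_ne_zero 2 hz0')
  linear_combination (-z ^ 2) * h3 - h4

theorem tCon (h1 : S_Exp) (h2 : S_MulB) (h3 : S_Lau) : S_Con := by
  obtain ⟨hk, hl⟩ := h3
  rw [Con_pw4] at hk
  rw [Con_pw6] at hl
  have hkd : kap = 3 * et ^ 2 - LO.g₂ / 4 := rfl
  have hca : ca = LO.g₂ / 20 := rfl
  have hcb : cb = LO.g₃ / 28 := rfl
  have hg2 : LO.g₂ ≠ 0 := by
    intro hg
    have hk0 : kap = 0 := by
      rw [hk, hca, hg]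
      ring
    have het : et = 0 := by
      rw [hk0, hg] at hkd
      have : et ^ 2 = 0 := by linear_combination (-1 / 3) * hkd
      exact pow_eq_zero_iff (two_ne_zero) |>.1 this
    have hprod : ∀ z : ℂ, ¬ inO z → ¬ inO (z + 1 / pw) → wp (z + 1 / pw) * wp z = 0 := by
      intro z hz hz'
      have h4 := (h2 (1 / pw) notO_t (by rw [two_div_pw]; exact inO_qw_self) z hz hz').1
      have h5 : wp (1 / pw) = 0 := het
      rw [h5, hg] at h4
      linear_combination h4
    have hev := Con_ev h1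
    have hz0 : ∀ᶠ z in 𝓝[≠] (0 : ℂ), wp (z + 1 / pw) = 0 := by
      filter_upwards [hev, ev_inO 0, ev_add (1 / pw) 0] with z ha hb hc
      exact (mul_eq_zero.1 (hprod z hb hc)).resolve_right ha
    have hzt : ∀ᶠ u in 𝓝[≠] (1 / pw : ℂ), wp u = 0 := by
      have hT : Tendsto (fun u : ℂ => u - 1 / pw) (𝓝[≠] (1 / pw)) (𝓝[≠] 0) := by
        refine tendsto_nhdsWithin_of_tendsto_nhds_of_eventually_within _ ?_ ?_
        · have h6 : Tendsto (fun u : ℂ => u - 1 / pw) (𝓝 (1 / pw)) (𝓝 (1 / pw - 1 / pw)) :=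
            (by fun_prop : Continuous fun u : ℂ => u - 1 / pw).tendsto _
          rw [sub_self] at h6
          exact h6.mono_left nhdsWithin_le_nhds
        · filter_upwards [self_mem_nhdsWithin] with u hu
          exact sub_ne_zero.2 hu
      filter_upwards [hT.eventually hz0] with u hu
      rwa [sub_add_cancel] at hu
    have hA : AnalyticOnNhd ℂ wp {z : ℂ | ¬ inO z} := fun z hz => analyticAt_wp hz
    have hE := hA.eqOn_zero_of_preconnected_of_frequently_eq_zero preconn_notO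
      (z₀ := 1 / pw) notO_t hzt.frequently
    obtain ⟨z, ha, hb⟩ := (hev.and (ev_inO 0)).exists
    exact ha (hE hb)
  have hca0 : ca ≠ 0 := by
    rw [hca]
    exact div_ne_zero hg2 (by norm_num)
  have hg3 : LO.g₃ ≠ 0 := by
    intro hg
    have hcb0 : cb = 0 := by
      rw [hcb, hg]
      ring
    rw [hcb0, zero_mul] at hl
    have hk0 : kap ≠ 0 := by
      rw [hk]
      refine mul_ne_zero hca0 ?_
      intro h
      exact Con_ne1 (by linear_combination h)
    have het : et = 0 := (mul_eq_zero.1 hl.symm).resolve_right hk0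
    rw [het, hk, hca] at hkd
    have h5 : LO.g₂ * (2 - pw) = 0 := by linear_combination (20 / 3) * hkd
    rcases mul_eq_zero.1 h5 with h6 | h6
    · exact hg2 h6
    · exact Con_ne3 h6
  have hetg : et = LO.g₃ / LO.g₂ * (5 / 7) * ((pw - 4) / 2) := by
    rw [hk, hca, hcb] at hl
    have h5 : (et * LO.g₂ - LO.g₃ * (5 / 7) * ((pw - 4) / 2)) * (1 - 3 * pw) = 0 := by
      linear_combination (-20) * hl + (15 / 14) * LO.g₃ * pw_sq
    rcases mul_eq_zero.1 h5 with h6 | h6
    · field_simp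
      linear_combination (14) * h6
    · exact absurd h6 Con_ne1
  refine ⟨hg2, hg3, ?_, hetg⟩
  have h7 : et * LO.g₂ = LO.g₃ * (5 / 7) * ((pw - 4) / 2) := by
    rw [hetg]
    field_simp
  have h8 : et ^ 2 = LO.g₂ * (2 - pw) / 20 := by
    rw [hk, hca] at hkd
    linear_combination (-1 / 3) * hkd
  have h9 : (125 * LO.g₃ ^ 2 - 7 * LO.g₂ ^ 3) * (2 - pw) = 0 := by
    have h10 : (et * LO.g₂) ^ 2 = (LO.g₃ * (5 / 7) * ((pw - 4) / 2)) ^ 2 := by rw [h7]
    rw [mul_pow, h8] at h10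
    linear_combination (-140) * h10 - 125 / 7 * LO.g₃ ^ 2 * pw_sq
  rcases mul_eq_zero.1 h9 with h11 | h11
  · linear_combination h11
  · exact absurd h11 Con_ne3

end DI
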