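import Pool.Agent.Lib.DI.B.Spec

set_option autoImplicit false

namespace DI

open Complex Filter Topology

private theorem Exp_G3 : LO.G 3 = 0 := LO.G_eq_zero_of_odd 3 (by decide)

private theorem Exp_G5 : LO.G 5 = 0 := LO.G_eq_zero_of_odd 5 (by decide)

private theorem Exp_G7 : LO.G 7 = 0 := LO.G_eq_zero_of_odd 7 (by decide)

private theorem Exp_ca : ca = 3 * LO.G 4 := by
  unfold ca PeriodPair.g₂
  ring

private theorem Exp_cb : cb = 5 * LO.G 6 := by
  unfold cb PeriodPair.g₃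
  ring

private theorem Exp_one (h1 : S_Tay) : ∃ r r1 : ℂ → ℂ, AnalyticAt ℂ r 0 ∧ AnalyticAt ℂ r1 0 ∧
    ∀ z, z ≠ 0 →
    wp z = (z ^ 2)⁻¹ + ca * z ^ 2 + cb * z ^ 4 + z ^ 6 * r z ∧
    wp' z = -2 * (z ^ 3)⁻¹ + 2 * ca * z + 4 * cb * z ^ 3 + z ^ 5 * r1 z := by
  obtain ⟨r, hr, hr'⟩ := h1 (PeriodPair.weierstrassPExcept LO 0) 0
    (LO.analyticAt_weierstrassPExcept 0) 6
  obtain ⟨r1, hr1, hr1'⟩ := h1 (PeriodPair.derivWeierstrassPExcept LO 0) 0
    (LO.analyticAt_derivWeierstrassPExcept 0) 5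
  refine ⟨r, r1, hr, hr1, fun z hz => ⟨?_, ?_⟩⟩
  · have e1 := hr' z
    rw [zero_add] at e1
    simp only [Finset.sum_range_succ, Finset.sum_range_zero,
      LO.iteratedDeriv_weierstrassPExcept_self 0, LO.sumInvPow_zero] at e1
    norm_num [Nat.factorial, Exp_G3, Exp_G5, Exp_G7] at e1
    have e2 : PeriodPair.weierstrassPExcept LO ((0 : LO.lattice) : ℂ) z +
        (1 / (z - ((0 : LO.lattice) : ℂ)) ^ 2 - 1 / ((0 : LO.lattice) : ℂ) ^ 2) = wp z :=
      LO.weierstrassPExcept_add 0 z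
    rw [ZeroMemClass.coe_zero, e1] at e2
    rw [← e2, Exp_ca, Exp_cb]
    norm_num
    ring
  · have e1 := hr1' z
    rw [zero_add] at e1
    simp only [Finset.sum_range_succ, Finset.sum_range_zero,
      LO.iteratedDeriv_derivWeierstrassPExcept_self 0, LO.sumInvPow_zero] at e1
    norm_num [Nat.factorial, Exp_G3, Exp_G5, Exp_G7] at e1
    have e2 : PeriodPair.derivWeierstrassPExcept LO ((0 : LO.lattice) : ℂ) z -
        2 / (z - ((0 : LO.lattice) : ℂ)) ^ 3 = wp' z := LO.derivWeierstrassPExcept_sub 0 z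
    rw [ZeroMemClass.coe_zero, e1] at e2
    rw [← e2, Exp_ca, Exp_cb]
    norm_num
    ring

private theorem Exp_ne (h1 : S_Tay) : ∀ᶠ z in 𝓝[≠] (0 : ℂ), wp' z ≠ 0 := by
  obtain ⟨r, r1, -, hr1, h⟩ := Exp_one h1
  have hc : ContinuousAt (fun z : ℂ => -2 + 2 * ca * z ^ 4 + 4 * cb * z ^ 6 + z ^ 8 * r1 z) 0 := by
    have := hr1.continuousAt
    fun_prop
  have hn : (fun z : ℂ => -2 + 2 * ca * z ^ 4 + 4 * cb * z ^ 6 + z ^ 8 * r1 z) 0 ≠ 0 := by
    norm_num
  have h2 := (hc.eventually_ne hn).filter_mono (nhdsWithin_le_nhds (s := {(0 : ℂ)}ᶜ))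
  filter_upwards [h2, self_mem_nhdsWithin] with z hz hz0 hw
  have hz0' : z ≠ 0 := hz0
  apply hz
  have h3 := (h z hz0').2
  rw [hw] at h3
  have h4 : z ^ 3 * (z ^ 3)⁻¹ = 1 := mul_inv_cancel₀ (pow_ne_zero 3 hz0')
  change -2 + 2 * ca * z ^ 4 + 4 * cb * z ^ 6 + z ^ 8 * r1 z = 0
  linear_combination (-z ^ 3) * h3 + 2 * h4

private theorem Exp_two (h1 : S_Tay) : ∀ z, ¬ inO z →
    HasDerivAt wp' (6 * wp z ^ 2 - LO.g₂ / 2) z := by
  have hU : AnalyticOnNhd ℂ (fun z => deriv wp' z - 6 * wp z ^ 2 + LO.g₂ / 2)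
      {z : ℂ | ¬ inO z} := by
    intro z hz
    have a1 := (analyticAt_wp' hz).deriv
    have a2 := analyticAt_wp hz
    exact (a1.sub (analyticAt_const.mul (a2.pow 2))).add analyticAt_const
  have key : ∀ z, ¬ inO z → wp' z ≠ 0 → deriv wp' z - 6 * wp z ^ 2 + LO.g₂ / 2 = 0 := by
    intro z hz hw
    have d1 : HasDerivAt (fun u => wp' u ^ 2) (2 * wp' z * deriv wp' z) z := by
      have := ((analyticAt_wp' hz).differentiableAt.hasDerivAt).pow 2
      exact this.congr_deriv (by norm_num)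
    have d2 : HasDerivAt (fun u => 4 * wp u ^ 3 - LO.g₂ * wp u - LO.g₃)
        (4 * (3 * wp z ^ 2 * wp' z) - LO.g₂ * wp' z) z := by
      have e1 := ((hasDerivAt_wp hz).pow 3).const_mul 4
      have e2 := (hasDerivAt_wp hz).const_mul LO.g₂
      have e3 := (e1.sub e2).sub_const LO.g₃
      simpa using e3
    have h2 : (fun u => wp' u ^ 2) =ᶠ[𝓝 z] fun u => 4 * wp u ^ 3 - LO.g₂ * wp u - LO.g₃ := by
      filter_upwards [ev_notO hz] with u hu
      exact wp'_sq hu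
    have h3 := d1.unique (d2.congr_of_eventuallyEq h2)
    have h4 : (2 * wp' z) * (deriv wp' z - 6 * wp z ^ 2 + LO.g₂ / 2) = 0 := by
      linear_combination h3
    exact (mul_eq_zero.1 h4).resolve_left (mul_ne_zero two_ne_zero hw)
  obtain ⟨z0, hz0, hw0⟩ := ((ev_inO 0).and (Exp_ne h1)).exists
  have hev : (fun z => deriv wp' z - 6 * wp z ^ 2 + LO.g₂ / 2) =ᶠ[𝓝 z0] 0 := by
    filter_upwards [ev_notO hz0, (analyticAt_wp' hz0).continuousAt.eventually_ne hw0]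
      with u hu hu'
    exact key u hu hu'
  have hall := hU.eqOn_zero_of_preconnected_of_eventuallyEq_zero preconn_notO hz0 hev
  intro z hz
  have h2 : deriv wp' z - 6 * wp z ^ 2 + LO.g₂ / 2 = 0 := hall hz
  have h3 : 6 * wp z ^ 2 - LO.g₂ / 2 = deriv wp' z := by linear_combination -h2
  rw [h3]
  exact (analyticAt_wp' hz).differentiableAt.hasDerivAt

theorem tExp (h1 : S_Tay) : S_Exp := by
  refine ⟨Exp_one h1, Exp_two h1, fun c hc => ?_⟩
  obtain ⟨r, hr, hr'⟩ := h1 wp c (analyticAt_wp hc) 3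
  obtain ⟨r1, hr1, hr1'⟩ := h1 wp' c (analyticAt_wp' hc) 2
  have hd := (Exp_two h1 c hc).deriv
  refine ⟨r, r1, hr, hr1, fun h => ⟨?_, ?_⟩⟩
  · rw [hr' h]
    simp only [Finset.sum_range_succ, Finset.sum_range_zero, iteratedDeriv_zero,
      iteratedDeriv_succ, deriv_wp, hd, Nat.factorial]
    push_cast
    ring
  · rw [hr1' h]
    simp only [Finset.sum_range_succ, Finset.sum_range_zero, iteratedDeriv_zero,
      iteratedDeriv_succ, hd]
    norm_num [Nat.factorial]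

end DI
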