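import Pool.Agent.Lib.DI.B.Spec

/-! # Theorem DI, Part B: injectivity of `℘` modulo `±1` and the lattice (module Inj) -/

set_option autoImplicit false

namespace DI

open Complex Filter Topology

/-- (A) -/
theorem Inj_A (h2 : S_ZadA) (h3 : S_ZadB) {z z' : ℂ} (hz : ¬ inO z) (hz' : ¬ inO z')
    (hs : ¬ inO (z + z')) :
    (wp z - wp z') ^ 2 * (wp (z + z') + wp z + wp z') = (wp' z - wp' z') ^ 2 / 4 := by
  have a := h2 z z' hz hz' hs
  have b := h3 z z' hz hz' hs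
  rw [← b]
  linear_combination
    ((zt (z + z') - zt z - zt z') * (wp z - wp z') + (wp' z - wp' z') / 2) * a

/-- (i) -/
theorem Inj_D (h4 : S_Con) {z : ℂ} (hz : ¬ inO z) (h0 : wp' z = 0) :
    6 * wp z ^ 2 - LO.g₂ / 2 ≠ 0 := by
  intro h
  obtain ⟨hg2, -, hc, -⟩ := h4
  have hs := wp'_sq hz
  rw [h0] at hs
  have e2 : LO.g₂ = 12 * wp z ^ 2 := by linear_combination (-2) * h
  have e3 : LO.g₃ = -8 * wp z ^ 3 := by linear_combination hs - wp z * e2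
  have hw : wp z ^ 6 = 0 := by
    rw [e2, e3] at hc
    linear_combination (-1 / 4096 : ℂ) * hc
  have hw0 : wp z = 0 := (pow_eq_zero_iff (by norm_num)).1 hw
  exact hg2 (by rw [e2, hw0]; norm_num)

/-- (ii) -/
theorem Inj_key (h1 : S_Exp) (h2 : S_ZadA) (h3 : S_ZadB) (h4 : S_Con) {z₁ z₂ : ℂ}
    (n1 : ¬ inO z₁) (n2 : ¬ inO z₂) (n3 : ¬ inO (z₁ + z₂)) (e : wp z₁ = wp z₂)
    (e1 : wp' z₁ = 0) (e2 : wp' z₂ = 0) : False := by
  have hD := Inj_D h4 n1 e1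
  obtain ⟨-, -, hE⟩ := h1
  obtain ⟨r, r1, hr, hr1, hh⟩ := hE z₁ n1
  have ev : (fun h : ℂ => h ^ 2 * ((3 * wp z₁ ^ 2 - LO.g₂ / 4) + h * r h) ^ 2 *
      (wp (z₁ + z₂ + h) + wp (z₁ + h) + wp z₂)) =ᶠ[𝓝[≠] (0 : ℂ)]
      fun h : ℂ => ((6 * wp z₁ ^ 2 - LO.g₂ / 2) + h * r1 h) ^ 2 / 4 := by
    have c1 : ∀ᶠ h in 𝓝[≠] (0 : ℂ), ¬ inO (h + z₁) := ev_add z₁ 0
    have c2 : ∀ᶠ h in 𝓝[≠] (0 : ℂ), ¬ inO (h + (z₁ + z₂)) := ev_add _ 0
    filter_upwards [c1, c2, self_mem_nhdsWithin] with h k1 k2 k3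
    have k3' : h ≠ 0 := k3
    have hA := Inj_A h2 h3 (z := z₁ + h) (z' := z₂) (by rwa [add_comm]) n2
      (by rwa [show z₁ + h + z₂ = h + (z₁ + z₂) by ring])
    obtain ⟨a1, a2⟩ := hh h
    rw [show z₁ + h + z₂ = z₁ + z₂ + h by ring] at hA
    have b1 : wp (z₁ + h) - wp z₂ = h ^ 2 * ((3 * wp z₁ ^ 2 - LO.g₂ / 4) + h * r h) := by
      rw [a1, ← e, e1]
      ring
    have b2 : wp' (z₁ + h) - wp' z₂ = h * ((6 * wp z₁ ^ 2 - LO.g₂ / 2) + h * r1 h) := by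
      rw [a2, e2, e1]
      ring
    rw [b1, b2] at hA
    have h2ne : h ^ 2 ≠ 0 := pow_ne_zero _ k3'
    refine mul_left_cancel₀ h2ne ?_
    linear_combination hA
  have w1 : ContinuousAt (fun h : ℂ => wp (z₁ + z₂ + h)) 0 := by
    refine ContinuousAt.comp (f := fun h : ℂ => z₁ + z₂ + h) (g := wp) ?_ (by fun_prop)
    rw [add_zero]
    exact (analyticAt_wp n3).continuousAt
  have w2 : ContinuousAt (fun h : ℂ => wp (z₁ + h)) 0 := by
    refine ContinuousAt.comp (f := fun h : ℂ => z₁ + h) (g := wp) ?_ (by fun_prop)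
    rw [add_zero]
    exact (analyticAt_wp n1).continuousAt
  have hrc := hr.continuousAt
  have hrc1 := hr1.continuousAt
  have cl : ContinuousAt (fun h : ℂ => h ^ 2 * ((3 * wp z₁ ^ 2 - LO.g₂ / 4) + h * r h) ^ 2 *
      (wp (z₁ + z₂ + h) + wp (z₁ + h) + wp z₂)) 0 := by fun_prop
  have cr : ContinuousAt (fun h : ℂ => ((6 * wp z₁ ^ 2 - LO.g₂ / 2) + h * r1 h) ^ 2 / 4) 0 := by
    fun_prop
  have t1 := (cl.tendsto.mono_left nhdsWithin_le_nhds).congr' ev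
  have t2 := cr.tendsto.mono_left (nhdsWithin_le_nhds (s := {(0 : ℂ)}ᶜ))
  have t3 := tendsto_nhds_unique t1 t2
  have t4 : (6 * wp z₁ ^ 2 - LO.g₂ / 2) ^ 2 = 0 := by
    linear_combination (-4 : ℂ) * t3
  exact hD ((pow_eq_zero_iff two_ne_zero).1 t4)

theorem tInj (h1 : S_Exp) (h2 : S_ZadA) (h3 : S_ZadB) (h4 : S_Con) : S_Inj := by
  refine ⟨?_, ?_, ?_⟩
  · intro z z' hz hz'
    constructor
    · intro e
      by_contra hcon
      rw [not_or] at hcon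
      obtain ⟨n1, n2⟩ := hcon
      have a1 := Inj_A h2 h3 hz hz' n2
      have hz'' : ¬ inO (-z') := fun h => hz' (inO_neg_iff.1 h)
      have a2 := Inj_A h2 h3 hz hz'' (by rwa [← sub_eq_add_neg])
      rw [wp_neg, wp'_neg] at a2
      rw [e, sub_self] at a1 a2
      have b1 : (wp' z - wp' z') ^ 2 = 0 := by linear_combination (-4 : ℂ) * a1
      have b2 : (wp' z - -wp' z') ^ 2 = 0 := by linear_combination (-4 : ℂ) * a2
      have c1 := (pow_eq_zero_iff two_ne_zero).1 b1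
      have c2 := (pow_eq_zero_iff two_ne_zero).1 b2
      have d1 : wp' z = 0 := by linear_combination (1 / 2 : ℂ) * c1 + (1 / 2 : ℂ) * c2
      have d2 : wp' z' = 0 := by linear_combination (-1 / 2 : ℂ) * c1 + (1 / 2 : ℂ) * c2
      exact Inj_key h1 h2 h3 h4 hz hz' n2 e d1 d2
    · rintro (h | h)
      · exact wp_congr h
      · rw [← wp_neg z']
        exact wp_congr (by rwa [sub_neg_eq_add])
  · intro z hz
    constructor
    · intro h0
      by_contra hn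
      exact Inj_key h1 h2 h3 h4 hz hz hn rfl h0 h0
    · exact wp'_half
  · exact fun z hz h0 => Inj_D h4 hz h0

end DI
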