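import Pool.Agent.Lib.DI.B.Spec

/-! # Theorem DI, Part B, module KA: the limit of the regularised series -/

set_option autoImplicit false

namespace DI

open Complex Filter Topology

private theorem ev_ne : ∀ᶠ v : O in cofinite, v ≠ 0 := by
  have h : ({0}ᶜ : Set O) ∈ (cofinite : Filter O) := (Set.finite_singleton (0 : O)).compl_mem_cofinite
  filter_upwards [h] with v hv
  exact hv

private theorem ev_norm (R : ℝ) : ∀ᶠ v : O in cofinite, R ≤ ‖em v‖ := by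
  have h := (sum3 0).tendsto_cofinite_zero
  have hR : 0 < ((|R| + 1) ^ 3)⁻¹ := by positivity
  have h1 : ∀ᶠ v : O in cofinite, (‖0 + em v‖ ^ 3)⁻¹ < ((|R| + 1) ^ 3)⁻¹ :=
    h.eventually (gt_mem_nhds hR)
  filter_upwards [h1, ev_ne] with v hv hv0
  by_contra h2
  rw [not_le] at h2
  rw [zero_add] at hv
  have h3 : 0 < ‖em v‖ := norm_pos_iff.2 (em_ne_zero hv0)
  have h4 : ‖em v‖ ≤ |R| + 1 := by
    have := le_abs_self R
    linarith
  have h5 : ‖em v‖ ^ 3 ≤ (|R| + 1) ^ 3 := pow_le_pow_left₀ h3.le h4 3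
  have h6 : ((|R| + 1) ^ 3)⁻¹ ≤ (‖em v‖ ^ 3)⁻¹ := inv_anti₀ (by positivity) h5
  linarith

private theorem norm_exp_real (x : ℝ) : ‖((Real.exp x : ℝ) : ℂ)‖ = Real.exp x := by
  rw [Complex.norm_real, Real.norm_of_nonneg (Real.exp_pos x).le]

private theorem exp_bound {x : ℝ} (hx : 0 < x) : Real.exp (-x) ≤ 2 / x ^ 2 := by
  have h1 := Real.quadratic_le_exp_of_nonneg hx.le
  have h2 : x ^ 2 / 2 ≤ Real.exp x := by linarith
  rw [Real.exp_neg, le_div_iff₀ (by positivity), inv_mul_le_iff₀ (Real.exp_pos x)]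
  linarith

/-- the sum of the exponentials converges -/
private theorem sumE {t : ℝ} (ht : 0 < t) :
    Summable fun v : O => ((Real.exp (-t * ‖em v‖ ^ 2) : ℝ) : ℂ) := by
  refine Summable.of_norm_bounded_eventually (g := fun v : O => 2 / t ^ 2 * (‖0 + em v‖ ^ 3)⁻¹)
    ((sum3 0).mul_left _) ?_
  filter_upwards [ev_ne] with v hv
  rw [norm_exp_real, zero_add]
  have h1 := em_norm_ge hv
  have h2 : 0 < t * ‖em v‖ ^ 2 := by positivity
  have h3 := exp_bound h2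
  rw [← neg_mul] at h3
  refine h3.trans ?_
  have h4 : 2 / t ^ 2 * (‖em v‖ ^ 3)⁻¹ = 2 / (t ^ 2 * ‖em v‖ ^ 3) := by
    field_simp
  rw [h4]
  refine div_le_div_of_nonneg_left (by norm_num) (by positivity) ?_
  have h5 : (t * ‖em v‖ ^ 2) ^ 2 = t ^ 2 * ‖em v‖ ^ 3 * ‖em v‖ := by ring
  rw [h5]
  exact le_mul_of_one_le_right (by positivity) h1

private theorem sumA {t : ℝ} (ht : 0 < t) :
    Summable fun v : O => (Real.exp (-t * ‖em v‖ ^ 2) : ℂ) / em v ^ 2 +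
      t * ((starRingEnd ℂ) (em v) / em v) * (Real.exp (-t * ‖em v‖ ^ 2) : ℂ) := by
  refine Summable.of_norm_bounded
    (g := fun v : O => (1 + t) * ‖((Real.exp (-t * ‖em v‖ ^ 2) : ℝ) : ℂ)‖)
    ((sumE ht).norm.mul_left _) fun v => ?_
  by_cases hv : v = 0
  · rw [hv, map_zero]
    simp only [ne_eq, OfNat.ofNat_ne_zero, not_false_eq_true, zero_pow, div_zero, map_zero, mul_zero,
      zero_mul, add_zero, norm_zero]
    positivity
  · have h1 := em_norm_ge hv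
    have h0 : 0 < ‖em v‖ := lt_of_lt_of_le one_pos h1
    have ht' : ‖(t : ℂ)‖ = t := by rw [Complex.norm_real, Real.norm_of_nonneg ht.le]
    refine (norm_add_le _ _).trans ?_
    rw [norm_div, norm_mul, norm_mul, norm_div, norm_pow, Complex.norm_conj, ht', div_self h0.ne',
      mul_one, add_mul, one_mul]
    refine add_le_add ?_ le_rfl
    exact div_le_self (norm_nonneg _) (one_le_pow₀ h1)

private theorem sumZ {z : ℂ} (hz : ¬ inO z) :
    HasSum (fun v : O => (z + em v)⁻¹ - (em v)⁻¹ + z / em v ^ 2) (zt z) := by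
  have h1 : Summable (fun v : O => (z + em v)⁻¹ - (em v)⁻¹ + z / em v ^ 2) := by
    refine Summable.of_norm_bounded_eventually
      (g := fun v : O => 2 * ‖z‖ ^ 2 * (‖0 + em v‖ ^ 3)⁻¹) ((sum3 0).mul_left _) ?_
    filter_upwards [ev_ne, ev_norm (2 * ‖z‖)] with v hv hv2
    have h2 : em v ≠ 0 := em_ne_zero hv
    have h3 : z + em v ≠ 0 := by
      intro h4
      refine hz ?_
      have h5 : z = -em v := by linear_combination h4
      rw [h5]
      exact inO_neg (inO_em v)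
    have h4 : (z + em v)⁻¹ - (em v)⁻¹ + z / em v ^ 2 = z ^ 2 / (em v ^ 2 * (z + em v)) := by
      field_simp
      ring
    have h5 : 0 < ‖em v‖ := norm_pos_iff.2 h2
    have h6 : ‖em v‖ / 2 ≤ ‖z + em v‖ := by
      have h7 : ‖em v‖ ≤ ‖z + em v‖ + ‖z‖ := by
        have h8 : em v = (z + em v) - z := by ring
        calc ‖em v‖ = ‖(z + em v) - z‖ := by rw [← h8]
          _ ≤ ‖z + em v‖ + ‖z‖ := norm_sub_le _ _
      linarith
    rw [h4, zero_add, norm_div, norm_mul, norm_pow, norm_pow, div_le_iff₀ (by positivity)]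
    have h7 : 2 * ‖z‖ ^ 2 * (‖em v‖ ^ 3)⁻¹ * (‖em v‖ ^ 2 * (‖em v‖ / 2)) = ‖z‖ ^ 2 := by
      field_simp
    calc ‖z‖ ^ 2 = 2 * ‖z‖ ^ 2 * (‖em v‖ ^ 3)⁻¹ * (‖em v‖ ^ 2 * (‖em v‖ / 2)) := h7.symm
      _ ≤ 2 * ‖z‖ ^ 2 * (‖em v‖ ^ 3)⁻¹ * (‖em v‖ ^ 2 * ‖z + em v‖) := by gcongr
  have h2 : ∑' v : O, ((z + em v)⁻¹ - (em v)⁻¹ + z / em v ^ 2) = zt z := by
    unfold zt
    rw [← tsum_eq (fun x : ℂ => 1 / (z - x) + 1 / x + z / x ^ 2),
      ← Equiv.tsum_eq (Equiv.neg O)]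
    refine tsum_congr fun v => ?_
    rw [Equiv.neg_apply, map_neg, ← sub_eq_add_neg, neg_sq, one_div, one_div, inv_neg]
    ring
  rw [← h2]
  exact h1.hasSum

private theorem qq_cont (z x : ℂ) : Continuous fun t : ℝ => qq z t x := by
  unfold qq
  fun_prop

private theorem qq_zero (z x : ℂ) : qq z 0 x = 0 := by
  unfold qq
  simp only [neg_zero, zero_mul, Real.exp_zero, Complex.ofReal_one, Complex.ofReal_zero, mul_zero,
    add_zero, mul_one, one_div]
  ring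

theorem tKA (h1 : S_KS) (h2 : S_KQ) : S_KA := by
  refine ⟨fun t => ∑' v : O, ((Real.exp (-t * ‖em v‖ ^ 2) : ℂ) / em v ^ 2 +
      t * ((starRingEnd ℂ) (em v) / em v) * (Real.exp (-t * ‖em v‖ ^ 2) : ℂ)),
    fun t => ∑' v : O, (t : ℂ) * (Real.exp (-t * ‖em v‖ ^ 2) : ℂ), fun z hz => ?_⟩
  obtain ⟨k1, -, k3, -⟩ := h1
  have hK0 : ∀ t : ℝ, KK t 0 = 0 := by
    intro t
    have h3 := k3 t 0
    rw [neg_zero] at h3
    have h4 : KK t 0 + KK t 0 = 0 := by linear_combination h3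
    have h5 : (2 : ℂ) * KK t 0 = 0 := by rw [two_mul]; exact h4
    rcases mul_eq_zero.1 h5 with h6 | h6
    · norm_num at h6
    · exact h6
  -- the identity
  have key : ∀ t : ℝ, 0 < t → KK t z + (∑' v : O, ((Real.exp (-t * ‖em v‖ ^ 2) : ℂ) / em v ^ 2 +
      t * ((starRingEnd ℂ) (em v) / em v) * (Real.exp (-t * ‖em v‖ ^ 2) : ℂ))) * z +
      (∑' v : O, (t : ℂ) * (Real.exp (-t * ‖em v‖ ^ 2) : ℂ)) * (starRingEnd ℂ) z =
      (∑' v : O, qq z t (em v)) + zt z := by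
    intro t ht
    have s1 : HasSum (fun v : O => (z + em v)⁻¹ * (Real.exp (-t * ‖z + em v‖ ^ 2) : ℂ)) (KK t z) :=
      (k1 t ht z).hasSum
    have s2 := (sumA ht).hasSum
    have s3 := ((sumE ht).mul_left (t : ℂ)).hasSum
    have s4 : HasSum (fun v : O => (Real.exp (-t * ‖em v‖ ^ 2) : ℂ) / em v) 0 := by
      have h5 := (k1 t ht 0).hasSum
      have h6 : ∑' v : O, (0 + em v)⁻¹ * (Real.exp (-t * ‖0 + em v‖ ^ 2) : ℂ) = 0 := hK0 t
      rw [h6] at h5
      refine h5.congr_fun ?_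
      intro v
      rw [zero_add, div_eq_mul_inv, mul_comm]
    have s5 := sumZ hz
    have s6 := (((s1.add (s2.mul_left z)).add (s3.mul_left ((starRingEnd ℂ) z))).sub s4).sub s5
    have s7 : ∑' v : O, qq z t (em v) = _ := s6.tsum_eq
    rw [s7]
    ring
  have lim : Tendsto (fun t : ℝ => ∑' v : O, qq z t (em v)) (𝓝[>] 0) (𝓝 (∑' _ : O, (0 : ℂ))) := by
    have hM : ∀ v : O, ∃ C : ℝ, ∀ t ∈ Set.Icc (0 : ℝ) 1, ‖qq z t (em v)‖ ≤ C := fun v =>
      isCompact_Icc.exists_bound_of_continuousOn (qq_cont z (em v)).continuousOn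
    choose M hM using hM
    classical
    refine tendsto_tsum_of_dominated_convergence
      (bound := fun v : O => if v ≠ 0 ∧ 5 * ‖z‖ ≤ ‖em v‖ then 300 * ‖z‖ ^ 2 / ‖em v‖ ^ 3 else M v)
      ?_ ?_ ?_
    · have h3 : Summable fun v : O => 300 * ‖z‖ ^ 2 / ‖em v‖ ^ 3 := by
        have h4 := (sum3 0).mul_left (300 * ‖z‖ ^ 2)
        refine h4.congr fun v => ?_
        rw [zero_add, div_eq_mul_inv]
      refine h3.congr_cofinite ?_
      filter_upwards [ev_ne, ev_norm (5 * ‖z‖)] with v hv hv2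
      rw [if_pos ⟨hv, hv2⟩]
    · intro v
      have h3 := (qq_cont z (em v)).tendsto 0
      rw [qq_zero] at h3
      exact h3.mono_left nhdsWithin_le_nhds
    · have h3 : Set.Ioc (0 : ℝ) 1 ∈ 𝓝[>] (0 : ℝ) := Ioc_mem_nhdsGT one_pos
      filter_upwards [h3] with t ht v
      by_cases hv : v ≠ 0 ∧ 5 * ‖z‖ ≤ ‖em v‖
      · rw [if_pos hv]
        exact h2 z (em v) t ht.1 (em_ne_zero hv.1) hv.2
      · rw [if_neg hv]
        exact hM v t ⟨ht.1.le, ht.2⟩
  rw [tsum_zero] at lim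
  have lim2 := lim.add_const (zt z)
  rw [zero_add] at lim2
  refine lim2.congr' ?_
  filter_upwards [self_mem_nhdsWithin] with t ht
  exact (key t ht).symm

end DI
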