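import Pool.Agent.Lib.DI.B.Spec

/-! # Theorem DI, Part B, module KB: the periodic zeta function -/

set_option autoImplicit false

namespace DI

open Complex Filter Topology

theorem KB_ne : qw - pw ≠ 0 := by
  intro h
  have h1 := congrArg Complex.im h
  rw [← conj_pw, Complex.sub_im, Complex.conj_im, Complex.zero_im] at h1
  have := pw_im_pos
  linarith

theorem KB_diff (h1 : S_Zet) (h3 : S_KS) {A B : ℝ → ℂ}
    (hAB : ∀ z : ℂ, ¬ inO z →
      Tendsto (fun t : ℝ => KK t z + A t * z + B t * (starRingEnd ℂ) z) (𝓝[>] 0) (𝓝 (zt z)))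
    (v : O) : Tendsto (fun t : ℝ => A t * em v + B t * (starRingEnd ℂ) (em v)) (𝓝[>] 0)
      (𝓝 (v.re * et1 + v.im * et2)) := by
  have e1 := hAB (1 / 2 + em v) (fun h => notO_half ((inO_add_em v).1 h))
  have e2 := hAB (1 / 2) notO_half
  have e3 := e1.sub e2
  rw [h1.2.2.1 (1 / 2) v notO_half, add_sub_cancel_left] at e3
  refine e3.congr fun t => ?_
  rw [h3.2.1 t (1 / 2) v, map_add]
  ring

theorem KB_lim (h1 : S_Zet) (h3 : S_KS) (h5 : S_KA) : ∀ z : ℂ, ¬ inO z →
    Tendsto (fun t : ℝ => KK t z) (𝓝[>] 0) (𝓝 (kz z)) := by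
  obtain ⟨A, B, hAB⟩ := h5
  have e1 : Tendsto (fun t : ℝ => A t + B t) (𝓝[>] 0) (𝓝 et1) := by
    have h := KB_diff h1 h3 hAB 1
    rw [QuadraticAlgebra.re_one, QuadraticAlgebra.im_one] at h
    have e : (((1 : ℤ) : ℂ) * et1 + ((0 : ℤ) : ℂ) * et2) = et1 := by
      push_cast
      ring
    rw [e] at h
    refine h.congr fun t => ?_
    rw [map_one, map_one]
    ring
  have e2 : Tendsto (fun t : ℝ => A t * pw + B t * qw) (𝓝[>] 0) (𝓝 et2) := by
    have h := KB_diff h1 h3 hAB QuadraticAlgebra.omega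
    rw [QuadraticAlgebra.omega_re, QuadraticAlgebra.omega_im] at h
    have e : (((0 : ℤ) : ℂ) * et1 + ((1 : ℤ) : ℂ) * et2) = et2 := by
      push_cast
      ring
    rw [e] at h
    refine h.congr fun t => ?_
    rw [em_omega, conj_pw]
  have e3 : Tendsto B (𝓝[>] 0) (𝓝 be) := by
    have h := (e2.sub (e1.const_mul pw)).div_const (qw - pw)
    refine h.congr fun t => ?_
    rw [div_eq_iff KB_ne]
    ring
  have e4 : Tendsto A (𝓝[>] 0) (𝓝 al) := by
    have h := e1.sub e3
    refine h.congr fun t => ?_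
    ring
  intro z hz
  have h := ((hAB z hz).sub (e4.mul_const z)).sub (e3.mul_const ((starRingEnd ℂ) z))
  refine h.congr fun t => ?_
  ring

theorem tKB (h1 : S_Zet) (h2 : S_Cj) (h3 : S_KS) (h4 : S_KD) (h5 : S_KA) : S_KB := by
  have _ := h2
  have hlim := KB_lim h1 h3 h5
  refine ⟨hlim, ?_, ?_, ?_, ?_⟩
  · intro z v hz
    have hz' : ¬ inO (z + em v) := fun h => hz ((inO_add_em v).1 h)
    have e1 := hlim (z + em v) hz'
    refine tendsto_nhds_unique e1 ((hlim z hz).congr fun t => ?_)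
    rw [h3.2.1 t z v]
  · intro z
    unfold kz
    rw [h1.2.1 z, map_neg]
    ring
  · intro z hz
    have hz' : ¬ inO ((starRingEnd ℂ) z) := fun h => hz (inO_conj_iff.1 h)
    have e1 := hlim ((starRingEnd ℂ) z) hz'
    have e2 := (Complex.continuous_conj.tendsto (kz z)).comp (hlim z hz)
    refine tendsto_nhds_unique e1 (e2.congr fun t => ?_)
    rw [Function.comp_apply, h3.2.2.2 t z]
  · intro μ R hμ hR z hz
    have hc : (0 : ℝ) < ‖em μ‖ ^ 2 := by
      have := norm_pos_iff.2 (em_ne_zero hμ)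
      positivity
    have e1 : Tendsto (fun t : ℝ => ∑ u ∈ R, KK t (z + u)) (𝓝[>] 0)
        (𝓝 (∑ u ∈ R, kz (z + u))) := by
      refine tendsto_finsetSum R fun u hu => hlim (z + u) fun h => hz ?_
      have h6 := inO_sub (inO_mul μ h) (hR.mem u hu)
      rwa [mul_add, add_sub_cancel_right] at h6
    have e2 : Tendsto (fun t : ℝ => t / ‖em μ‖ ^ 2) (𝓝[>] 0) (𝓝[>] 0) := by
      refine tendsto_nhdsWithin_of_tendsto_nhds_of_eventually_within _ ?_ ?_
      · have h7 : Tendsto (fun t : ℝ => t / ‖em μ‖ ^ 2) (𝓝 0) (𝓝 (0 / ‖em μ‖ ^ 2)) :=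
          tendsto_id.div_const _
        rw [zero_div] at h7
        exact h7.mono_left nhdsWithin_le_nhds
      · filter_upwards [self_mem_nhdsWithin] with t ht
        exact div_pos ht hc
    have e3 := ((hlim (em μ * z) hz).comp e2).const_mul (em μ)
    refine tendsto_nhds_unique e1 (e3.congr' ?_)
    filter_upwards [self_mem_nhdsWithin] with t ht
    rw [h4 t ht μ R hμ hR z, Function.comp_apply]

end DI
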