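import Pool.Agent.Lib.DI.B.Spec

/-! # Theorem DI, Part B, module KD: distribution of the regularised series (helper92) -/

set_option autoImplicit false

namespace DI

open Complex Filter Topology

private theorem KD_term {a : ℂ} (ha : a ≠ 0) (t : ℝ) (x : ℂ) :
    a * ((a * x)⁻¹ * (Real.exp (-(t / ‖a‖ ^ 2) * ‖a * x‖ ^ 2) : ℂ)) =
      x⁻¹ * (Real.exp (-t * ‖x‖ ^ 2) : ℂ) := by
  have hn : ‖a‖ ≠ 0 := norm_ne_zero_iff.2 ha
  have h1 : -(t / ‖a‖ ^ 2) * ‖a * x‖ ^ 2 = -t * ‖x‖ ^ 2 := by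
    rw [norm_mul]
    field_simp
  rw [h1, mul_inv, ← mul_assoc, ← mul_assoc, mul_inv_cancel₀ ha, one_mul]

theorem tKD (h1 : S_KS) : S_KD := by
  intro t ht μ R hμ hR z
  have hμ' : em μ ≠ 0 := em_ne_zero hμ
  have hn : 0 < ‖em μ‖ := norm_pos_iff.2 hμ'
  choose w hw using fun u : R => inO_iff.1 (hR.mem u.1 u.2)
  obtain ⟨g, hgd⟩ : ∃ g : R × O → O, ∀ p, g p = w p.1 + μ * p.2 := ⟨_, fun p => rfl⟩
  have hg : ∀ p : R × O, em (g p) = em μ * ((p.1 : ℂ) + em p.2) := by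
    intro p
    rw [hgd, map_add, map_mul, hw]
    ring
  have hbij : Function.Bijective g := by
    constructor
    · rintro ⟨u, v⟩ ⟨u', v'⟩ h
      have h2 := congrArg em h
      rw [hg, hg] at h2
      have h3 : (u : ℂ) + em v = (u' : ℂ) + em v' := mul_left_cancel₀ hμ' h2
      have h4 : inO ((u : ℂ) - u') := by
        have h5 : (u : ℂ) - u' = em (v' - v) := by
          rw [map_sub]
          linear_combination h3
        rw [h5]
        exact inO_em _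
      have h5 : u = u' := Subtype.ext (hR.uni u u.2 u' u'.2 h4)
      rw [h5] at h3
      have h6 : v = v' := em_inj (add_left_cancel h3)
      rw [h5, h6]
    · intro m
      obtain ⟨u, hu, h⟩ := hR.ex (em m / em μ) (by rw [mul_div_cancel₀ _ hμ']; exact inO_em m)
      obtain ⟨v, hv⟩ := inO_iff.1 h
      refine ⟨(⟨u, hu⟩, v), em_inj ?_⟩
      rw [hg]
      change em μ * (u + em v) = em m
      rw [hv, add_sub_cancel, mul_div_cancel₀ _ hμ']
  have ht' : 0 < t / ‖em μ‖ ^ 2 := by positivity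
  have hs := (h1.1 (t / ‖em μ‖ ^ 2) ht' (em μ * z)).mul_left (em μ)
  have hterm : ∀ p : R × O, em μ * ((em μ * z + em ((Equiv.ofBijective g hbij) p))⁻¹ *
      (Real.exp (-(t / ‖em μ‖ ^ 2) * ‖em μ * z + em ((Equiv.ofBijective g hbij) p)‖ ^ 2) : ℂ)) =
      (z + (p.1 : ℂ) + em p.2)⁻¹ * (Real.exp (-t * ‖z + (p.1 : ℂ) + em p.2‖ ^ 2) : ℂ) := by
    intro p
    rw [Equiv.ofBijective_apply, hg]
    have h2 : em μ * z + em μ * ((p.1 : ℂ) + em p.2) = em μ * (z + (p.1 : ℂ) + em p.2) := by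
      ring
    rw [h2, KD_term hμ']
  have hs2 : Summable fun p : R × O =>
      (z + (p.1 : ℂ) + em p.2)⁻¹ * (Real.exp (-t * ‖z + (p.1 : ℂ) + em p.2‖ ^ 2) : ℂ) := by
    refine ((Equiv.summable_iff (Equiv.ofBijective g hbij)).2 hs).congr fun p => ?_
    exact hterm p
  have e1 : em μ * KK (t / ‖em μ‖ ^ 2) (em μ * z) = ∑' m : O, em μ * ((em μ * z + em m)⁻¹ *
      (Real.exp (-(t / ‖em μ‖ ^ 2) * ‖em μ * z + em m‖ ^ 2) : ℂ)) := by
    unfold KK
    rw [tsum_mul_left]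
  rw [e1, ← Equiv.tsum_eq (Equiv.ofBijective g hbij), tsum_congr hterm, hs2.tsum_prod,
    tsum_fintype, ← Finset.sum_coe_sort R]
  rfl

end DI
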