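import Pool.Agent.Lib.DI.B.Spec

/-! # Theorem DI, Part B: module KQ, the bound for the domination -/

set_option autoImplicit false

namespace DI

open Complex Filter Topology

/-- `s exp (-s) ≤ 1` -/
theorem KQ_exp1 (s : ℝ) : s * Real.exp (-s) ≤ 1 := by
  have h1 : s ≤ Real.exp s := by linarith [Real.add_one_le_exp s]
  rw [Real.exp_neg, ← div_eq_mul_inv, div_le_one (Real.exp_pos s)]
  exact h1

/-- `s² exp (-2 s/5) ≤ 25/2` -/
theorem KQ_exp2 (s : ℝ) (hs : 0 ≤ s) : s ^ 2 * Real.exp (-(2 / 5 * s)) ≤ 25 / 2 := by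
  have h1 : 1 + (2 / 5 * s) + (2 / 5 * s) ^ 2 / 2 ≤ Real.exp (2 / 5 * s) :=
    Real.quadratic_le_exp_of_nonneg (by positivity)
  rw [Real.exp_neg, ← div_eq_mul_inv, div_le_iff₀ (Real.exp_pos _)]
  nlinarith

/-- `|exp (-a) - 1 + a| ≤ a² exp |a|` -/
theorem KQ_exp3 (a : ℝ) : |Real.exp (-a) - 1 + a| ≤ a ^ 2 * Real.exp |a| := by
  have h := Complex.norm_exp_sub_sum_le_norm_mul_exp ((-a : ℝ) : ℂ) 2
  have h2 : Complex.exp ((-a : ℝ) : ℂ) -
      ∑ m ∈ Finset.range 2, ((-a : ℝ) : ℂ) ^ m / (m.factorial : ℂ) =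
      ((Real.exp (-a) - 1 + a : ℝ) : ℂ) := by
    rw [Finset.sum_range_succ, Finset.sum_range_one]
    simp only [pow_zero, Nat.factorial_zero, Nat.cast_one, div_one, pow_one,
      Nat.factorial_one]
    push_cast
    ring
  rw [h2, Complex.norm_real, Complex.norm_real, Real.norm_eq_abs, Real.norm_eq_abs, abs_neg,
    sq_abs] at h
  exact h

theorem tKQ : S_KQ := by
  intro z x t ht hx hzx
  obtain ⟨N, hN⟩ : ∃ N, N = ‖z‖ := ⟨_, rfl⟩
  obtain ⟨X, hX⟩ : ∃ X, X = ‖x‖ := ⟨_, rfl⟩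
  rw [← hN, ← hX] at hzx ⊢
  have hX0 : 0 < X := hX ▸ norm_pos_iff.2 hx
  have hN0 : 0 ≤ N := hN ▸ norm_nonneg z
  have hD : X / 2 ≤ ‖z + x‖ := by
    have h1 : ‖x‖ - ‖z‖ ≤ ‖x + z‖ := norm_sub_le_norm_add x z
    rw [add_comm x z, ← hN, ← hX] at h1
    linarith
  have hD0 : 0 < ‖z + x‖ := by linarith [half_pos hX0]
  have hzx0 : z + x ≠ 0 := norm_pos_iff.1 hD0
  obtain ⟨q, hq⟩ : ∃ q : ℝ, q = (z * (starRingEnd ℂ) x).re := ⟨_, rfl⟩
  have hqb : |q| ≤ N * X := by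
    rw [hq, hN, hX]
    refine (Complex.abs_re_le_norm _).trans ?_
    rw [norm_mul, Complex.norm_conj]
  have hqC : (2 * q : ℂ) = z * (starRingEnd ℂ) x + (starRingEnd ℂ) z * x := by
    have h1 := Complex.add_conj (z * (starRingEnd ℂ) x)
    rw [map_mul, Complex.conj_conj, ← hq] at h1
    rw [h1]
    push_cast
    ring
  have e1 : ‖z + x‖ ^ 2 = X ^ 2 + 2 * q + N ^ 2 := by
    rw [Complex.sq_norm, Complex.normSq_add, ← hq, ← Complex.sq_norm, ← Complex.sq_norm, ← hN,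
      ← hX]
    ring
  obtain ⟨E, hE⟩ : ∃ E : ℝ, E = Real.exp (-t * X ^ 2) := ⟨_, rfl⟩
  obtain ⟨y, hy⟩ : ∃ y : ℝ, y = 2 * t * q := ⟨_, rfl⟩
  obtain ⟨a, ha⟩ : ∃ a : ℝ, a = y + t * N ^ 2 := ⟨_, rfl⟩
  have hEe : Real.exp (-t * ‖z + x‖ ^ 2) = E * Real.exp (-a) := by
    rw [hE, ← Real.exp_add, e1, ha, hy]
    congr 1
    ring
  have hE0 : 0 < E := hE ▸ Real.exp_pos _
  have hE1 : E ≤ 1 := by
    rw [hE]
    apply Real.exp_le_one_iff.2
    have : 0 < t * X ^ 2 := by positivity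
    linarith
  have hyC : (y : ℂ) = t * (z * (starRingEnd ℂ) x + (starRingEnd ℂ) z * x) := by
    rw [← hqC, hy]
    push_cast
    ring
  have key : qq z t x = (E * (Real.exp (-a) - 1 + y) : ℝ) / (z + x) +
      (E - 1 : ℝ) * (z ^ 2 / (x ^ 2 * (z + x))) + (E * y : ℝ) * (z / (x * (z + x))) := by
    unfold qq
    rw [hEe, ← hX, ← hE]
    push_cast
    rw [hyC]
    field_simp
    ring
  have hs0 : 0 ≤ t * X ^ 2 := by positivity
  have hya : |y| ≤ 2 * t * (N * X) := by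
    rw [hy, abs_mul, abs_of_pos (by positivity : (0 : ℝ) < 2 * t)]
    exact mul_le_mul_of_nonneg_left hqb (by positivity)
  have hNX : N ^ 2 ≤ N * X / 5 := by nlinarith [mul_le_mul_of_nonneg_left hzx hN0]
  have haa : |a| ≤ 3 * t * (N * X) := by
    have h1 : |a| ≤ |y| + |t * N ^ 2| := by rw [ha]; exact abs_add_le _ _
    rw [abs_of_nonneg (by positivity : (0 : ℝ) ≤ t * N ^ 2)] at h1
    have h2 : t * N ^ 2 ≤ t * (N * X / 5) := mul_le_mul_of_nonneg_left hNX ht.le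
    have h3 : 0 ≤ t * (N * X) := by positivity
    nlinarith
  have has : |a| ≤ 3 / 5 * (t * X ^ 2) := by
    have h1 : N * X ≤ X ^ 2 / 5 := by nlinarith [mul_le_mul_of_nonneg_right hzx hX0.le]
    have h2 : t * (N * X) ≤ t * (X ^ 2 / 5) := mul_le_mul_of_nonneg_left h1 ht.le
    linarith
  -- the first term
  have b1 : |E * (Real.exp (-a) - 1 + y)| ≤ 227 / 2 * N ^ 2 / X ^ 2 := by
    have h1 : |Real.exp (-a) - 1 + y| ≤ a ^ 2 * Real.exp |a| + t * N ^ 2 := by
      have h2 : Real.exp (-a) - 1 + y = (Real.exp (-a) - 1 + a) + -(t * N ^ 2) := by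
        rw [ha]
        ring
      rw [h2]
      refine (abs_add_le _ _).trans ?_
      rw [abs_neg, abs_of_nonneg (by positivity : (0 : ℝ) ≤ t * N ^ 2)]
      exact add_le_add (KQ_exp3 a) le_rfl
    have h3 : a ^ 2 ≤ (3 * t * (N * X)) ^ 2 := by
      rw [← sq_abs a]
      exact pow_le_pow_left₀ (abs_nonneg a) haa 2
    have h4 : Real.exp |a| ≤ Real.exp (3 / 5 * (t * X ^ 2)) := Real.exp_le_exp.2 has
    have h5 : E * (a ^ 2 * Real.exp |a|) ≤ (3 * t * (N * X)) ^ 2 *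
        Real.exp (-(2 / 5 * (t * X ^ 2))) := by
      have h6 : Real.exp (-(2 / 5 * (t * X ^ 2))) = E * Real.exp (3 / 5 * (t * X ^ 2)) := by
        rw [hE, ← Real.exp_add]
        congr 1
        ring
      rw [h6]
      calc E * (a ^ 2 * Real.exp |a|) ≤ E * ((3 * t * (N * X)) ^ 2 *
          Real.exp (3 / 5 * (t * X ^ 2))) := by
            apply mul_le_mul_of_nonneg_left _ hE0.le
            exact mul_le_mul h3 h4 (Real.exp_pos _).le (by positivity)
        _ = _ := by ring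
    have h7 := KQ_exp2 (t * X ^ 2) hs0
    have h8 := KQ_exp1 (t * X ^ 2)
    rw [abs_mul, abs_of_pos hE0]
    have h9 : E * |Real.exp (-a) - 1 + y| ≤ E * (a ^ 2 * Real.exp |a|) + E * (t * N ^ 2) := by
      rw [← mul_add]
      exact mul_le_mul_of_nonneg_left h1 hE0.le
    rw [le_div_iff₀ (by positivity)]
    have h10 : E = Real.exp (-(t * X ^ 2)) := by rw [hE]; congr 1; ring
    rw [← h10] at h8
    have h11 : (3 * t * (N * X)) ^ 2 * Real.exp (-(2 / 5 * (t * X ^ 2))) * X ^ 2 =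
        9 * N ^ 2 * ((t * X ^ 2) ^ 2 * Real.exp (-(2 / 5 * (t * X ^ 2)))) := by ring
    have h12 : E * (t * N ^ 2) * X ^ 2 = N ^ 2 * (t * X ^ 2 * E) := by ring
    calc E * |Real.exp (-a) - 1 + y| * X ^ 2
        ≤ (E * (a ^ 2 * Real.exp |a|) + E * (t * N ^ 2)) * X ^ 2 :=
          mul_le_mul_of_nonneg_right h9 (by positivity)
      _ ≤ ((3 * t * (N * X)) ^ 2 * Real.exp (-(2 / 5 * (t * X ^ 2))) +
          E * (t * N ^ 2)) * X ^ 2 := by
            apply mul_le_mul_of_nonneg_right _ (by positivity)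
            linarith
      _ = 9 * N ^ 2 * ((t * X ^ 2) ^ 2 * Real.exp (-(2 / 5 * (t * X ^ 2)))) +
          N ^ 2 * (t * X ^ 2 * E) := by rw [add_mul, h11, h12]
      _ ≤ 9 * N ^ 2 * (25 / 2) + N ^ 2 * 1 := by
            apply add_le_add
            · exact mul_le_mul_of_nonneg_left h7 (by positivity)
            · exact mul_le_mul_of_nonneg_left h8 (by positivity)
      _ ≤ 227 / 2 * N ^ 2 := by nlinarith [sq_nonneg N]
  have c1 : ‖((E * (Real.exp (-a) - 1 + y) : ℝ) : ℂ) / (z + x)‖ ≤ 227 * N ^ 2 / X ^ 3 := by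
    rw [norm_div, Complex.norm_real, Real.norm_eq_abs]
    calc |E * (Real.exp (-a) - 1 + y)| / ‖z + x‖ ≤ (227 / 2 * N ^ 2 / X ^ 2) / (X / 2) :=
          div_le_div₀ (by positivity) b1 (by positivity) hD
      _ = 227 * N ^ 2 / X ^ 3 := by
          field_simp
  have c2 : ‖((E - 1 : ℝ) : ℂ) * (z ^ 2 / (x ^ 2 * (z + x)))‖ ≤ 2 * N ^ 2 / X ^ 3 := by
    rw [norm_mul, norm_div, norm_mul, norm_pow, norm_pow, ← hN, ← hX, Complex.norm_real,
      Real.norm_eq_abs]
    have h1 : |E - 1| ≤ 1 := by rw [abs_le]; constructor <;> linarith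
    calc |E - 1| * (N ^ 2 / (X ^ 2 * ‖z + x‖)) ≤ 1 * (N ^ 2 / (X ^ 2 * (X / 2))) := by
          apply mul_le_mul h1 _ (by positivity) zero_le_one
          apply div_le_div_of_nonneg_left (by positivity) (by positivity)
          exact mul_le_mul_of_nonneg_left hD (by positivity)
      _ = 2 * N ^ 2 / X ^ 3 := by
          field_simp
  have c3 : ‖((E * y : ℝ) : ℂ) * (z / (x * (z + x)))‖ ≤ 4 * N ^ 2 / X ^ 3 := by
    rw [norm_mul, norm_div, norm_mul, ← hN, ← hX, Complex.norm_real, Real.norm_eq_abs]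
    have h8 := KQ_exp1 (t * X ^ 2)
    have h10 : E = Real.exp (-(t * X ^ 2)) := by rw [hE]; congr 1; ring
    rw [← h10] at h8
    have h1 : |E * y| ≤ 2 * N / X := by
      rw [abs_mul, abs_of_pos hE0, le_div_iff₀ hX0]
      calc E * |y| * X ≤ E * (2 * t * (N * X)) * X := by
            apply mul_le_mul_of_nonneg_right _ hX0.le
            exact mul_le_mul_of_nonneg_left hya hE0.le
        _ = 2 * N * (t * X ^ 2 * E) := by ring
        _ ≤ 2 * N * 1 := mul_le_mul_of_nonneg_left h8 (by positivity)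
        _ = 2 * N := by ring
    calc |E * y| * (N / (X * ‖z + x‖)) ≤ (2 * N / X) * (N / (X * (X / 2))) := by
          apply mul_le_mul h1 _ (by positivity) (by positivity)
          apply div_le_div_of_nonneg_left (by positivity) (by positivity)
          exact mul_le_mul_of_nonneg_left hD (by positivity)
      _ = 4 * N ^ 2 / X ^ 3 := by
          field_simp
          ring
  rw [key]
  calc ‖((E * (Real.exp (-a) - 1 + y) : ℝ) : ℂ) / (z + x) +
      ((E - 1 : ℝ) : ℂ) * (z ^ 2 / (x ^ 2 * (z + x))) +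
      ((E * y : ℝ) : ℂ) * (z / (x * (z + x)))‖
      ≤ 227 * N ^ 2 / X ^ 3 + 2 * N ^ 2 / X ^ 3 + 4 * N ^ 2 / X ^ 3 := by
        refine (norm_add_le _ _).trans (add_le_add ((norm_add_le _ _).trans
          (add_le_add c1 c2)) c3)
    _ = 233 * N ^ 2 / X ^ 3 := by ring
    _ ≤ 300 * N ^ 2 / X ^ 3 := by
        apply div_le_div_of_nonneg_right _ (by positivity)
        nlinarith [sq_nonneg N]

end DI
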