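import Pool.Agent.Lib.DI.B.Spec

/-! # Theorem DI, Part B, module KS: the regularised series -/

set_option autoImplicit false

namespace DI

open Complex Filter Topology

/-- the summand -/
private noncomputable def KS_f (t : ℝ) (x : ℂ) : ℂ := x⁻¹ * (Real.exp (-t * ‖x‖ ^ 2) : ℂ)

private theorem KS_KK (t : ℝ) (z : ℂ) : KK t z = ∑' v : O, KS_f t (z + em v) := rfl

private theorem KS_exp {s : ℝ} (hs : 0 < s) : Real.exp (-s) ≤ s⁻¹ := by
  rw [Real.exp_neg]
  have h := Real.add_one_le_exp s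
  exact inv_anti₀ hs (by linarith)

private theorem KS_bound {t : ℝ} (ht : 0 < t) (x : ℂ) : ‖KS_f t x‖ ≤ t⁻¹ * (‖x‖ ^ 3)⁻¹ := by
  unfold KS_f
  by_cases hx : x = 0
  · rw [hx]
    simp
  · have h0 : 0 < ‖x‖ := norm_pos_iff.mpr hx
    have h1 : 0 < t * ‖x‖ ^ 2 := by positivity
    rw [norm_mul, norm_inv, Complex.norm_real, Real.norm_of_nonneg (Real.exp_nonneg _)]
    have h2 := KS_exp h1
    rw [neg_mul]
    calc ‖x‖⁻¹ * Real.exp (-(t * ‖x‖ ^ 2)) ≤ ‖x‖⁻¹ * (t * ‖x‖ ^ 2)⁻¹ :=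
          mul_le_mul_of_nonneg_left h2 (inv_nonneg.mpr h0.le)
      _ = t⁻¹ * (‖x‖ ^ 3)⁻¹ := by
          field_simp

private theorem KS_neg (t : ℝ) (x : ℂ) : KS_f t (-x) = -KS_f t x := by
  unfold KS_f
  rw [norm_neg, inv_neg, neg_mul]

private theorem KS_conj (t : ℝ) (x : ℂ) :
    KS_f t ((starRingEnd ℂ) x) = (starRingEnd ℂ) (KS_f t x) := by
  unfold KS_f
  rw [map_mul, map_inv₀, Complex.conj_ofReal, Complex.norm_conj]

theorem tKS : S_KS := by
  refine ⟨?_, ?_, ?_, ?_⟩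
  · intro t ht z
    exact Summable.of_norm_bounded ((sum3 z).mul_left t⁻¹) (fun v => KS_bound ht (z + em v))
  · intro t z v
    rw [KS_KK, KS_KK, ← Equiv.tsum_eq (Equiv.addLeft v) (fun w : O => KS_f t (z + em w))]
    refine tsum_congr fun u => ?_
    rw [Equiv.coe_addLeft, map_add, add_assoc]
  · intro t z
    rw [KS_KK, KS_KK, ← tsum_neg, ← Equiv.tsum_eq (Equiv.neg O) (fun w : O => KS_f t (-z + em w))]
    refine tsum_congr fun u => ?_
    rw [Equiv.neg_apply, map_neg, ← neg_add, KS_neg]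
  · intro t z
    rw [KS_KK, KS_KK, Complex.conj_tsum,
      ← Equiv.tsum_eq (Function.Involutive.toPerm (star : O → O) star_involutive)
        (fun w : O => KS_f t ((starRingEnd ℂ) z + em w))]
    refine tsum_congr fun u => ?_
    rw [Function.Involutive.coe_toPerm, em_star, ← map_add, KS_conj]

end DI
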