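import Pool.Agent.Lib.DI.B.Spec

/-! # Theorem DI, Part B, module Lau: comparison of coefficients -/

set_option autoImplicit false

namespace DI

open Complex Filter Topology

theorem tLau (h1 : S_Exp) (h2 : S_MulA) (h3 : S_MulB) : S_Lau := by
  obtain ⟨⟨r, r1, hr, -, hexp⟩, -, -⟩ := h1
  set A : ℂ := ca * (pw ^ 4 - 1) with hA
  set B : ℂ := cb * (pw ^ 6 - 1) with hB
  set R : ℂ → ℂ := fun z => pw ^ 8 * r (pw * z) - r z with hR
  set S : ℂ → ℂ := fun z => ca + cb * z ^ 2 + z ^ 4 * r z with hS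
  have hrc : ContinuousAt r 0 := hr.continuousAt
  have hrc2 : ContinuousAt (fun z => r (pw * z)) 0 := by
    have h4 : ContinuousAt (fun z : ℂ => pw * z) 0 := by fun_prop
    have h5 : ContinuousAt r ((fun z : ℂ => pw * z) 0) := by
      change ContinuousAt r (pw * 0)
      rw [mul_zero]
      exact hrc
    exact ContinuousAt.comp (f := fun z : ℂ => pw * z) h5 h4
  have hRc : ContinuousAt R 0 := (continuousAt_const.mul hrc2).sub hrc
  have hSc : ContinuousAt S 0 := by
    rw [hS]
    fun_prop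
  have hev : ∀ᶠ z in 𝓝[≠] (0 : ℂ), kap =
      (A + z ^ 2 * B + z ^ 4 * R z) * (1 - et * z ^ 2 + z ^ 4 * S z) := by
    filter_upwards [ev_inO 0, ev_add (1 / pw) 0, self_mem_nhdsWithin] with z hz hz1 hz2
    have hz0 : z ≠ 0 := hz2
    have e1 := (h2 z hz hz1).1
    have e2 := (h3 (1 / pw) notO_t (by rw [two_div_pw]; exact inO_qw_self) z hz hz1).1
    have e3 := (hexp z hz0).1
    have e4 := (hexp (pw * z) (mul_ne_zero pw_ne hz0)).1
    have e5 : kap = (pw ^ 2 * wp (pw * z) - wp z) * (wp z - et) := by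
      rw [e1]
      unfold kap et
      linear_combination -e2
    have hp := pw_ne
    rw [e5, e4, e3, hR, hS, hA, hB]
    field_simp
    ring
  have c1 : ContinuousAt (fun z : ℂ =>
      (A + z ^ 2 * B + z ^ 4 * R z) * (1 - et * z ^ 2 + z ^ 4 * S z)) 0 := by
    fun_prop
  have k1 : kap = A := by
    have t1 := c1.tendsto.mono_left (nhdsWithin_le_nhds (s := {0}ᶜ))
    have t2 : Tendsto (fun z : ℂ =>
        (A + z ^ 2 * B + z ^ 4 * R z) * (1 - et * z ^ 2 + z ^ 4 * S z)) (𝓝[≠] 0) (𝓝 kap) :=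
      tendsto_const_nhds.congr' hev
    have t3 := tendsto_nhds_unique t2 t1
    rw [t3]
    ring
  have c2 : ContinuousAt (fun z : ℂ => (B - A * et) + z ^ 2 * (R z - B * et + A * S z) +
      z ^ 4 * (B * S z - et * R z) + z ^ 6 * (R z * S z)) 0 := by
    fun_prop
  have k2 : B - A * et = 0 := by
    have t1 := c2.tendsto.mono_left (nhdsWithin_le_nhds (s := {0}ᶜ))
    have t2 : Tendsto (fun z : ℂ => (B - A * et) + z ^ 2 * (R z - B * et + A * S z) +
        z ^ 4 * (B * S z - et * R z) + z ^ 6 * (R z * S z)) (𝓝[≠] 0) (𝓝 0) := by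
      refine (tendsto_const_nhds (x := (0 : ℂ))).congr' ?_
      filter_upwards [hev, self_mem_nhdsWithin] with z hz hz2
      have hz0 : z ≠ 0 := hz2
      have h6 : z ^ 2 * ((B - A * et) + z ^ 2 * (R z - B * et + A * S z) +
          z ^ 4 * (B * S z - et * R z) + z ^ 6 * (R z * S z)) = 0 := by
        rw [k1] at hz
        linear_combination -hz
      rcases mul_eq_zero.1 h6 with h7 | h7
      · exact absurd (pow_eq_zero_iff two_ne_zero |>.1 h7) hz0
      · exact h7.symm
    have t3 := tendsto_nhds_unique t2 t1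
    linear_combination -t3
  exact ⟨k1, by rw [k1]; linear_combination k2⟩

end DI
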