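import Pool.Agent.Lib.DI.B.Spec

/-!
# Theorem DI, Part B: Liouville for elliptic functions
-/

set_option autoImplicit false

namespace DI

open Complex Filter Topology

private lemma Lio_shift (w z : ℂ) : Tendsto (fun u : ℂ => u + w) (𝓝[≠] z) (𝓝[≠] (z + w)) := by
  refine tendsto_nhdsWithin_of_tendsto_nhds_of_eventually_within _ ?_ ?_
  · exact ((by fun_prop : Continuous fun u : ℂ => u + w).tendsto z).mono_left
      nhdsWithin_le_nhds
  · rw [eventually_nhdsWithin_iff]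
    exact Eventually.of_forall fun u hu h1 => hu (add_right_cancel h1)

private lemma Lio_cover (z : ℂ) : ∃ (v : O) (x y : ℝ), x ∈ Set.Icc (0 : ℝ) 1 ∧
    y ∈ Set.Icc (0 : ℝ) 1 ∧ z = (x : ℂ) + (y : ℂ) * pw + em v := by
  have hp : pw.im ≠ 0 := pw_im_pos.ne'
  refine ⟨⟨⌊z.re - z.im / pw.im * pw.re⌋, ⌊z.im / pw.im⌋⟩,
    Int.fract (z.re - z.im / pw.im * pw.re), Int.fract (z.im / pw.im),
    ⟨Int.fract_nonneg _, (Int.fract_lt_one _).le⟩,
    ⟨Int.fract_nonneg _, (Int.fract_lt_one _).le⟩, ?_⟩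
  rw [em_mk]
  have h1 : (Int.fract (z.re - z.im / pw.im * pw.re) : ℝ) =
      (z.re - z.im / pw.im * pw.re) - ⌊z.re - z.im / pw.im * pw.re⌋ := rfl
  have h2 : (Int.fract (z.im / pw.im) : ℝ) = z.im / pw.im - ⌊z.im / pw.im⌋ := rfl
  rw [h1, h2]
  push_cast
  have h3 : (z.im : ℂ) / (pw.im : ℂ) * (pw.im : ℂ) = z.im :=
    div_mul_cancel₀ _ (by exact_mod_cast hp)
  have h4 : z = (z.re : ℂ) + (z.im : ℂ) * I := (Complex.re_add_im z).symm
  have h5 : pw = (pw.re : ℂ) + (pw.im : ℂ) * I := (Complex.re_add_im pw).symm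
  calc z = (z.re : ℂ) + (z.im : ℂ) * I := h4
    _ = (z.re : ℂ) - (z.im : ℂ) / (pw.im : ℂ) * (pw.re : ℂ) +
        (z.im : ℂ) / (pw.im : ℂ) * ((pw.re : ℂ) + (pw.im : ℂ) * I) := by
        linear_combination (-I) * h3
    _ = (z.re : ℂ) - (z.im : ℂ) / (pw.im : ℂ) * (pw.re : ℂ) +
        (z.im : ℂ) / (pw.im : ℂ) * pw := by rw [← h5]
    _ = _ := by ring

theorem tLio : S_Lio := by
  intro f hd hl hp
  -- limits exist at every point
  have h1 : ∀ z, ∃ c : ℂ, Tendsto f (𝓝[≠] z) (𝓝 c) := by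
    intro z
    obtain ⟨v, c, hc⟩ := hl z
    refine ⟨c, ?_⟩
    have h2 := hc.comp (Lio_shift (em v) z)
    exact h2.congr' (hp v z)
  choose g hg using h1
  -- `g = f` off a discrete set
  have h2 : ∀ z, ∀ᶠ u in 𝓝[≠] z, g u = f u := by
    intro z
    filter_upwards [hd z] with u hu
    have h3 : Tendsto f (𝓝[≠] u) (𝓝 (f u)) :=
      hu.continuousAt.tendsto.mono_left nhdsWithin_le_nhds
    exact tendsto_nhds_unique (hg u) h3
  have h3 : ∀ z, ∀ᶠ u in 𝓝[≠] z, DifferentiableAt ℂ g u := by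
    intro z
    have h5 := eventually_eventually_nhdsWithin.2 (h2 z)
    filter_upwards [h5, hd z, self_mem_nhdsWithin] with u hu hdu hne
    have h6 : 𝓝[{z}ᶜ] u = 𝓝 u := IsOpen.nhdsWithin_eq isOpen_compl_singleton hne
    rw [h6] at hu
    have h7 : g =ᶠ[𝓝 u] f := hu
    exact hdu.congr_of_eventuallyEq h7
  have h4 : ∀ z, ContinuousAt g z := by
    intro z
    rw [continuousAt_iff_punctured_nhds]
    exact (hg z).congr' ((h2 z).mono fun u hu => hu.symm)
  have h5 : Differentiable ℂ g := fun z =>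
    (Complex.analyticAt_of_differentiable_on_punctured_nhds_of_continuousAt (h3 z)
      (h4 z)).differentiableAt
  have h6 : ∀ (v : O) (z : ℂ), g (z + em v) = g z := by
    intro v z
    have h7 := (hg (z + em v)).comp (Lio_shift (em v) z)
    exact tendsto_nhds_unique (h7.congr' (hp v z)) (hg z)
  -- boundedness
  have h7 : Bornology.IsBounded (Set.range g) := by
    have hK : IsCompact ((fun q : ℝ × ℝ => (q.1 : ℂ) + (q.2 : ℂ) * pw) ''
        (Set.Icc (0 : ℝ) 1 ×ˢ Set.Icc (0 : ℝ) 1)) :=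
      (isCompact_Icc.prod isCompact_Icc).image (by fun_prop)
    have hK2 := (hK.image h5.continuous).isBounded
    refine hK2.subset ?_
    rintro _ ⟨z, rfl⟩
    obtain ⟨v, x, y, hx, hy, hz⟩ := Lio_cover z
    refine ⟨(x : ℂ) + (y : ℂ) * pw, ⟨(x, y), ⟨hx, hy⟩, rfl⟩, ?_⟩
    conv_rhs => rw [hz, h6]
  refine ⟨g 0, fun z => ?_⟩
  rw [← h5.apply_eq_apply_of_bounded h7 z 0]
  exact hg z

end DI
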