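import Pool.Agent.Lib.DI.B.Spec

/-! # Theorem DI, Part B, module MulA: multiplication by `π` -/

set_option autoImplicit false

namespace DI

open Complex Filter Topology

private noncomputable def MulA_f (u : ℂ) : ℂ :=
  pw ^ 2 * wp (pw * u) - wp u - wp (u + 1 / pw)

private theorem MulA_notO {u : ℂ} (h : ¬ inO u) (h1 : ¬ inO (u + 1 / pw)) : ¬ inO (pw * u) := by
  intro h2
  rcases inO_of_pw h2 with h3 | h3
  · exact h h3
  · exact h1 h3

private theorem MulA_diff (u : ℂ) (h : ¬ inO u) (h1 : ¬ inO (u + 1 / pw)) :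
    HasDerivAt MulA_f (pw ^ 2 * (wp' (pw * u) * pw) - wp' u - wp' (u + 1 / pw)) u := by
  have h2 : HasDerivAt (fun x => wp (x + 1 / pw)) (wp' (u + 1 / pw)) u :=
    (hasDerivAt_wp h1).comp_add_const u (1 / pw)
  have h3 : HasDerivAt wp (wp' u) u := hasDerivAt_wp h
  have h4 : HasDerivAt (fun x : ℂ => pw * x) pw u := by
    simpa using (hasDerivAt_id u).const_mul pw
  have h5 : HasDerivAt (fun x => wp (pw * x)) (wp' (pw * u) * pw) u :=
    (hasDerivAt_wp (MulA_notO h h1)).comp u h4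
  exact ((h5.const_mul (pw ^ 2)).sub h3).sub h2

private theorem MulA_shift (u : ℂ) : MulA_f (u + 1 / pw) = MulA_f u := by
  unfold MulA_f
  have h : wp (u + 1 / pw + 1 / pw) = wp u := by
    rw [add_assoc, two_div_pw]
    exact wp_add_inO u inO_qw_self
  have h2 : wp (pw * (u + 1 / pw)) = wp (pw * u) := by
    rw [mul_add, mul_one_div_cancel pw_ne]
    exact wp_add_inO _ inO_one
  rw [h, h2]
  ring

private theorem MulA_zero (h2 : S_Exp) :
    Tendsto MulA_f (𝓝[≠] 0) (𝓝 (-wp (1 / pw))) := by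
  obtain ⟨⟨r, r1, hr, -, hexp⟩, -, -⟩ := h2
  have hc : ContinuousAt (fun h : ℂ => pw ^ 2 * (ca * (pw * h) ^ 2 + cb * (pw * h) ^ 4 +
      (pw * h) ^ 6 * r (pw * h)) - (ca * h ^ 2 + cb * h ^ 4 + h ^ 6 * r h) - wp (h + 1 / pw)) 0 := by
    have hrc : ContinuousAt r 0 := hr.continuousAt
    have hrc2 : ContinuousAt (fun h : ℂ => r (pw * h)) 0 := by
      have h3 : ContinuousAt r (pw * 0) := by
        rw [mul_zero]
        exact hrc
      exact ContinuousAt.comp (f := fun h : ℂ => pw * h) h3 (by fun_prop)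
    have hw : ContinuousAt (fun h : ℂ => wp (h + 1 / pw)) 0 := by
      have h3 : ContinuousAt wp (0 + 1 / pw) := by
        rw [zero_add]
        exact (analyticAt_wp notO_t).continuousAt
      exact ContinuousAt.comp (f := fun h : ℂ => h + 1 / pw) h3 (by fun_prop)
    have e1 : ContinuousAt (fun h : ℂ => ca * (pw * h) ^ 2 + cb * (pw * h) ^ 4) 0 := by fun_prop
    have e2 : ContinuousAt (fun h : ℂ => ca * h ^ 2 + cb * h ^ 4) 0 := by fun_prop
    have e3 : ContinuousAt (fun h : ℂ => (pw * h) ^ 6) 0 := by fun_prop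
    have e4 : ContinuousAt (fun h : ℂ => h ^ 6) 0 := by fun_prop
    exact (((e1.add (e3.mul hrc2)).const_mul (pw ^ 2)).sub (e2.add (e4.mul hrc))).sub hw
  have h3 := hc.tendsto
  have h4 : pw ^ 2 * (ca * (pw * 0) ^ 2 + cb * (pw * 0) ^ 4 +
      (pw * 0) ^ 6 * r (pw * 0)) - (ca * 0 ^ 2 + cb * 0 ^ 4 + 0 ^ 6 * r 0) - wp (0 + 1 / pw) =
      -wp (1 / pw) := by
    rw [zero_add]
    ring
  rw [h4] at h3
  refine (h3.mono_left nhdsWithin_le_nhds).congr' ?_
  filter_upwards [self_mem_nhdsWithin] with h hh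
  have hh0 : h ≠ 0 := hh
  have h5 := hexp h hh0
  have h6 := hexp (pw * h) (mul_ne_zero pw_ne hh0)
  unfold MulA_f
  rw [h5.1, h6.1]
  have h7 : pw ^ 2 * ((pw * h) ^ 2)⁻¹ = (h ^ 2)⁻¹ := by
    have := pw_ne
    field_simp
  linear_combination -h7

theorem tMulA (h1 : S_Lio) (h2 : S_Exp) : S_MulA := by
  have hd : ∀ z, ∀ᶠ u in 𝓝[≠] z, DifferentiableAt ℂ MulA_f u := by
    intro z
    filter_upwards [ev_inO z, ev_add (1 / pw) z] with u hu hu1
    exact (MulA_diff u hu hu1).differentiableAt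
  have h0 := MulA_zero h2
  have hl : ∀ z, ∃ (v : O) (c : ℂ), Tendsto MulA_f (𝓝[≠] (z + em v)) (𝓝 c) := by
    intro z
    by_cases hz : inO z
    · obtain ⟨v, rfl⟩ := inO_iff.1 hz
      refine ⟨-v, -wp (1 / pw), ?_⟩
      rw [map_neg, add_neg_cancel]
      exact h0
    by_cases hzt : inO (z + 1 / pw)
    · obtain ⟨v, hv⟩ := inO_iff.1 hzt
      refine ⟨-v, -wp (1 / pw), ?_⟩
      have h3 : z + em (-v) = -(1 / pw) := by
        rw [map_neg, hv]
        ring
      rw [h3]
      have h4 : Tendsto (fun u : ℂ => u + 1 / pw) (𝓝[≠] (-(1 / pw))) (𝓝[≠] 0) := by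
        refine tendsto_nhdsWithin_of_tendsto_nhds_of_eventually_within _ ?_ ?_
        · have := (by fun_prop : Continuous fun u : ℂ => u + 1 / pw).tendsto (-(1 / pw))
          rw [neg_add_cancel] at this
          exact this.mono_left nhdsWithin_le_nhds
        · rw [eventually_nhdsWithin_iff]
          refine Eventually.of_forall fun u hu h5 => hu ?_
          exact eq_neg_of_add_eq_zero_left h5
      refine (h0.comp h4).congr fun u => ?_
      exact MulA_shift u
    · refine ⟨0, MulA_f z, ?_⟩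
      rw [map_zero, add_zero]
      exact (MulA_diff z hz hzt).continuousAt.tendsto.mono_left nhdsWithin_le_nhds
  have hp : ∀ (v : O) (z : ℂ), ∀ᶠ u in 𝓝[≠] z, MulA_f (u + em v) = MulA_f u := by
    intro v z
    refine Eventually.of_forall fun u => ?_
    unfold MulA_f
    have h3 : pw * (u + em v) = pw * u + em (QuadraticAlgebra.omega * v) := by
      rw [map_mul, em_omega]
      ring
    rw [add_right_comm, wp_add, wp_add, h3, wp_add]
  obtain ⟨c, hc⟩ := h1 MulA_f hd hl hp
  have hcK : c = -wp (1 / pw) := tendsto_nhds_unique (hc 0) h0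
  have key : ∀ z, ¬ inO z → ¬ inO (z + 1 / pw) → MulA_f z = -wp (1 / pw) := by
    intro z hz hzt
    rw [← hcK]
    exact tendsto_nhds_unique ((MulA_diff z hz hzt).continuousAt.tendsto.mono_left
      nhdsWithin_le_nhds) (hc z)
  intro z hz hzt
  have h9 := key z hz hzt
  have h10 : MulA_f z = pw ^ 2 * wp (pw * z) - wp z - wp (z + 1 / pw) := rfl
  refine ⟨by linear_combination h9 - h10, ?_⟩
  have h6 := MulA_diff z hz hzt
  have h7 : MulA_f =ᶠ[𝓝 z] fun _ => -wp (1 / pw) := by
    have h8 : ∀ᶠ u in 𝓝 z, ¬ inO (u + 1 / pw) :=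
      ((by fun_prop : Continuous fun u : ℂ => u + 1 / pw).tendsto z).eventually (ev_notO hzt)
    filter_upwards [ev_notO hz, h8] with u hu hu1
    exact key u hu hu1
  have h11 := h6.unique ((hasDerivAt_const z _).congr_of_eventuallyEq h7)
  linear_combination h11

end DI
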