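import Pool.Agent.Lib.DI.B.Spec

/-! # Theorem DI, Part B, module MulB: translation by a 2-torsion point -/

set_option autoImplicit false

namespace DI

open Complex Filter Topology

private noncomputable def MulB_f (t u : ℂ) : ℂ := (wp (u + t) - wp t) * (wp u - wp t)

private theorem MulB_diff (t u : ℂ) (h : ¬ inO u) (h1 : ¬ inO (u + t)) :
    HasDerivAt (MulB_f t) (wp' (u + t) * (wp u - wp t) + (wp (u + t) - wp t) * wp' u) u := by
  have h2 : HasDerivAt (fun x => wp (x + t) - wp t) (wp' (u + t)) u :=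
    ((hasDerivAt_wp h1).comp_add_const u t).sub_const _
  have h3 : HasDerivAt (fun x => wp x - wp t) (wp' u) u := (hasDerivAt_wp h).sub_const _
  exact h2.mul h3

private theorem MulB_shift (t : ℂ) (ht : inO (t + t)) (u : ℂ) : MulB_f t (u + t) = MulB_f t u := by
  unfold MulB_f
  have h : wp (u + t + t) = wp u := by
    rw [add_assoc]
    exact wp_add_inO u ht
  rw [h]
  ring

private theorem MulB_zero (h2 : S_Exp) (t : ℂ) (hnt : ¬ inO t) (ht : inO (t + t)) :
    Tendsto (MulB_f t) (𝓝[≠] 0) (𝓝 (3 * wp t ^ 2 - LO.g₂ / 4)) := by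
  obtain ⟨⟨r, r1, hr, -, hexp⟩, -, hthird⟩ := h2
  obtain ⟨s, s1, hs, -, hexp2⟩ := hthird t hnt
  set K : ℂ := 3 * wp t ^ 2 - LO.g₂ / 4 with hK
  have hc : ContinuousAt (fun h : ℂ => (K + h * s h) *
      (1 + ca * h ^ 4 + cb * h ^ 6 + h ^ 8 * r h - wp t * h ^ 2)) 0 := by
    have hsc : ContinuousAt s 0 := hs.continuousAt
    have hrc : ContinuousAt r 0 := hr.continuousAt
    fun_prop
  have h3 : Tendsto (fun h : ℂ => (K + h * s h) *
      (1 + ca * h ^ 4 + cb * h ^ 6 + h ^ 8 * r h - wp t * h ^ 2)) (𝓝[≠] 0) (𝓝 K) := by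
    have := hc.tendsto
    have h4 : (K + 0 * s 0) * (1 + ca * 0 ^ 4 + cb * 0 ^ 6 + 0 ^ 8 * r 0 - wp t * 0 ^ 2) = K := by
      ring
    rw [h4] at this
    exact this.mono_left nhdsWithin_le_nhds
  refine h3.congr' ?_
  filter_upwards [self_mem_nhdsWithin] with h hh
  have hh0 : h ≠ 0 := hh
  have h5 := (hexp h hh0).1
  have h6 := (hexp2 h).1
  rw [wp'_half ht, zero_mul, add_zero] at h6
  unfold MulB_f
  rw [add_comm h t, h6, h5]
  field_simp
  ring

theorem tMulB (h1 : S_Lio) (h2 : S_Exp) : S_MulB := by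
  intro t hnt ht
  have hd : ∀ z, ∀ᶠ u in 𝓝[≠] z, DifferentiableAt ℂ (MulB_f t) u := by
    intro z
    filter_upwards [ev_inO z, ev_add t z] with u hu hu1
    exact (MulB_diff t u hu hu1).differentiableAt
  have h0 := MulB_zero h2 t hnt ht
  have hl : ∀ z, ∃ (v : O) (c : ℂ), Tendsto (MulB_f t) (𝓝[≠] (z + em v)) (𝓝 c) := by
    intro z
    by_cases hz : inO z
    · obtain ⟨v, rfl⟩ := inO_iff.1 hz
      refine ⟨-v, 3 * wp t ^ 2 - LO.g₂ / 4, ?_⟩
      rw [map_neg, add_neg_cancel]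
      exact h0
    by_cases hzt : inO (z + t)
    · obtain ⟨v, hv⟩ := inO_iff.1 hzt
      refine ⟨-v, 3 * wp t ^ 2 - LO.g₂ / 4, ?_⟩
      have h3 : z + em (-v) = -t := by
        rw [map_neg, hv]
        ring
      rw [h3]
      have h4 : Tendsto (fun u : ℂ => u + t) (𝓝[≠] (-t)) (𝓝[≠] 0) := by
        refine tendsto_nhdsWithin_of_tendsto_nhds_of_eventually_within _ ?_ ?_
        · have := (by fun_prop : Continuous fun u : ℂ => u + t).tendsto (-t)
          rw [neg_add_cancel] at this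
          exact this.mono_left nhdsWithin_le_nhds
        · rw [eventually_nhdsWithin_iff]
          refine Eventually.of_forall fun u hu h5 => hu ?_
          exact eq_neg_of_add_eq_zero_left h5
      refine (h0.comp h4).congr fun u => ?_
      exact MulB_shift t ht u
    · refine ⟨0, MulB_f t z, ?_⟩
      rw [map_zero, add_zero]
      exact (MulB_diff t z hz hzt).continuousAt.tendsto.mono_left nhdsWithin_le_nhds
  have hp : ∀ (v : O) (z : ℂ), ∀ᶠ u in 𝓝[≠] z, MulB_f t (u + em v) = MulB_f t u := by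
    intro v z
    refine Eventually.of_forall fun u => ?_
    unfold MulB_f
    rw [add_right_comm, wp_add, wp_add]
  obtain ⟨c, hc⟩ := h1 (MulB_f t) hd hl hp
  have hcK : c = 3 * wp t ^ 2 - LO.g₂ / 4 := tendsto_nhds_unique (hc 0) h0
  have key : ∀ z, ¬ inO z → ¬ inO (z + t) → MulB_f t z = 3 * wp t ^ 2 - LO.g₂ / 4 := by
    intro z hz hzt
    rw [← hcK]
    exact tendsto_nhds_unique ((MulB_diff t z hz hzt).continuousAt.tendsto.mono_left
      nhdsWithin_le_nhds) (hc z)
  intro z hz hzt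
  refine ⟨key z hz hzt, ?_⟩
  have h6 := MulB_diff t z hz hzt
  have h7 : MulB_f t =ᶠ[𝓝 z] fun _ => 3 * wp t ^ 2 - LO.g₂ / 4 := by
    have h8 : ∀ᶠ u in 𝓝 z, ¬ inO (u + t) :=
      ((by fun_prop : Continuous fun u : ℂ => u + t).tendsto z).eventually (ev_notO hzt)
    filter_upwards [ev_notO hz, h8] with u hu hu1
    exact key u hu hu1
  exact h6.unique ((hasDerivAt_const z _).congr_of_eventuallyEq h7)

end DI
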