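import Pool.Agent.Lib.DI.B.Spec

set_option autoImplicit false

/-!
# Theorem DI, Part B, module `Om`: the period
-/

namespace DI

open Complex Filter Topology

theorem tOm (h1 : S_Con) (h2 : S_Cj) : S_Om := by
  obtain ⟨hg2, hg3, hrel, het⟩ := h1
  obtain ⟨-, -, -, hc2, hc3⟩ := h2
  have hsq : Om ^ 2 = (10 / 7) * LO.g₃ / LO.g₂ := Om_sq
  have hsq0 : Om ^ 2 ≠ 0 := by
    rw [hsq]
    exact div_ne_zero (mul_ne_zero (by norm_num) hg3) hg2
  have hOm : Om ≠ 0 := fun h => hsq0 (by rw [h]; simp)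
  refine ⟨hOm, ?_, ?_, ?_, ?_⟩
  · have e : Om ^ 4 = (Om ^ 2) ^ 2 := by ring
    have e4 : ((10 / 7) * LO.g₃ / LO.g₂) ^ 2 ≠ 0 := by
      rw [← hsq]
      exact pow_ne_zero 2 hsq0
    rw [e, hsq, div_eq_iff e4]
    field_simp
    linear_combination (-28 : ℂ) * hrel
  · have e : Om ^ 6 = (Om ^ 2) ^ 3 := by ring
    have e6 : ((10 / 7) * LO.g₃ / LO.g₂) ^ 3 ≠ 0 := by
      rw [← hsq]
      exact pow_ne_zero 3 hsq0
    rw [e, hsq, div_eq_iff e6]
    field_simp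
    linear_combination (-392 : ℂ) * hrel
  · rw [hsq, het]
    field_simp
    ring
  · have hcj : (starRingEnd ℂ) Om ^ 2 = Om ^ 2 := by
      rw [← map_pow, hsq, map_div₀, map_mul, hc2, hc3]
      congr 2
      rw [map_div₀]
      simp only [map_ofNat]
    rcases sq_eq_sq_iff_eq_or_eq_neg.1 hcj with h | h
    · exact ⟨1, Or.inl rfl, by rw [h]; simp⟩
    · exact ⟨-1, Or.inr rfl, by rw [h]; simp⟩

end DI
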