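import Pool.Agent.Lib.DI.B.Spec

/-! # Theorem DI, Part B: the order of `X (c u + a) - X b` (module `Ord`) -/

set_option autoImplicit false

namespace DI

open Complex Filter Topology

private theorem Ord_one {P : Prop} (h : P) : ind P = 1 := by
  unfold ind
  exact if_pos h

private theorem Ord_zero {P : Prop} (h : ¬ P) : ind P = 0 := by
  unfold ind
  exact if_neg h

private theorem Ord_merwp (z : ℂ) : MeromorphicAt wp z := LO.meromorphic_weierstrassP z

private theorem Ord_mer (b z : ℂ) : MeromorphicAt (fun u => X u - X b) z := by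
  have h := Ord_merwp z
  unfold X
  fun_prop

private theorem Ord_lat (h0 : Om ≠ 0) (b z : ℂ) (hz : inO z) :
    meromorphicOrderAt (fun u => X u - X b) z = ((-2 : ℤ) : WithTop ℤ) := by
  have e : (fun u => X u - X b) = ((fun _ : ℂ => (Om ^ 2)⁻¹) * wp) + fun _ : ℂ => 1 / 4 - X b := by
    funext u
    change X u - X b = (Om ^ 2)⁻¹ * wp u + (1 / 4 - X b)
    unfold X
    ring
  have h1 : meromorphicOrderAt ((fun _ : ℂ => (Om ^ 2)⁻¹) * wp) z = ((-2 : ℤ) : WithTop ℤ) := by
    rw [meromorphicOrderAt_mul_of_ne_zero analyticAt_const (inv_ne_zero (pow_ne_zero 2 h0))]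
    exact LO.order_weierstrassP z hz
  rw [e, meromorphicOrderAt_add_eq_left_of_lt analyticAt_const.meromorphicAt, h1]
  rw [h1]
  refine lt_of_lt_of_le ?_ (AnalyticAt.meromorphicOrderAt_nonneg analyticAt_const)
  exact WithTop.coe_lt_coe.2 (by norm_num)

private theorem Ord_ne (b z : ℂ) (hz : ¬ inO z) (h : X z ≠ X b) :
    meromorphicOrderAt (fun u => X u - X b) z = ((0 : ℤ) : WithTop ℤ) := by
  rw [meromorphicOrderAt_eq_int_iff (Ord_mer b z)]
  refine ⟨fun u => X u - X b, ?_, sub_ne_zero.2 h, Eventually.of_forall fun u => ?_⟩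
  · have h1 := analyticAt_wp hz
    unfold X
    fun_prop
  · rw [zpow_zero, one_smul]

private theorem Ord_ana (r : ℂ → ℂ) (hr : AnalyticAt ℂ r 0) (z : ℂ) :
    AnalyticAt ℂ (fun u => r (u - z)) z := by
  have h1 : AnalyticAt ℂ (fun u : ℂ => u - z) z := by fun_prop
  have h2 : AnalyticAt ℂ r ((fun u : ℂ => u - z) z) := by
    change AnalyticAt ℂ r (z - z)
    rwa [sub_self]
  exact AnalyticAt.fun_comp (g := r) (f := fun u : ℂ => u - z) h2 h1

private theorem Ord_simple (h0 : Om ≠ 0) (hE : S_Exp) (b z : ℂ) (hz : ¬ inO z) (h : X z = X b)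
    (hw : wp' z ≠ 0) : meromorphicOrderAt (fun u => X u - X b) z = ((1 : ℤ) : WithTop ℤ) := by
  obtain ⟨r, r1, hr, -, hh⟩ := hE.2.2 z hz
  rw [meromorphicOrderAt_eq_int_iff (Ord_mer b z)]
  refine ⟨fun u => (wp' z + (3 * wp z ^ 2 - LO.g₂ / 4) * (u - z) + (u - z) ^ 2 * r (u - z)) / Om ^ 2,
    ?_, ?_, Eventually.of_forall fun u => ?_⟩
  · have h1 := Ord_ana r hr z
    have h3 : AnalyticAt ℂ (fun u : ℂ => u - z) z := by fun_prop
    exact ((analyticAt_const.add (analyticAt_const.mul h3)).add ((h3.pow 2).mul h1)).div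
      analyticAt_const (pow_ne_zero 2 h0)
  · change (wp' z + (3 * wp z ^ 2 - LO.g₂ / 4) * (z - z) + (z - z) ^ 2 * r (z - z)) / Om ^ 2 ≠ 0
    refine div_ne_zero ?_ (pow_ne_zero 2 h0)
    have e : wp' z + (3 * wp z ^ 2 - LO.g₂ / 4) * (z - z) + (z - z) ^ 2 * r (z - z) = wp' z := by
      ring
    rwa [e]
  · rw [zpow_one, smul_eq_mul, ← h]
    have h3 := (hh (u - z)).1
    rw [add_sub_cancel] at h3
    unfold X
    rw [h3]
    field_simp
    ring

private theorem Ord_double (h0 : Om ≠ 0) (hE : S_Exp) (b z : ℂ) (hz : ¬ inO z) (h : X z = X b)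
    (hw : wp' z = 0) (hn : 6 * wp z ^ 2 - LO.g₂ / 2 ≠ 0) :
    meromorphicOrderAt (fun u => X u - X b) z = ((2 : ℤ) : WithTop ℤ) := by
  obtain ⟨r, r1, hr, -, hh⟩ := hE.2.2 z hz
  rw [meromorphicOrderAt_eq_int_iff (Ord_mer b z)]
  refine ⟨fun u => ((3 * wp z ^ 2 - LO.g₂ / 4) + (u - z) * r (u - z)) / Om ^ 2,
    ?_, ?_, Eventually.of_forall fun u => ?_⟩
  · have h1 := Ord_ana r hr z
    have h3 : AnalyticAt ℂ (fun u : ℂ => u - z) z := by fun_prop
    exact (analyticAt_const.add (h3.mul h1)).div analyticAt_const (pow_ne_zero 2 h0)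
  · change ((3 * wp z ^ 2 - LO.g₂ / 4) + (z - z) * r (z - z)) / Om ^ 2 ≠ 0
    refine div_ne_zero ?_ (pow_ne_zero 2 h0)
    have e : (3 * wp z ^ 2 - LO.g₂ / 4) + (z - z) * r (z - z)
        = (6 * wp z ^ 2 - LO.g₂ / 2) / 2 := by
      ring
    rw [e]
    exact div_ne_zero hn two_ne_zero
  · have hz2 : (u - z) ^ (2 : ℤ) = (u - z) ^ 2 := by norm_cast
    rw [hz2, smul_eq_mul, ← h]
    have h3 := (hh (u - z)).1
    rw [add_sub_cancel, hw] at h3
    unfold X
    rw [h3]
    field_simp
    ring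

private theorem Ord_base (h1 : S_Exp) (h2 : S_XB) (h3 : S_Om) (h4 : S_Inj) (b : ℂ) (hb : ¬ inO b)
    (z : ℂ) : meromorphicOrderAt (fun u => X u - X b) z =
      ((ind (inO (z - b)) + ind (inO (z + b)) - 2 * ind (inO z) : ℤ) : WithTop ℤ) := by
  have h0 : Om ≠ 0 := h3.1
  by_cases hz : inO z
  · have a1 : ¬ inO (z - b) := by
      intro h
      have := inO_sub hz h
      rw [sub_sub_cancel] at this
      exact hb this
    have a2 : ¬ inO (z + b) := by
      intro h
      have := inO_sub h hz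
      rw [add_sub_cancel_left] at this
      exact hb this
    rw [Ord_lat h0 b z hz, Ord_zero a1, Ord_zero a2, Ord_one hz]
    norm_num
  · have hiff := h2.2.2.2.2.1 z b hz hb
    have hW := h2.2.2.2.2.2.2.1 z hz
    by_cases hX : X z = X b
    · by_cases hw : wp' z = 0
      · have hzz : inO (z + z) := ((h4.2.1 z hz).1 hw)
        have a12 : inO (z - b) ∧ inO (z + b) := by
          rcases hiff.1 hX with h | h
          · refine ⟨h, ?_⟩
            have := inO_sub hzz h
            have e : z + z - (z - b) = z + b := by ring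
            rwa [e] at this
          · refine ⟨?_, h⟩
            have := inO_sub hzz h
            have e : z + z - (z + b) = z - b := by ring
            rwa [e] at this
        rw [Ord_double h0 h1 b z hz hX hw (h4.2.2 z hz hw), Ord_one a12.1, Ord_one a12.2,
          Ord_zero hz]
        norm_num
      · have hzz : ¬ inO (z + z) := fun h => hw ((h4.2.1 z hz).2 h)
        have hboth : ¬ (inO (z - b) ∧ inO (z + b)) := by
          rintro ⟨h5, h6⟩
          have := inO_add h5 h6
          have e : z - b + (z + b) = z + z := by ring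
          rw [e] at this
          exact hzz this
        rcases hiff.1 hX with h | h
        · rw [Ord_simple h0 h1 b z hz hX hw, Ord_one h, Ord_zero (fun h7 => hboth ⟨h, h7⟩),
            Ord_zero hz]
          norm_num
        · rw [Ord_simple h0 h1 b z hz hX hw, Ord_one h, Ord_zero (fun h7 => hboth ⟨h7, h⟩),
            Ord_zero hz]
          norm_num
    · have a1 : ¬ inO (z - b) := fun h => hX (hiff.2 (Or.inl h))
      have a2 : ¬ inO (z + b) := fun h => hX (hiff.2 (Or.inr h))
      rw [Ord_ne b z hz hX, Ord_zero a1, Ord_zero a2, Ord_zero hz]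
      norm_num

theorem tOrd (h1 : S_Exp) (h2 : S_XB) (h3 : S_Om) (h4 : S_Inj) : S_Ord := by
  intro c a b hc hb z
  have hg : AnalyticAt ℂ (fun u : ℂ => c * u + a) z := by fun_prop
  have hg' : deriv (fun u : ℂ => c * u + a) z ≠ 0 := by
    have : HasDerivAt (fun u : ℂ => c * u + a) c z := by
      simpa using ((hasDerivAt_id z).const_mul c).add_const a
    rw [this.deriv]
    exact hc
  have e : (fun u => X (c * u + a) - X b) = (fun u => X u - X b) ∘ fun u : ℂ => c * u + a := rfl
  constructor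
  · rw [e]
    exact MeromorphicAt.comp_analyticAt (f := fun u => X u - X b) (g := fun u : ℂ => c * u + a)
      (Ord_mer b (c * z + a)) hg
  · rw [e, meromorphicOrderAt_comp_of_deriv_ne_zero hg hg', Ord_base h1 h2 h3 h4 b hb]

end DI
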