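import Pool.Agent.Lib.DI.B.Spec

/-! # Theorem DI, Part B, module PrA: the product formula (helper92) -/

set_option autoImplicit false

namespace DI

open Complex Filter Topology

private theorem PrA_ind_pos {P : Prop} (h : P) : ind P = 1 := by
  unfold ind
  exact if_pos h

private theorem PrA_ind_neg {P : Prop} (h : ¬ P) : ind P = 0 := by
  unfold ind
  exact if_neg h

private theorem PrA_ind_congr {P Q : Prop} (h : P ↔ Q) : ind P = ind Q := by
  rw [propext h]

private theorem PrA_par : ∀ a b x y : ZMod 2, a * x = 1 → a * y + b * x + b * y = 0 →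
    x = 1 ∧ y = 0 := by decide

private theorem PrA_odd {α : O} (h : IsCoprime α 2) : ∃ β : O, α - 1 = β + β := by
  obtain ⟨a, b, hab⟩ := h
  have h1 := congrArg QuadraticAlgebra.re hab
  have h2 := congrArg QuadraticAlgebra.im hab
  rw [show b * 2 = b + b by ring, QuadraticAlgebra.re_add, QuadraticAlgebra.re_add,
    QuadraticAlgebra.re_mul, QuadraticAlgebra.re_one] at h1
  rw [show b * 2 = b + b by ring, QuadraticAlgebra.im_add, QuadraticAlgebra.im_add,
    QuadraticAlgebra.im_mul, QuadraticAlgebra.im_one] at h2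
  have h3 := congrArg (Int.cast : ℤ → ZMod 2) h1
  have h4 := congrArg (Int.cast : ℤ → ZMod 2) h2
  push_cast at h3 h4
  have hz : (2 : ZMod 2) = 0 := rfl
  have h5 : (a.re : ZMod 2) * α.re = 1 := by
    linear_combination h3 + (a.im * α.im - b.re) * hz
  have h6 : (a.re : ZMod 2) * α.im + a.im * α.re + a.im * α.im = 0 := by
    linear_combination h4 - b.im * hz
  obtain ⟨h7, h8⟩ := PrA_par _ _ _ _ h5 h6
  have h9 : ((α.re - 1 : ℤ) : ZMod 2) = 0 := by
    push_cast
    rw [h7, sub_self]
  rw [ZMod.intCast_zmod_eq_zero_iff_dvd] at h9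
  rw [ZMod.intCast_zmod_eq_zero_iff_dvd] at h8
  obtain ⟨k, hk⟩ := h9
  obtain ⟨l, hl⟩ := h8
  refine ⟨⟨k, l⟩, QuadraticAlgebra.ext ?_ ?_⟩
  · rw [QuadraticAlgebra.re_sub, QuadraticAlgebra.re_one, QuadraticAlgebra.re_add]
    push_cast at hk
    linarith
  · rw [QuadraticAlgebra.im_sub, QuadraticAlgebra.im_one, QuadraticAlgebra.im_add]
    push_cast at hl
    linarith

private theorem PrA_ne {α : O} (h : IsCoprime α 2) : α ≠ 0 := by
  rintro rfl
  obtain ⟨β, hβ⟩ := PrA_odd h
  have h1 := congrArg QuadraticAlgebra.re hβ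
  rw [QuadraticAlgebra.re_sub, QuadraticAlgebra.re_one, QuadraticAlgebra.re_add,
    QuadraticAlgebra.re_zero] at h1
  omega

private theorem PrA_sum {α : O} {R : Finset ℂ} (hR : IsReps α R) (y : ℂ) :
    ∑ u ∈ R, ind (inO (y + u)) = ind (inO (em α * y)) := by
  by_cases h : inO (em α * y)
  · rw [PrA_ind_pos h]
    have h1 : inO (em α * (-y)) := by
      rw [mul_neg]
      exact inO_neg h
    obtain ⟨u, hu, h2⟩ := hR.ex (-y) h1
    have h3 : inO (y + u) := by
      have := inO_neg h2
      rwa [neg_sub, sub_neg_eq_add, add_comm] at this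
    rw [Finset.sum_eq_single u, PrA_ind_pos h3]
    · intro v hv hne
      refine PrA_ind_neg fun h4 => hne (hR.uni v hv u hu ?_)
      have := inO_sub h4 h3
      rwa [add_sub_add_left_eq_sub] at this
    · exact fun h4 => absurd hu h4
  · rw [PrA_ind_neg h]
    refine Finset.sum_eq_zero fun u hu => PrA_ind_neg fun h1 => h ?_
    have := inO_sub (inO_mul α h1) (hR.mem u hu)
    rwa [mul_add, add_sub_cancel_right] at this

private theorem PrA_cont {z : ℂ} (h : ¬ inO z) : ContinuousAt X z := by
  unfold X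
  exact ((analyticAt_wp h).continuousAt.div_const _).add_const _

theorem tPrA (h1 : S_XB) (h2 : S_Ord) (h3 : S_Quo) : S_PrA := by
  intro α R hα hR T hT hT'
  have hα0 : em α ≠ 0 := em_ne_zero (PrA_ne hα)
  obtain ⟨β, hβ⟩ := PrA_odd hα
  have hsum := PrA_sum hR
  have hsym : ∀ y, (inO (y + T) ↔ inO (y - T)) := by
    intro y
    have h4 : y + T = y - T + 2 * T := by ring
    rw [h4]
    exact inO_add_iff hT
  have hαT : ∀ y, (inO (em α * y - T) ↔ inO (em α * (y - T))) := by
    intro y
    have h5 : em α - 1 = em β + em β := by rw [← map_one em, ← map_sub, hβ, map_add]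
    have h4 : em α * y - T = em α * (y - T) + em β * (2 * T) := by
      linear_combination T * h5
    rw [h4]
    exact inO_add_iff (inO_mul β hT)
  have hF : ∀ z : ℂ, ∀ u ∈ R, MeromorphicAt (fun w => X (w + u) - X T) z ∧
      meromorphicOrderAt (fun w => X (w + u) - X T) z =
        ((2 * ind (inO (z - T + u)) - 2 * ind (inO (z + u)) : ℤ) : WithTop ℤ) := by
    intro z u _
    have h4 := h2 1 u T one_ne_zero hT' z
    simp only [one_mul] at h4
    refine ⟨h4.1, h4.2.trans ?_⟩
    congr 1
    rw [PrA_ind_congr (hsym (z + u)), show z + u - T = z - T + u by ring]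
    ring
  have hG : ∀ z : ℂ, MeromorphicAt (fun w => X (em α * w) - X T) z ∧
      meromorphicOrderAt (fun w => X (em α * w) - X T) z =
        ((2 * ind (inO (em α * (z - T))) - 2 * ind (inO (em α * z)) : ℤ) : WithTop ℤ) := by
    intro z
    have h4 := h2 (em α) 0 T hα0 hT' z
    simp only [add_zero] at h4
    refine ⟨h4.1, h4.2.trans ?_⟩
    congr 1
    rw [PrA_ind_congr (hsym (em α * z)), PrA_ind_congr (hαT z)]
    ring
  have hFm : ∀ z : ℂ, MeromorphicAt (fun w => ∏ u ∈ R, (X (w + u) - X T)) z := fun z =>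
    MeromorphicAt.fun_prod fun u hu => (hF z u hu).1
  have hFo : ∀ z : ℂ, meromorphicOrderAt (fun w => ∏ u ∈ R, (X (w + u) - X T)) z =
      ((2 * ind (inO (em α * (z - T))) - 2 * ind (inO (em α * z)) : ℤ) : WithTop ℤ) := by
    intro z
    rw [meromorphicOrderAt_fun_prod fun u hu => (hF z u hu).1,
      Finset.sum_congr rfl fun u hu => (hF z u hu).2, ← WithTop.coe_sum, Finset.sum_sub_distrib,
      ← Finset.mul_sum, ← Finset.mul_sum, hsum, hsum]
  obtain ⟨c, hc, hFG⟩ := h3 _ _ hFm (fun z => (hG z).1)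
    (fun z => ⟨(hFo z).trans (hG z).2.symm, by rw [hFo z]; exact WithTop.coe_ne_top⟩) (by
      intro v z
      refine ⟨Finset.prod_congr rfl fun u _ => ?_, ?_⟩
      · rw [add_right_comm, (h1.1 (z + u) v).1]
      · rw [mul_add, ← map_mul, (h1.1 (em α * z) (α * v)).1])
  refine ⟨c, hc, fun z hz => ?_⟩
  have hzu : ∀ u ∈ R, ¬ inO (z + u) := by
    intro u hu h4
    refine hz ?_
    have := inO_sub (inO_mul α h4) (hR.mem u hu)
    rwa [mul_add, add_sub_cancel_right] at this
  have c1 : ContinuousAt (fun w => ∏ u ∈ R, (X (w + u) - X T)) z := by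
    refine tendsto_finsetProd _ fun u hu => ?_
    refine Tendsto.sub_const ?_ _
    exact (ContinuousAt.comp (f := fun w => w + u) (PrA_cont (hzu u hu))
      (continuous_add_const u).continuousAt)
  have c2 : ContinuousAt (fun w => c * (X (em α * w) - X T)) z := by
    refine Tendsto.const_mul _ (Tendsto.sub_const ?_ _)
    exact (ContinuousAt.comp (f := fun w => em α * w) (PrA_cont hz)
      (continuous_const_mul (em α)).continuousAt)
  exact tendsto_nhds_unique_of_eventuallyEq (c1.tendsto.mono_left nhdsWithin_le_nhds)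
    (c2.tendsto.mono_left nhdsWithin_le_nhds) (hFG z)

end DI
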