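import Pool.Agent.Lib.DI.B.Spec

/-! # Theorem DI, Part B, module PrB (helper86): the constant of the product formula -/

set_option autoImplicit false

namespace DI

open Complex Filter Topology

private theorem PrB_lim (h1 : S_Exp) :
    Tendsto (fun h : ℂ => h ^ 2 * X h) (𝓝[≠] 0) (𝓝 (1 / Om ^ 2)) := by
  obtain ⟨⟨r, r1, hr, -, h⟩, -, -⟩ := h1
  have hc : ContinuousAt (fun z : ℂ => (1 + ca * z ^ 4 + cb * z ^ 6 + z ^ 8 * r z) / Om ^ 2 +
      z ^ 2 / 4) 0 := by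
    have := hr.continuousAt
    fun_prop
  have h2 : Tendsto (fun z : ℂ => (1 + ca * z ^ 4 + cb * z ^ 6 + z ^ 8 * r z) / Om ^ 2 +
      z ^ 2 / 4) (𝓝[≠] 0) (𝓝 (1 / Om ^ 2)) := by
    have h3 := hc.tendsto.mono_left (nhdsWithin_le_nhds (s := {(0 : ℂ)}ᶜ))
    have h4 : (1 + ca * (0 : ℂ) ^ 4 + cb * (0 : ℂ) ^ 6 + (0 : ℂ) ^ 8 * r 0) / Om ^ 2 +
        (0 : ℂ) ^ 2 / 4 = 1 / Om ^ 2 := by
      norm_num
    rw [h4] at h3
    exact h3
  refine h2.congr' ?_
  rw [EventuallyEq, eventually_nhdsWithin_iff]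
  refine Eventually.of_forall fun z hz => ?_
  have hz0 : z ≠ 0 := hz
  have h5 := (h z hz0).1
  unfold X
  have h6 : z ^ 2 * wp z = 1 + ca * z ^ 4 + cb * z ^ 6 + z ^ 8 * r z := by
    rw [h5]
    field_simp
  rw [← h6]
  ring

private theorem PrB_cont {u : ℂ} (hu : ¬ inO u) (T : ℂ) :
    Tendsto (fun h : ℂ => X (h + u) - X T) (𝓝[≠] 0) (𝓝 (X u - X T)) := by
  have h1 : ContinuousAt wp u := (analyticAt_wp hu).continuousAt
  have h2 : ContinuousAt (fun h : ℂ => X (h + u) - X T) 0 := by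
    unfold X
    have h3 : ContinuousAt (fun h : ℂ => wp (h + u)) 0 := by
      apply ContinuousAt.comp (g := wp)
      · rw [zero_add]
        exact h1
      · fun_prop
    fun_prop
  have h3 := h2.tendsto.mono_left (nhdsWithin_le_nhds (s := {(0 : ℂ)}ᶜ))
  rw [zero_add] at h3
  exact h3

theorem tPrB (h1 : S_Exp) (h2 : S_Om) (h3 : S_XB) : S_PrB := by
  classical
  intro α R hα hR T c hT hprod
  have hα' : em α ≠ 0 := em_ne_zero hα
  have hOm : Om ≠ 0 := h2.1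
  obtain ⟨u0, hu0, hu0'⟩ := hR.ex 0 (by rw [mul_zero]; exact inO_zero)
  rw [zero_sub, inO_neg_iff] at hu0'
  have huni : ∀ u ∈ R.erase u0, ¬ inO u := by
    intro u hu h
    obtain ⟨hne, huR⟩ := Finset.mem_erase.1 hu
    exact hne (hR.uni u huR u0 hu0 (inO_sub h hu0'))
  obtain ⟨v0, hv0⟩ := inO_iff.1 hu0'
  have hX0 : ∀ h : ℂ, X (h + u0) = X h := by
    intro h
    rw [← hv0]
    exact (h3.1 h v0).1
  -- the two limits
  have hsq : Tendsto (fun h : ℂ => h ^ 2 * X T) (𝓝[≠] 0) (𝓝 0) := by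
    have hc : ContinuousAt (fun h : ℂ => h ^ 2 * X T) 0 := by fun_prop
    have h4 := hc.tendsto.mono_left (nhdsWithin_le_nhds (s := {(0 : ℂ)}ᶜ))
    have h5 : (0 : ℂ) ^ 2 * X T = 0 := by ring
    rw [h5] at h4
    exact h4
  have hL : Tendsto (fun h : ℂ => (h ^ 2 * X h - h ^ 2 * X T) *
      ∏ u ∈ R.erase u0, (X (h + u) - X T)) (𝓝[≠] 0)
      (𝓝 ((1 / Om ^ 2 - 0) * ∏ u ∈ R.erase u0, (X u - X T))) :=
    ((PrB_lim h1).sub hsq).mul (tendsto_finsetProd _ fun u hu => PrB_cont (huni u hu) T)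
  have hscale : Tendsto (fun h : ℂ => em α * h) (𝓝[≠] 0) (𝓝[≠] 0) := by
    refine tendsto_nhdsWithin_of_tendsto_nhds_of_eventually_within _ ?_ ?_
    · have hc : ContinuousAt (fun h : ℂ => em α * h) 0 := by fun_prop
      have h4 := hc.tendsto.mono_left (nhdsWithin_le_nhds (s := {(0 : ℂ)}ᶜ))
      rw [mul_zero] at h4
      exact h4
    · rw [eventually_nhdsWithin_iff]
      exact Eventually.of_forall fun h hh => mul_ne_zero hα' hh
  have hRt : Tendsto (fun h : ℂ => c * ((em α ^ 2)⁻¹ * ((em α * h) ^ 2 * X (em α * h)) -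
      h ^ 2 * X T)) (𝓝[≠] 0) (𝓝 (c * ((em α ^ 2)⁻¹ * (1 / Om ^ 2) - 0))) :=
    ((((PrB_lim h1).comp hscale).const_mul _).sub hsq).const_mul c
  have heq : (fun h : ℂ => (h ^ 2 * X h - h ^ 2 * X T) *
      ∏ u ∈ R.erase u0, (X (h + u) - X T)) =ᶠ[𝓝[≠] 0]
      fun h : ℂ => c * ((em α ^ 2)⁻¹ * ((em α * h) ^ 2 * X (em α * h)) - h ^ 2 * X T) := by
    have h4 := ev_aff (em α) 0 hα' 0
    filter_upwards [h4] with h hh
    rw [add_zero] at hh
    have h5 := hprod h hh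
    rw [← Finset.mul_prod_erase R _ hu0, hX0] at h5
    have h6 : (h ^ 2 * X h - h ^ 2 * X T) * ∏ u ∈ R.erase u0, (X (h + u) - X T) =
        h ^ 2 * ((X h - X T) * ∏ u ∈ R.erase u0, (X (h + u) - X T)) := by ring
    rw [h6, h5]
    field_simp
  have hlim := tendsto_nhds_unique hL (hRt.congr' heq.symm)
  have h7 : ∏ u ∈ R, (if inO u then (1 : ℂ) else X u - X T) =
      ∏ u ∈ R.erase u0, (X u - X T) := by
    rw [← Finset.mul_prod_erase R _ hu0, if_pos hu0', one_mul]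
    exact Finset.prod_congr rfl fun u hu => if_neg (huni u hu)
  have h8 : c = em α ^ 2 * ∏ u ∈ R.erase u0, (X u - X T) := by
    have h9 : Om ^ 2 ≠ 0 := pow_ne_zero 2 hOm
    have h10 : em α ^ 2 ≠ 0 := pow_ne_zero 2 hα'
    rw [sub_zero, sub_zero] at hlim
    field_simp at hlim
    rw [mul_comm] at hlim
    exact hlim.symm
  rw [h8]
  apply congrArg
  rw [← h7]

end DI
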