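import Pool.Agent.Lib.DI.B.Spec

/-! # Theorem DI, Part B: distribution of the theta function (module PrC) -/

set_option autoImplicit false

namespace DI

open Complex Filter Topology

theorem PrC_ind_of {P : Prop} (h : P) : ind P = 1 := by
  unfold ind
  exact if_pos h

theorem PrC_ind_not {P : Prop} (h : ¬ P) : ind P = 0 := by
  unfold ind
  exact if_neg h

theorem PrC_one {R : Finset ℂ} {p : ℂ → Prop} {v₀ : ℂ} (h0 : v₀ ∈ R) (h1 : p v₀)
    (h2 : ∀ v ∈ R, p v → v = v₀) : ∑ v ∈ R, ind (p v) = 1 := by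
  rw [Finset.sum_eq_single_of_mem v₀ h0
    (fun v hv hne => PrC_ind_not fun hp => hne (h2 v hv hp)), PrC_ind_of h1]

theorem PrC_zero {R : Finset ℂ} {p : ℂ → Prop} (h : ∀ v ∈ R, ¬ p v) :
    ∑ v ∈ R, ind (p v) = 0 :=
  Finset.sum_eq_zero fun v hv => PrC_ind_not (h v hv)

/-- (a) -/
theorem PrC_a {μ : O} {S : Finset ℂ} (h2 : IsCoprime μ 2) (hS : IsHalf μ S) (y : ℂ) :
    ∑ u ∈ S, (ind (inO (y - u)) + ind (inO (y + u))) = ind (inO (em μ * y)) - ind (inO y) := by
  have two : ∀ u : ℂ, ind (inO (y - u)) + ind (inO (y + u)) = 0 ∨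
      inO (y - u) ∨ inO (y + u) := by
    intro u
    by_cases k1 : inO (y - u)
    · exact Or.inr (Or.inl k1)
    by_cases k2 : inO (y + u)
    · exact Or.inr (Or.inr k2)
    rw [PrC_ind_not k1, PrC_ind_not k2]
    exact Or.inl rfl
  by_cases hy : inO y
  · rw [PrC_ind_of hy, PrC_ind_of (inO_mul μ hy), sub_self]
    refine Finset.sum_eq_zero fun u hu => ?_
    have hu' := (hS.mem u hu).2
    rcases two u with h | h | h
    · exact h
    · exact absurd (by have := inO_sub hy h; rwa [sub_sub_cancel] at this) hu'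
    · exact absurd (by have := inO_sub h hy; rwa [add_sub_cancel_left] at this) hu'
  · rw [PrC_ind_not hy, sub_zero]
    by_cases hm : inO (em μ * y)
    · rw [PrC_ind_of hm]
      obtain ⟨u₀, hu₀, h0⟩ := hS.ex y hm hy
      rw [Finset.sum_eq_single_of_mem u₀ hu₀]
      · obtain ⟨m1, m2⟩ := hS.mem u₀ hu₀
        have hne : ¬ inO (u₀ + u₀) := by
          intro h
          obtain ⟨a, b, hab⟩ := h2
          apply m2
          have e : u₀ = em a * (em μ * u₀) + em b * (u₀ + u₀) := by
            have := congrArg em hab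
            rw [map_add, map_mul, map_mul, map_one, map_ofNat] at this
            linear_combination (-u₀) * this
          rw [e]
          exact inO_add (inO_mul a m1) (inO_mul b h)
        have hno : ¬ (inO (y - u₀) ∧ inO (y + u₀)) := by
          rintro ⟨k1, k2⟩
          refine hne ?_
          have := inO_sub k2 k1
          rwa [show y + u₀ - (y - u₀) = u₀ + u₀ by ring] at this
        rcases h0 with h0 | h0
        · rw [PrC_ind_of h0, PrC_ind_not fun k => hno ⟨h0, k⟩, add_zero]
        · rw [PrC_ind_of h0, PrC_ind_not fun k => hno ⟨k, h0⟩, zero_add]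
      · intro u hu hne
        have key : ¬ (inO (u₀ - u) ∨ inO (u₀ + u)) :=
          fun h => hne (hS.uni u₀ hu₀ u hu h).symm
        rw [not_or] at key
        rcases two u with h | h | h
        · exact h
        · rcases h0 with h0 | h0
          · refine absurd ?_ key.1
            have := inO_sub h h0
            rwa [show y - u - (y - u₀) = u₀ - u by ring] at this
          · refine absurd ?_ key.2
            have := inO_sub h0 h
            rwa [show y + u₀ - (y - u) = u₀ + u by ring] at this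
        · rcases h0 with h0 | h0
          · refine absurd ?_ key.2
            have := inO_sub h h0
            rwa [show y + u - (y - u₀) = u₀ + u by ring] at this
          · refine absurd ?_ key.1
            have := inO_sub h0 h
            rwa [show y + u₀ - (y + u) = u₀ - u by ring] at this
    · rw [PrC_ind_not hm]
      refine Finset.sum_eq_zero fun u hu => ?_
      obtain ⟨m1, m2⟩ := hS.mem u hu
      rcases two u with h | h | h
      · exact h
      · refine absurd ?_ hm
        have := inO_add (inO_mul μ h) m1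
        rwa [mul_sub, sub_add_cancel] at this
      · refine absurd ?_ hm
        have := inO_sub (inO_mul μ h) m1
        rwa [mul_add, add_sub_cancel_right] at this

/-- (b), first part -/
theorem PrC_b {α : O} {R : Finset ℂ} (hR : IsReps α R) (y : ℂ) :
    ∑ v ∈ R, ind (inO (y + v)) = ind (inO (em α * y)) := by
  by_cases h : inO (em α * y)
  · rw [PrC_ind_of h]
    obtain ⟨v₀, hv₀, h0⟩ := hR.ex (-y) (by rw [mul_neg]; exact inO_neg h)
    have h0' : inO (y + v₀) := by
      have := inO_neg h0
      rwa [show -(-y - v₀) = y + v₀ by ring] at this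
    refine PrC_one (p := fun v => inO (y + v)) hv₀ h0' ?_
    intro v hv hp
    refine hR.uni v hv v₀ hv₀ ?_
    have := inO_sub hp h0'
    rwa [show y + v - (y + v₀) = v - v₀ by ring] at this
  · rw [PrC_ind_not h]
    refine PrC_zero (p := fun v => inO (y + v)) fun v hv hp => h ?_
    have := inO_sub (inO_mul α hp) (hR.mem v hv)
    rwa [mul_add, add_sub_cancel_right] at this

/-- (b), second part -/
theorem PrC_c {α μ : O} {R : Finset ℂ} (hc : IsCoprime α μ) (hR : IsReps α R) (y : ℂ) :
    ∑ v ∈ R, ind (inO (em μ * (y + v))) = ind (inO (em μ * (em α * y))) := by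
  obtain ⟨a, b, hab⟩ := hc
  have e : em a * em α + em b * em μ = 1 := by
    rw [← map_mul, ← map_mul, ← map_add, hab, map_one]
  by_cases h : inO (em μ * (em α * y))
  · rw [PrC_ind_of h]
    have hw : inO (em α * (-(em b * (em μ * y)))) := by
      have := inO_neg (inO_mul b h)
      rwa [show -(em b * (em μ * (em α * y))) = em α * (-(em b * (em μ * y))) by ring] at this
    obtain ⟨v₀, hv₀, h0⟩ := hR.ex _ hw
    have h0' : inO (em μ * (y + v₀)) := by
      have := inO_sub (inO_mul a h) (inO_mul μ h0)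
      rwa [show em a * (em μ * (em α * y)) - em μ * (-(em b * (em μ * y)) - v₀) =
        em μ * (y + v₀) by linear_combination (em μ * y) * e] at this
    refine PrC_one (p := fun v => inO (em μ * (y + v))) hv₀ h0' ?_
    intro v hv hp
    refine hR.uni v hv v₀ hv₀ ?_
    have k1 := inO_sub hp h0'
    have k2 := inO_sub (hR.mem v hv) (hR.mem v₀ hv₀)
    have := inO_add (inO_mul a k2) (inO_mul b k1)
    rwa [show em a * (em α * v - em α * v₀) + em b * (em μ * (y + v) - em μ * (y + v₀)) =
      v - v₀ by linear_combination (v - v₀) * e] at this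
  · rw [PrC_ind_not h]
    refine PrC_zero (p := fun v => inO (em μ * (y + v))) fun v hv hp => h ?_
    have := inO_sub (inO_mul α hp) (inO_mul μ (hR.mem v hv))
    rwa [show em α * (em μ * (y + v)) - em μ * (em α * v) = em μ * (em α * y) by ring] at this

theorem PrC_ord (h : S_Ord) {S : Finset ℂ} {μ : O} (h2 : IsCoprime μ 2) (hS : IsHalf μ S)
    {c a : ℂ} (hc : c ≠ 0) (z : ℂ) :
    MeromorphicAt (fun w => ∏ u ∈ S, (X (c * w + a) - X u)) z ∧
    meromorphicOrderAt (fun w => ∏ u ∈ S, (X (c * w + a) - X u)) z =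
      ((ind (inO (em μ * (c * z + a))) - (1 + 2 * (S.card : ℤ)) * ind (inO (c * z + a)) : ℤ) :
        WithTop ℤ) := by
  have hm : ∀ u ∈ S, MeromorphicAt (fun w => X (c * w + a) - X u) z :=
    fun u hu => (h c a u hc (hS.mem u hu).2 z).1
  refine ⟨MeromorphicAt.fun_prod hm, ?_⟩
  rw [meromorphicOrderAt_fun_prod hm,
    Finset.sum_congr rfl fun u hu => (h c a u hc (hS.mem u hu).2 z).2, ← WithTop.coe_sum,
    Finset.sum_sub_distrib, PrC_a h2 hS, Finset.sum_const, nsmul_eq_mul]
  congr 1
  ring

theorem PrC_cont {w : ℂ} (h : ¬ inO w) : ContinuousAt X w := by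
  have h1 := (analyticAt_wp h).continuousAt
  exact (h1.div_const _).add continuousAt_const

theorem tPrC (h1 : S_XB) (h2 : S_Ord) (h3 : S_Quo) : S_PrC := by
  intro α μ R S hα hαμ hμ2 hR hS
  have hαc : em α ≠ 0 := em_ne_zero hα
  have hFm : ∀ z, ∀ v ∈ R, MeromorphicAt (fun w => ∏ u ∈ S, (X (1 * w + v) - X u)) z :=
    fun z v hv => (PrC_ord h2 hμ2 hS one_ne_zero z).1
  have hFo : ∀ z, meromorphicOrderAt (fun w => ∏ v ∈ R, ∏ u ∈ S, (X (1 * w + v) - X u)) z =
      ((ind (inO (em μ * (em α * z + 0))) - (1 + 2 * (S.card : ℤ)) * ind (inO (em α * z + 0)) : ℤ) :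
        WithTop ℤ) := by
    intro z
    rw [meromorphicOrderAt_fun_prod (hFm z),
      Finset.sum_congr rfl fun v hv => (PrC_ord h2 hμ2 hS one_ne_zero z).2, ← WithTop.coe_sum,
      Finset.sum_sub_distrib, ← Finset.mul_sum]
    simp only [one_mul, add_zero]
    rw [PrC_c hαμ hR, PrC_b hR]
  have hGo := fun z => (PrC_ord h2 hμ2 hS (a := 0) hαc z).2
  obtain ⟨c, hc, hq⟩ := h3 (fun w => ∏ v ∈ R, ∏ u ∈ S, (X (1 * w + v) - X u))
    (fun w => ∏ u ∈ S, (X (em α * w + 0) - X u)) (fun z => MeromorphicAt.fun_prod (hFm z))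
    (fun z => (PrC_ord h2 hμ2 hS hαc z).1)
    (fun z => ⟨by rw [hFo, hGo], by rw [hFo]; exact WithTop.coe_ne_top⟩) (by
      intro v z
      constructor
      · refine Finset.prod_congr rfl fun v' _ => Finset.prod_congr rfl fun u _ => ?_
        rw [show 1 * (z + em v) + v' = 1 * z + v' + em v by ring, (h1.1 _ v).1]
      · refine Finset.prod_congr rfl fun u _ => ?_
        rw [show em α * (z + em v) + 0 = em α * z + 0 + em (α * v) by rw [map_mul]; ring,
          (h1.1 _ (α * v)).1])
  refine ⟨c⁻¹, inv_ne_zero hc, fun z hz => ?_⟩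
  have hz1 : ¬ inO (em α * z) := fun h => hz (by
    rw [mul_comm α μ, map_mul, mul_assoc]
    exact inO_mul μ h)
  have hz2 : ∀ v ∈ R, ¬ inO (z + v) := fun v hv h => hz1 (by
    have := inO_sub (inO_mul α h) (hR.mem v hv)
    rwa [mul_add, add_sub_cancel_right] at this)
  have cX : ∀ b a : ℂ, ¬ inO (b * z + a) → Tendsto (fun w => X (b * w + a)) (𝓝 z)
      (𝓝 (X (b * z + a))) := by
    intro b a hba
    exact ContinuousAt.comp (f := fun w : ℂ => b * w + a) (g := X) (PrC_cont hba) (by fun_prop)
  have cF : Tendsto (fun w => ∏ v ∈ R, ∏ u ∈ S, (X (1 * w + v) - X u)) (𝓝 z)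
      (𝓝 (∏ v ∈ R, ∏ u ∈ S, (X (1 * z + v) - X u))) :=
    tendsto_finsetProd _ fun v hv => tendsto_finsetProd _ fun u _ =>
      (cX 1 v (by rw [one_mul]; exact hz2 v hv)).sub tendsto_const_nhds
  have cG : Tendsto (fun w => c * ∏ u ∈ S, (X (em α * w + 0) - X u)) (𝓝 z)
      (𝓝 (c * ∏ u ∈ S, (X (em α * z + 0) - X u))) :=
    (tendsto_finsetProd _ fun u _ =>
      (cX (em α) 0 (by rwa [add_zero])).sub tendsto_const_nhds).const_mul c
  have t1 := (cF.mono_left (nhdsWithin_le_nhds (s := {z}ᶜ))).congr' (hq z)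
  have t2 := cG.mono_left (nhdsWithin_le_nhds (s := {z}ᶜ))
  have t3 := tendsto_nhds_unique t1 t2
  simp only [one_mul, add_zero] at t3
  simp only [Finset.prod_inv_distrib]
  rw [t3, mul_inv]

end DI
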