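import Pool.Agent.Lib.DI.B.Spec

/-! # Theorem DI, Part B, module Tay (helper47): Taylor expansion with an analytic remainder -/

set_option autoImplicit false

namespace DI

open Complex Filter Topology

private theorem Tay_aux (c : ℂ) (n : ℕ) : ∀ (f : ℂ → ℂ) (p : FormalMultilinearSeries ℂ ℂ ℂ),
    HasFPowerSeriesAt f p c → ∃ g : ℂ → ℂ, AnalyticAt ℂ g c ∧ ∀ z, f z =
      ∑ i ∈ Finset.range n, p.coeff i * (z - c) ^ i + (z - c) ^ n * g z := by
  induction n with
  | zero =>
    intro f p hf
    exact ⟨f, ⟨p, hf⟩, fun z => by simp⟩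
  | succ n ih =>
    intro f p hf
    obtain ⟨g, hg, hfg⟩ := ih (dslope f c) p.fslope hf.has_fpower_series_dslope_fslope
    refine ⟨g, hg, fun z => ?_⟩
    have h0 : p.coeff 0 = f c := hf.coeff_zero 1
    have h1 : (z - c) • dslope f c z = f z - f c := sub_smul_dslope f c z
    have h2 : f z = f c + (z - c) * dslope f c z := by
      rw [smul_eq_mul] at h1
      rw [h1]
      ring
    rw [h2, hfg z, Finset.sum_range_succ', h0, pow_zero, mul_one, mul_add, Finset.mul_sum]
    have h3 : ∑ i ∈ Finset.range n, (z - c) * (p.fslope.coeff i * (z - c) ^ i) =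
        ∑ i ∈ Finset.range n, p.coeff (i + 1) * (z - c) ^ (i + 1) := by
      refine Finset.sum_congr rfl fun i _ => ?_
      rw [FormalMultilinearSeries.coeff_fslope]
      ring
    rw [h3]
    ring

theorem tTay : S_Tay := by
  intro f c hf n
  obtain ⟨g, hg, hfg⟩ := Tay_aux c n f _ hf.hasFPowerSeriesAt
  refine ⟨fun h => g (c + h), ?_, fun h => ?_⟩
  · have h1 : AnalyticAt ℂ (fun h : ℂ => c + h) 0 := analyticAt_const.add analyticAt_id
    have h2 : AnalyticAt ℂ g ((fun h : ℂ => c + h) 0) := by
      simpa using hg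
    exact h2.comp h1
  · have h3 := hfg (c + h)
    rw [add_sub_cancel_left] at h3
    rw [h3]
    congr 1
    refine Finset.sum_congr rfl fun i _ => ?_
    rw [FormalMultilinearSeries.coeff_ofScalars]

end DI
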