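import Pool.Agent.Lib.DI.B.Spec

/-! # Theorem DI, Part B, module X2: the points of order 2 (helper11) -/

set_option autoImplicit false

namespace DI

open Complex Filter Topology

private theorem X2_a : (pw - 3) / 4 = qw / pw ^ 2 := by
  rw [eq_div_iff (pow_ne_zero 2 pw_ne), qw_eq]
  linear_combination ((pw - 3) / 4 + 1 / 4) * pw_sq

private theorem X2_half : 1 / pw + 1 / qw = 1 / 2 := by
  have h := pw_mul_qw
  have h' := pw_add_qw
  have hp := pw_ne
  have hq := qw_ne
  field_simp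
  linear_combination 2 * h' - h

private theorem X2_X (h3 : S_Om) : X (1 / pw) = (pw - 3) / 4 := by
  obtain ⟨-, -, -, h, -⟩ := h3
  have h1 : X (1 / pw) = et / Om ^ 2 + 1 / 4 := rfl
  rw [h1, h]
  ring

private theorem X2_C : pw ^ 4 * ((3 * (pw - 4) ^ 2 - 35) / 16) + pw ^ 5 - (1 - pw) ^ 2 = 0 := by
  have hk : (3 * (pw - 4) ^ 2 - 35) / 16 = 7 * (1 - 3 * pw) / 16 := by
    linear_combination (3 / 16) * pw_sq
  have h4 : pw ^ 4 = 2 - 3 * pw := by linear_combination (pw ^ 2 + pw - 1) * pw_sq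
  have h5 : pw ^ 5 = 6 - pw := by linear_combination pw * h4 - 3 * pw_sq
  rw [hk, h4, h5]
  linear_combination (47 / 16) * pw_sq

private theorem X2_tr (h1 : S_MulB) (h3 : S_Om) (z : ℂ) (hz : ¬ inO z) (hz' : ¬ inO (pw * z)) :
    X (z + 1 / pw) * (pw ^ 2 * X z - qw) = qw * X z - pw ^ 3 := by
  obtain ⟨h0, hg, -, he, -⟩ := h3
  have hz2 : ¬ inO (z + 1 / pw) := by
    intro h
    have h2 := inO_pw h
    rw [mul_add, mul_one_div_cancel pw_ne, inO_add_iff inO_one] at h2
    exact hz' h2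
  have key := (h1 (1 / pw) notO_t (by rw [two_div_pw]; exact inO_qw_self) z hz hz2).1
  have e1 : wp (z + 1 / pw) = (X (z + 1 / pw) - 1 / 4) * Om ^ 2 := by
    unfold X
    field_simp
    ring
  have e2 : wp z = (X z - 1 / 4) * Om ^ 2 := by
    unfold X
    field_simp
    ring
  have e3 : wp (1 / pw) = (pw - 4) / 4 * Om ^ 2 := by
    rw [← he]
    unfold et
    field_simp
  have e4 : LO.g₂ = 35 / 4 * Om ^ 4 := by
    rw [← hg]
    field_simp
  rw [e1, e2, e3, e4] at key
  have k2 : (X (z + 1 / pw) - (pw - 3) / 4) * (X z - (pw - 3) / 4) =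
      (3 * (pw - 4) ^ 2 - 35) / 16 := by
    refine mul_left_cancel₀ (pow_ne_zero 4 h0) ?_
    linear_combination key
  have hp2 : pw ^ 2 ≠ 0 := pow_ne_zero 2 pw_ne
  have hA : (pw - 3) / 4 * pw ^ 2 = 1 - pw := by
    rw [X2_a, qw_eq, div_mul_cancel₀ _ hp2]
  refine mul_left_cancel₀ hp2 ?_
  rw [qw_eq]
  linear_combination pw ^ 4 * k2 -
    (-(pw ^ 2) * (X z + X (z + 1 / pw)) + ((pw - 3) / 4 * pw ^ 2 + (1 - pw))) * hA + X2_C

private theorem X2_cj (h4 : S_XC) (z : ℂ) : (starRingEnd ℂ) (X z) = X ((starRingEnd ℂ) z) := by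
  obtain ⟨s, -, -, h⟩ := h4
  exact (h z).1

theorem tX2 (h1 : S_MulB) (h2 : S_XB) (h3 : S_Om) (h4 : S_XC) : S_X2 := by
  have hp := pw_ne
  have hq := qw_ne
  have c1 : (starRingEnd ℂ) (1 / pw) = 1 / qw := by rw [map_div₀, map_one, conj_pw]
  have xp : X (1 / pw) = (pw - 3) / 4 := X2_X h3
  have xq : X (1 / qw) = (qw - 3) / 4 := by
    have h := X2_cj h4 (1 / pw)
    rw [c1, xp, map_div₀, map_sub, conj_pw, map_ofNat, map_ofNat] at h
    exact h.symm
  obtain ⟨-, -, -, hE, hX, -, hW, -⟩ := h2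
  have n1 : ¬ inO (1 / 2) := notO_half
  have d1 : X (1 / 2) ≠ X (1 / pw) := by
    intro h
    rcases (hX _ _ n1 notO_t).1 h with h | h
    · rw [← X2_half, add_sub_cancel_left] at h
      exact notO_s h
    · rw [← X2_half, add_right_comm, two_div_pw, add_comm] at h
      exact notO_s ((inO_add_iff inO_qw_self).1 h)
  have d2 : X (1 / 2) ≠ X (1 / qw) := by
    intro h
    rcases (hX _ _ n1 notO_s).1 h with h | h
    · rw [← X2_half, add_sub_cancel_right] at h
      exact notO_t h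
    · rw [← X2_half, add_assoc, two_div_qw] at h
      exact notO_t ((inO_add_iff inO_pw_self).1 h)
  refine ⟨?_, ?_⟩
  · have w0 : W (1 / 2) = 0 := (hW _ n1).2 (by norm_num; exact inO_one)
    have h := (hE _ n1).2
    rw [w0] at h
    have hs : (qw - 3) / 4 = (-2 - pw) / 4 := by
      rw [qw_eq]
      ring
    rw [xp] at d1
    rw [xq, hs] at d2
    have h5 : (X (1 / 2) - 2) * ((X (1 / 2) - (pw - 3) / 4) * (X (1 / 2) - (-2 - pw) / 4)) = 0 := by
      linear_combination (-1 / 4) * h - (X (1 / 2) - 2) / 16 * pw_sq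
    rcases mul_eq_zero.1 h5 with h6 | h6
    · exact sub_eq_zero.1 h6
    · rcases mul_eq_zero.1 h6 with h7 | h7
      · exact absurd (sub_eq_zero.1 h7) d1
      · exact absurd (sub_eq_zero.1 h7) d2
  · rintro p q (⟨rfl, rfl⟩ | ⟨rfl, rfl⟩)
    · exact ⟨by rw [xp, X2_a], fun z hz hz' => X2_tr h1 h3 z hz hz'⟩
    · refine ⟨?_, fun z hz hz' => ?_⟩
      · have h := congrArg (starRingEnd ℂ) X2_a
        rw [map_div₀, map_div₀, map_pow, map_sub, conj_pw, conj_qw, map_ofNat, map_ofNat] at h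
        rw [xq, h]
      · have g1 : ¬ inO ((starRingEnd ℂ) z) := fun h => hz (inO_conj_iff.1 h)
        have g2 : ¬ inO (pw * (starRingEnd ℂ) z) := by
          rw [← conj_qw, ← map_mul]
          exact fun h => hz' (inO_conj_iff.1 h)
        have h := congrArg (starRingEnd ℂ) (X2_tr h1 h3 _ g1 g2)
        simp only [map_mul, map_sub, map_pow, X2_cj h4, map_add, map_div₀, map_one, conj_pw, conj_qw,
          Complex.conj_conj] at h
        exact h

end DI
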