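import Pool.Agent.Lib.DI.B.Spec

/-! # Theorem DI, Part B: the points of order `√-7` -/

set_option autoImplicit false

namespace DI

open Complex Filter Topology

private lemma X7_pq {p q : ℂ} (h : PQ p q) : p ^ 2 = p - 2 ∧ q = 1 - p ∧ p ≠ 0 := by
  rcases h with ⟨rfl, rfl⟩ | ⟨rfl, rfl⟩
  · exact ⟨pw_sq, qw_eq, pw_ne⟩
  · refine ⟨?_, ?_, qw_ne⟩
    · rw [qw_eq]
      linear_combination pw_sq
    · rw [qw_eq]
      ring

private lemma X7_key {p x w x' w' : ℂ} (hp : p ^ 2 = p - 2) (hp0 : p ≠ 0)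
    (hD : p ^ 2 * x - (1 - p) ≠ 0) (ha : x' * (p ^ 2 * x - (1 - p)) = x ^ 2 - p)
    (hb : p ^ 3 * w' * (p ^ 2 * x - (1 - p)) ^ 2 = w * ((p ^ 2 * x - (1 - p)) ^ 2 + 7))
    (hc : x ^ 3 + x ^ 2 - 2 * x - 1 = 0) : w' * x = w * x' := by
  have e1 : x * ((p ^ 2 * x - (1 - p)) ^ 2 + 7) - p ^ 3 * (p ^ 2 * x - (1 - p)) * (x ^ 2 - p) =
      2 * p ^ 3 * (x ^ 3 + x ^ 2 - 2 * x - 1) := by
    linear_combination (4 * x + p * x - p ^ 2 * x - p ^ 2 * x ^ 2 + p ^ 3 + p ^ 3 * x -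
      p ^ 3 * x ^ 3 + p ^ 4 * x) * hp
  have e2 : p ^ 3 * (p ^ 2 * x - (1 - p)) ^ 2 * (w' * x - w * x') = 0 := by
    linear_combination x * hb - w * p ^ 3 * (p ^ 2 * x - (1 - p)) * ha + w * e1 +
      2 * p ^ 3 * w * hc
  have e3 : p ^ 3 * (p ^ 2 * x - (1 - p)) ^ 2 ≠ 0 :=
    mul_ne_zero (pow_ne_zero _ hp0) (pow_ne_zero _ hD)
  exact sub_eq_zero.1 ((mul_eq_zero.1 e2).resolve_left e3)

theorem tX7 (h1 : S_XB) (h2 : S_XMul) : S_X7 := by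
  intro z hz hr
  obtain ⟨-, -, -, hW, hX, -, -, -⟩ := h1
  have hp : ¬ inO (pw * z) := by
    intro h
    apply hz
    have h3 := inO_sub (inO_add h h) hr
    have e : pw * z + pw * z - (2 * pw - 1) * z = z := by ring
    rwa [e] at h3
  have hq : ¬ inO (qw * z) := by
    intro h
    apply hz
    have h3 := inO_add (inO_add h h) hr
    have e : qw * z + qw * z + (2 * pw - 1) * z = z := by
      rw [qw_eq]
      ring
    rwa [e] at h3
  have hPQ : ∀ p q : ℂ, PQ p q → ¬ inO (p * z) := by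
    rintro p q (⟨rfl, rfl⟩ | ⟨rfl, rfl⟩)
    · exact hp
    · exact hq
  have hXX : X (pw * z) = X (qw * z) := by
    refine (hX _ _ hp hq).2 (Or.inl ?_)
    have e : pw * z - qw * z = (2 * pw - 1) * z := by
      rw [qw_eq]
      ring
    rw [e]
    exact hr
  obtain ⟨hD1, ha1, -, -⟩ := h2 pw qw (Or.inl ⟨rfl, rfl⟩) z hz hp
  obtain ⟨hD2, ha2, -, -⟩ := h2 qw pw (Or.inr ⟨rfl, rfl⟩) z hz hq
  have hne : 1 - 2 * pw ≠ 0 := by
    intro h
    have h3 : (1 - 2 * pw) ^ 2 = -7 := by linear_combination 4 * pw_sq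
    rw [h] at h3
    norm_num at h3
  have hc : X z ^ 3 + X z ^ 2 - 2 * X z - 1 = 0 := by
    have h3 : (X z ^ 2 - pw) * (qw ^ 2 * X z - pw) = (X z ^ 2 - qw) * (pw ^ 2 * X z - qw) := by
      rw [← ha1, ← ha2, hXX]
      ring
    have h4 : (1 - 2 * pw) * (X z ^ 3 + X z ^ 2 - 2 * X z - 1) = 0 := by
      rw [qw_eq] at h3
      linear_combination h3 + X z * (2 * pw - 1) * pw_sq
    exact (mul_eq_zero.1 h4).resolve_left hne
  refine ⟨hc, ?_, ?_⟩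
  · have h3 : W z ^ 2 = ((2 * pw - 1) * X z) ^ 2 := by
      rw [(hW z hz).2]
      linear_combination 4 * hc - 4 * X z ^ 2 * pw_sq
    exact sq_eq_sq_iff_eq_or_eq_neg.1 h3
  · intro p q hpq
    have h3 := hPQ p q hpq
    obtain ⟨hD, ha, hb, -⟩ := h2 p q hpq z hz h3
    obtain ⟨k1, rfl, k3⟩ := X7_pq hpq
    exact ⟨h3, X7_key k1 k3 hD ha hb hc⟩

end DI
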