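import Pool.Agent.Lib.DI.B.Spec

/-! Theorem DI, Part B, module X9: the sign at the points of order `√-7`. -/

set_option autoImplicit false

namespace DI

open Complex Filter Topology

private theorem X9_sq : (2 * pw - 1) * (2 * pw - 1) = -7 := by
  linear_combination 4 * pw_sq

private theorem X9_ne : (2 * pw - 1 : ℂ) ≠ 0 := by
  intro h
  have := X9_sq
  rw [h] at this
  norm_num at this

private theorem X9_r : (2 * pw - 1 : ℂ) = em ⟨-1, 2⟩ := by
  rw [em_mk]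
  push_cast
  ring

private theorem X9_notO (j : ℤ) (hj : ¬ (7 : ℤ) ∣ j) : ¬ inO (j / (2 * pw - 1)) := by
  intro h
  obtain ⟨v, hv⟩ := inO_iff.1 h
  have h1 : em (-7 * v) = em ((j : O) * ⟨-1, 2⟩) := by
    rw [map_mul, map_mul, em_int, ← X9_r, hv, map_neg, map_ofNat]
    field_simp [X9_ne]
    linear_combination (-(j : ℂ)) * X9_sq
  have h2 := congrArg QuadraticAlgebra.re (em_inj h1)
  rw [QuadraticAlgebra.re_mul, QuadraticAlgebra.re_mul] at h2
  have e1 : (-7 : O).re = -7 := rfl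
  have e2 : (-7 : O).im = 0 := rfl
  have e3 : (j : O).re = j := rfl
  have e4 : (j : O).im = 0 := rfl
  rw [e1, e2, e3, e4] at h2
  apply hj
  refine ⟨v.re, ?_⟩
  have h3 : (⟨-1, 2⟩ : O).re = -1 := rfl
  have h4 : (⟨-1, 2⟩ : O).im = 2 := rfl
  rw [h3, h4] at h2
  linarith

private theorem X9_mem (j : ℤ) : inO ((2 * pw - 1) * (j / (2 * pw - 1))) := by
  rw [mul_div_cancel₀ _ X9_ne, ← em_int]
  exact inO_em _

theorem tX9 (h1 : S_XB) (h2 : S_X7) : S_X9 := by
  have hper := h1.1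
  have key : ∀ s : ℤ, ∀ j : ℤ, ¬ (7 : ℤ) ∣ j →
      W (j / (2 * pw - 1)) = s * (2 * pw - 1) * X (j / (2 * pw - 1)) →
      W ((4 * j : ℤ) / (2 * pw - 1)) = s * (2 * pw - 1) * X ((4 * j : ℤ) / (2 * pw - 1)) := by
    intro s j hj hW
    obtain ⟨ha, -, hb⟩ := h2 _ (X9_notO j hj) (X9_mem j)
    have hX : X (j / (2 * pw - 1)) ≠ 0 := by
      intro h0
      rw [h0] at ha
      norm_num at ha
    have h3 := (hb pw qw (Or.inl ⟨rfl, rfl⟩)).2
    have h4 : pw * (j / (2 * pw - 1)) = (4 * j : ℤ) / (2 * pw - 1) +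
        em ((j : O) * QuadraticAlgebra.omega) := by
      have h5 : (j : ℂ) / (2 * pw - 1) * (2 * pw - 1) = j := div_mul_cancel₀ _ X9_ne
      have h6 : ((4 * j : ℤ) : ℂ) / (2 * pw - 1) = 4 * (j / (2 * pw - 1)) := by
        push_cast
        ring
      rw [map_mul, em_int, em_omega, h6]
      linear_combination (-2 * ((j : ℂ) / (2 * pw - 1))) * pw_sq + pw * h5
    rw [h4, (hper _ _).1, (hper _ _).2.1, hW] at h3
    refine mul_right_cancel₀ hX ?_
    rw [h3]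
    ring
  have hmod : ∀ s : ℤ, ∀ j k : ℤ,
      W (j / (2 * pw - 1)) = s * (2 * pw - 1) * X (j / (2 * pw - 1)) →
      W ((j + 7 * k : ℤ) / (2 * pw - 1)) = s * (2 * pw - 1) * X ((j + 7 * k : ℤ) / (2 * pw - 1)) := by
    intro s j k hW
    have h4 : ((j + 7 * k : ℤ) : ℂ) / (2 * pw - 1) = j / (2 * pw - 1) +
        em (-(k : O) * ⟨-1, 2⟩) := by
      rw [map_mul, map_neg, em_int, ← X9_r]
      field_simp [X9_ne]
      push_cast
      linear_combination (k : ℂ) * X9_sq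
    rw [h4, (hper _ _).1, (hper _ _).2.1, hW]
  obtain ⟨-, hs, -⟩ := h2 _ (X9_notO 1 (by norm_num)) (X9_mem 1)
  have hs' : ∃ s : ℤ, (s = 1 ∨ s = -1) ∧
      W ((1 : ℤ) / (2 * pw - 1)) = s * (2 * pw - 1) * X ((1 : ℤ) / (2 * pw - 1)) := by
    rcases hs with hs | hs
    · exact ⟨1, Or.inl rfl, by rw [hs]; push_cast; ring⟩
    · exact ⟨-1, Or.inr rfl, by rw [hs]; push_cast; ring⟩
  obtain ⟨s, hs1, hs2⟩ := hs'
  have a4 := key s 1 (by norm_num) hs2
  have a16 := key s (4 * 1) (by norm_num) a4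
  refine ⟨s, hs1, fun j hj => ?_⟩
  have hj' : jacobiSym (j % 7) 7 = 1 := by
    rw [← hj]
    exact (jacobiSym.mod_left j 7).symm
  have hlt : j % 7 < 7 := Int.emod_lt_of_pos j (by norm_num)
  have hnn : 0 ≤ j % 7 := Int.emod_nonneg j (by norm_num)
  have hdm : j = j % 7 + 7 * (j / 7) := (Int.emod_add_mul_ediv j 7).symm
  obtain ⟨t, ht⟩ : ∃ t, t = j % 7 := ⟨_, rfl⟩
  rw [← ht] at hj' hlt hnn hdm
  rw [hdm]
  interval_cases t
  · norm_num at hj'
  · exact hmod s 1 _ hs2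
  · have := hmod s (4 * (4 * 1)) (-2 + j / 7) a16
    rw [show (4 * (4 * 1) + 7 * (-2 + j / 7) : ℤ) = 2 + 7 * (j / 7) by ring] at this
    exact this
  · norm_num at hj'
  · exact hmod s 4 _ (by simpa using a4)
  · norm_num at hj'
  · norm_num at hj'

end DI
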