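import Pool.Agent.Lib.DI.B.Spec

/-! # Theorem DI, Part B, module XAdd: addition formulas

The tangent case: with `T w = zt (z + w) + zt (z - w) - 2 zt z` three instances of `S_ZadA` give
`T w (wp z - wp w) = wp' z` and
`(zt (z + z) - 2 zt z - T w) (wp (z + w) - wp (z - w)) = (wp' (z + w) - wp' (z - w)) / 2`; `w → 0`. -/

set_option autoImplicit false

namespace DI

open Complex Filter Topology

private theorem XAdd_odd (h4 : S_XB) (h5 : S_Om) (z : ℂ) : zt (-z) = -zt z := by
  have h1 := (h4.2.1 z).2.2.2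
  unfold E1 at h1
  have h2 : kz (-z) = -kz z := by
    have h3 := h5.1
    field_simp at h1
    exact h1
  unfold kz at h2
  rw [map_neg] at h2
  linear_combination h2

/-- the common part of the two cases -/
private theorem XAdd_gen (h2 : S_ZadA) (h3 : S_ZadB) (h4 : S_XB) (h5 : S_Om) (z z' s : ℂ)
    (hz : ¬ inO z) (hz' : ¬ inO z') (hzz : ¬ inO (z + z'))
    (hs : zt (z + z') - zt z - zt z' = Om * (s + 1 / 2)) :
    X (z + z') = s ^ 2 + s + 1 - X z - X z' ∧
    Y (z + z') = -Y z + s * X z - (s + 1) * X (z + z') ∧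
    E1 (z + z') = E1 z + E1 z' + s + 1 / 2 := by
  have hO : Om ≠ 0 := h5.1
  have hX : X (z + z') = s ^ 2 + s + 1 - X z - X z' := by
    have h6 := h3 z z' hz hz' hzz
    rw [hs] at h6
    have h7 : wp (z + z') = (Om * (s + 1 / 2)) ^ 2 - wp z - wp z' := by
      linear_combination -h6
    unfold X
    rw [h7]
    field_simp
    ring
  have hW : W (z + z') = (2 * s + 1) * (X z - X (z + z')) - W z := by
    have h6 := h2 z (-(z + z')) hz (fun h => hzz (inO_neg_iff.1 h))
      (by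
        have e : z + -(z + z') = -z' := by ring
        rw [e]
        exact fun h => hz' (inO_neg_iff.1 h))
    have e : z + -(z + z') = -z' := by ring
    rw [e, XAdd_odd h4 h5 z', XAdd_odd h4 h5 (z + z'), wp_neg, wp'_neg] at h6
    have h7 : -zt z' - zt z - -zt (z + z') = Om * (s + 1 / 2) := by
      linear_combination hs
    rw [h7] at h6
    have h8 : wp' (z + z') = 2 * (Om * (s + 1 / 2)) * (wp z - wp (z + z')) - wp' z := by
      linear_combination -2 * h6
    unfold W X
    rw [h8]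
    field_simp
    ring
  refine ⟨hX, ?_, ?_⟩
  · have h6 : Y (z + z') = (W (z + z') - X (z + z')) / 2 := rfl
    rw [h6, hW, W_eq]
    ring
  · have h6 : kz (z + z') = kz z + kz z' + Om * (s + 1 / 2) := by
      unfold kz
      rw [map_add]
      linear_combination hs
    unfold E1
    rw [h6]
    field_simp
    ring

/-- the slope of the tangent -/
private theorem XAdd_tan (h1 : S_Exp) (h2 : S_ZadA) (h4 : S_XB) (h5 : S_Om) (z : ℂ)
    (hz : ¬ inO z) (hzz : ¬ inO (z + z)) :
    (zt (z + z) - zt z - zt z) * wp' z = (6 * wp z ^ 2 - LO.g₂ / 2) / 2 := by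
  obtain ⟨⟨r, r1, hr, -, hexp⟩, hder, -⟩ := h1
  obtain ⟨S, hS⟩ : ∃ S, S = zt (z + z) - zt z - zt z := ⟨_, rfl⟩
  obtain ⟨T, hT⟩ : ∃ T : ℂ → ℂ, T = fun w => zt (z + w) + zt (z - w) - 2 * zt z := ⟨_, rfl⟩
  rw [← hS]
  -- the good `w`
  have e1 : ∀ᶠ w in 𝓝[≠] (0 : ℂ), ¬ inO w := ev_inO 0
  have e2 : ∀ᶠ w in 𝓝[≠] (0 : ℂ), ¬ inO (z + w) := by
    filter_upwards [ev_add z 0] with w hw
    rwa [add_comm]
  have e3 : ∀ᶠ w in 𝓝[≠] (0 : ℂ), ¬ inO (z - w) := by
    filter_upwards [ev_aff (-1) z (by norm_num) 0] with w hw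
    have e : -1 * w + z = z - w := by ring
    rwa [e] at hw
  have e4 : ∀ᶠ w in 𝓝[≠] (0 : ℂ), w ≠ 0 := eventually_mem_nhdsWithin
  have hT1 : ∀ w, ¬ inO w → ¬ inO (z + w) → ¬ inO (z - w) →
      T w * (wp z - wp w) = wp' z := by
    intro w hw1 hw2 hw3
    have a1 := h2 z w hz hw1 hw2
    have a2 := h2 z (-w) hz (fun h => hw1 (inO_neg_iff.1 h)) (by rwa [← sub_eq_add_neg])
    rw [← sub_eq_add_neg, XAdd_odd h4 h5 w, wp_neg, wp'_neg] at a2
    rw [hT]
    linear_combination a1 + a2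
  have hT2 : ∀ w, ¬ inO w → ¬ inO (z + w) → ¬ inO (z - w) →
      (S - T w) * (wp (z + w) - wp (z - w)) = (wp' (z + w) - wp' (z - w)) / 2 := by
    intro w hw1 hw2 hw3
    have e : z + w + (z - w) = z + z := by ring
    have a1 := h2 (z + w) (z - w) hw2 hw3 (by rwa [e])
    rw [e] at a1
    rw [hT, hS]
    linear_combination a1
  -- limits
  have l1 : Tendsto (fun w : ℂ => w⁻¹ * (wp (z + w) - wp (z - w))) (𝓝[≠] 0)
      (𝓝 (2 * wp' z)) := by
    have d1 : HasDerivAt (fun w : ℂ => wp (z + w)) (wp' z) 0 := by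
      have d := (hasDerivAt_wp (z := z + 0) (by rwa [add_zero])).comp_const_add z 0
      rwa [add_zero] at d
    have d2 : HasDerivAt (fun w : ℂ => wp (z - w)) (-wp' z) 0 := by
      have d := (hasDerivAt_wp (z := z - 0) (by rwa [sub_zero])).comp_const_sub z 0
      rwa [sub_zero] at d
    have d3 := (hasDerivAt_iff_tendsto_slope_zero.1 (d1.fun_sub d2))
    refine (d3.congr' (Eventually.of_forall fun w => ?_)).trans_eq ?_
    · simp only [zero_add, add_zero, sub_zero, sub_self, smul_eq_mul]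
    · rw [sub_neg_eq_add, two_mul]
  have l2 : Tendsto (fun w : ℂ => w⁻¹ * (wp' (z + w) - wp' (z - w))) (𝓝[≠] 0)
      (𝓝 (2 * (6 * wp z ^ 2 - LO.g₂ / 2))) := by
    have d1 : HasDerivAt (fun w : ℂ => wp' (z + w)) (6 * wp z ^ 2 - LO.g₂ / 2) 0 := by
      have d := (hder (z + 0) (by rwa [add_zero])).comp_const_add z 0
      rwa [add_zero] at d
    have d2 : HasDerivAt (fun w : ℂ => wp' (z - w)) (-(6 * wp z ^ 2 - LO.g₂ / 2)) 0 := by
      have d := (hder (z - 0) (by rwa [sub_zero])).comp_const_sub z 0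
      rwa [sub_zero] at d
    have d3 := (hasDerivAt_iff_tendsto_slope_zero.1 (d1.fun_sub d2))
    refine (d3.congr' (Eventually.of_forall fun w => ?_)).trans_eq ?_
    · simp only [zero_add, add_zero, sub_zero, sub_self, smul_eq_mul]
    · rw [sub_neg_eq_add, two_mul]
  have l3 : Tendsto T (𝓝[≠] 0) (𝓝 0) := by
    obtain ⟨D, hD⟩ : ∃ D : ℂ → ℂ, D = fun w =>
      w ^ 2 * wp z - 1 - ca * w ^ 4 - cb * w ^ 6 - w ^ 8 * r w := ⟨_, rfl⟩
    have hDc : ContinuousAt D 0 := by
      have hrc := hr.continuousAt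
      rw [hD]
      exact (((((continuousAt_id.pow 2).mul continuousAt_const).sub continuousAt_const).sub
        (continuousAt_const.mul (continuousAt_id.pow 4))).sub
        (continuousAt_const.mul (continuousAt_id.pow 6))).sub ((continuousAt_id.pow 8).mul hrc)
    have hD0 : D 0 = -1 := by
      rw [hD]
      simp
    have hc : ContinuousAt (fun w => w ^ 2 * wp' z / D w) 0 :=
      ((continuousAt_id.pow 2).mul continuousAt_const).div hDc (by rw [hD0]; norm_num)
    have hc1 := hc.tendsto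
    have e5 : (0 : ℂ) ^ 2 * wp' z / D 0 = 0 := by simp
    simp only [e5] at hc1
    refine (hc1.mono_left nhdsWithin_le_nhds).congr' ?_
    have e6 : ∀ᶠ w in 𝓝[≠] (0 : ℂ), D w ≠ 0 :=
      (hDc.eventually_ne (by rw [hD0]; norm_num)).filter_mono nhdsWithin_le_nhds
    filter_upwards [e1, e2, e3, e4, e6] with w w1 w2 w3 w4 w6
    have h6 := hT1 w w1 w2 w3
    have h7 := (hexp w w4).1
    have h8 : w ^ 2 * (wp z - wp w) = D w := by
      rw [h7, hD]
      field_simp
      ring
    rw [div_eq_iff w6, ← h8]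
    linear_combination (-w ^ 2) * h6
  have l4 : Tendsto (fun w : ℂ => (S - T w) * (w⁻¹ * (wp (z + w) - wp (z - w)))) (𝓝[≠] 0)
      (𝓝 ((S - 0) * (2 * wp' z))) := (tendsto_const_nhds.sub l3).mul l1
  have l5 : Tendsto (fun w : ℂ => (w⁻¹ * (wp' (z + w) - wp' (z - w))) / 2) (𝓝[≠] 0)
      (𝓝 (2 * (6 * wp z ^ 2 - LO.g₂ / 2) / 2)) := l2.div_const 2
  have l6 : Tendsto (fun w : ℂ => (S - T w) * (w⁻¹ * (wp (z + w) - wp (z - w)))) (𝓝[≠] 0)
      (𝓝 (2 * (6 * wp z ^ 2 - LO.g₂ / 2) / 2)) := by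
    refine l5.congr' ?_
    filter_upwards [e1, e2, e3] with w w1 w2 w3
    have h6 := hT2 w w1 w2 w3
    linear_combination (-w⁻¹) * h6
  have h6 := tendsto_nhds_unique l4 l6
  linear_combination h6 / 2

/-- Addition formulas. -/
theorem tXAdd (h1 : S_Exp) (h2 : S_ZadA) (h3 : S_ZadB) (h4 : S_XB) (h5 : S_Om) : S_XAdd := by
  have hO : Om ≠ 0 := h5.1
  constructor
  · intro z z' hz hz' hzz hne
    refine XAdd_gen h2 h3 h4 h5 z z' (lam z z') hz hz' hzz ?_
    have h6 := h2 z z' hz hz' hzz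
    have h7 : X z - X z' ≠ 0 := sub_ne_zero.2 hne
    have h8 : wp z - wp z' = (X z - X z') * Om ^ 2 := by
      unfold X
      field_simp
      ring
    have h9 : wp' z - wp' z' = (W z - W z') * Om ^ 3 := by
      unfold W
      field_simp
    have h10 : lam z z' + 1 / 2 = (W z - W z') / (2 * (X z - X z')) := by
      unfold lam Y
      field_simp
      ring
    rw [h8, h9] at h6
    rw [h10]
    have h11 : (zt (z + z') - zt z - zt z') * ((X z - X z') * Om ^ 2) =
        Om * ((W z - W z') / (2 * (X z - X z'))) * ((X z - X z') * Om ^ 2) := by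
      rw [h6]
      field_simp
    exact mul_right_cancel₀ (mul_ne_zero h7 (pow_ne_zero 2 hO)) h11
  · intro z l hz hzz hl
    have hW : W z ≠ 0 := fun h => hzz ((h4.2.2.2.2.2.2.1 z hz).1 h)
    have hs : zt (z + z) - zt z - zt z = Om * (l + 1 / 2) := by
      have h6 := XAdd_tan h1 h2 h4 h5 z hz hzz
      have h7 : wp z = (X z - 1 / 4) * Om ^ 2 := by
        unfold X
        field_simp
        ring
      have h8 : wp' z = W z * Om ^ 3 := by
        unfold W
        field_simp
      have h9 : LO.g₂ = 35 / 4 * Om ^ 4 := by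
        rw [← h5.2.1]
        field_simp
      rw [h7, h8, h9] at h6
      have h10 : (zt (z + z) - zt z - zt z) * (W z * Om ^ 3) =
          Om * (l + 1 / 2) * (W z * Om ^ 3) := by
        rw [h6]
        have h11 : (l + 1 / 2) * W z = 3 * X z ^ 2 - 2 * X z - 2 - Y z + W z / 2 := by
          linear_combination hl
        have h12 : Om * (l + 1 / 2) * (W z * Om ^ 3) = (l + 1 / 2) * W z * Om ^ 4 := by ring
        rw [h12, h11, W_eq]
        ring
      exact mul_right_cancel₀ (mul_ne_zero hW (pow_ne_zero 3 hO)) h10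
    obtain ⟨g1, g2, g3⟩ := XAdd_gen h2 h3 h4 h5 z z l hz hz hzz hs
    refine ⟨?_, g2, ?_⟩
    · rw [g1]
      ring
    · rw [g3]
      ring

end DI
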