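import Pool.Agent.Lib.DI.B.Spec

/-! # Theorem DI, Part B, module XB: basic properties of X, W, Y, E1 -/

set_option autoImplicit false

namespace DI

open Complex Filter Topology

private theorem XB_per (z : ℂ) (v : O) :
    X (z + em v) = X z ∧ W (z + em v) = W z ∧ Y (z + em v) = Y z := by
  have h1 : X (z + em v) = X z := by
    unfold X
    rw [wp_add]
  have h2 : W (z + em v) = W z := by
    unfold W
    rw [wp'_add]
  refine ⟨h1, h2, ?_⟩
  unfold Y
  rw [h1, h2]

private theorem XB_X_neg (z : ℂ) : X (-z) = X z := by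
  unfold X
  rw [wp_neg]

private theorem XB_W_neg (z : ℂ) : W (-z) = -W z := by
  unfold W
  rw [wp'_neg, neg_div]

private theorem XB_Wsq (h4 : S_Om) {z : ℂ} (hz : ¬ inO z) :
    W z ^ 2 = 4 * X z ^ 3 - 3 * X z ^ 2 - 8 * X z - 4 := by
  obtain ⟨hO, hg2, hg3, -, -⟩ := h4
  have h1 : wp z = (X z - 1 / 4) * Om ^ 2 := by
    unfold X
    field_simp
    ring
  have h2 : LO.g₂ = 35 / 4 * Om ^ 4 := by
    rw [← hg2]
    field_simp
  have h3 : LO.g₃ = 49 / 8 * Om ^ 6 := by
    rw [← hg3]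
    field_simp
  have h5 : W z ^ 2 = wp' z ^ 2 / Om ^ 6 := by
    unfold W
    rw [div_pow]
    ring
  rw [h5, wp'_sq hz, h1, h2, h3]
  field_simp
  ring

private theorem XB_Xiff (hO : Om ≠ 0) (z z' : ℂ) : X z = X z' ↔ wp z = wp z' := by
  unfold X
  constructor
  · intro h
    have h1 : wp z / Om ^ 2 = wp z' / Om ^ 2 := add_right_cancel h
    exact (div_left_inj' (pow_ne_zero 2 hO)).1 h1
  · intro h
    rw [h]

private theorem XB_Wiff (hO : Om ≠ 0) (z : ℂ) : W z = 0 ↔ wp' z = 0 := by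
  unfold W
  rw [div_eq_zero_iff]
  constructor
  · rintro (h | h)
    · exact h
    · exact absurd h (pow_ne_zero 3 hO)
  · exact fun h => Or.inl h

/-- Basic properties. -/
theorem tXB (h1 : S_Inj) (h2 : S_Sur) (h3 : S_KB) (h4 : S_Om) : S_XB := by
  have hO : Om ≠ 0 := h4.1
  have hW : ∀ z : ℂ, ¬ inO z → (W z = 0 ↔ inO (z + z)) := by
    intro z hz
    rw [XB_Wiff hO]
    exact h1.2.1 z hz
  have hX : ∀ z z' : ℂ, ¬ inO z → ¬ inO z' → (X z = X z' ↔ inO (z - z') ∨ inO (z + z')) := by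
    intro z z' hz hz'
    rw [XB_Xiff hO]
    exact h1.1 z z' hz hz'
  refine ⟨XB_per, ?_, ?_, ?_, hX, ?_, hW, ?_⟩
  · intro z
    refine ⟨XB_X_neg z, XB_W_neg z, ?_, ?_⟩
    · unfold Y
      rw [XB_X_neg, XB_W_neg]
      ring
    · unfold E1
      rw [h3.2.2.1 z, neg_div]
  · intro z v hz
    unfold E1
    rw [h3.2.1 z v hz]
  · intro z hz
    have h5 := XB_Wsq h4 hz
    refine ⟨?_, h5⟩
    have h6 : Y z ^ 2 + X z * Y z = (W z ^ 2 - X z ^ 2) / 4 := by
      unfold Y
      ring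
    rw [h6, h5]
    ring
  · intro z z' hz hz' hx hy
    have hw : W z = W z' := by rw [W_eq, W_eq, hx, hy]
    rcases (hX z z' hz hz').1 hx with h | h
    · exact h
    · have h5 : wp' z = wp' (-z') := wp'_congr (by rwa [sub_neg_eq_add])
      have h6 : W z = -W z' := by
        rw [← XB_W_neg]
        unfold W
        rw [h5]
      have h7 : W z = 0 := by
        have h8 : 2 * W z = 0 := by rw [two_mul]; nth_rewrite 2 [h6]; rw [hw]; ring
        rcases mul_eq_zero.1 h8 with h9 | h9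
        · norm_num at h9
        · exact h9
      have h8 := inO_sub ((hW z hz).1 h7) h
      have h9 : z + z - (z + z') = z - z' := by ring
      rwa [h9] at h8
  · intro x y hxy
    obtain ⟨z, hz, hwz⟩ := h2 ((x - 1 / 4) * Om ^ 2)
    have hx : X z = x := by
      unfold X
      rw [hwz]
      field_simp
      ring
    have h5 : W z ^ 2 = (2 * y + x) ^ 2 := by
      rw [XB_Wsq h4 hz, hx]
      linear_combination -4 * hxy
    rcases sq_eq_sq_iff_eq_or_eq_neg.1 h5 with h6 | h6
    · refine ⟨z, hz, hx, ?_⟩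
      unfold Y
      rw [h6, hx]
      ring
    · refine ⟨-z, fun h => hz (inO_neg_iff.1 h), ?_, ?_⟩
      · rw [XB_X_neg, hx]
      · unfold Y
        rw [XB_X_neg, XB_W_neg, h6, hx]
        ring

end DI
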