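import Pool.Agent.Lib.DI.B.Spec

/-! # Theorem DI, Part B, module XC: complex conjugation -/

set_option autoImplicit false

namespace DI

open Complex Filter Topology

theorem tXC (h1 : S_Cj) (h2 : S_KB) (h3 : S_Om) : S_XC := by
  obtain ⟨hOm, -, -, -, s, hs, hcs⟩ := h3
  obtain ⟨c1, c2, -, -, -⟩ := h1
  obtain ⟨-, -, k3, k4, -⟩ := h2
  have hX : ∀ z : ℂ, (starRingEnd ℂ) (X z) = X ((starRingEnd ℂ) z) := by
    intro z
    unfold X
    rw [map_add, map_div₀, map_pow, hcs, c1]
    have e1 : (starRingEnd ℂ) (1 / 4 : ℂ) = 1 / 4 := by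
      rw [map_div₀, map_one, map_ofNat]
    rw [e1]
    rcases hs with rfl | rfl <;> push_cast <;> ring
  have hW : ∀ z : ℂ, (starRingEnd ℂ) (W z) = s * W ((starRingEnd ℂ) z) := by
    intro z
    unfold W
    rw [map_div₀, map_pow, hcs, c2]
    rcases hs with rfl | rfl
    · push_cast
      ring
    · push_cast
      field_simp
  have e2 : (starRingEnd ℂ) (2 : ℂ) = 2 := map_ofNat _ 2
  refine ⟨s, hs, hcs, fun z => ⟨hX z, hW z, ?_, ?_⟩⟩
  · unfold Y
    rw [map_div₀, map_sub, hX, hW, e2]
    rcases hs with rfl | rfl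
    · push_cast
      rw [one_mul, one_mul]
    · push_cast
      have e3 : W (-1 * (starRingEnd ℂ) z) = - W ((starRingEnd ℂ) z) := by
        rw [neg_one_mul]
        unfold W
        rw [wp'_neg]
        ring
      have e4 : X (-1 * (starRingEnd ℂ) z) = X ((starRingEnd ℂ) z) := by
        rw [neg_one_mul]
        unfold X
        rw [wp_neg]
      rw [e3, e4]
      ring
  · intro hz
    unfold E1
    rw [map_div₀, hcs, ← k4 z hz]
    rcases hs with rfl | rfl
    · push_cast
      rw [one_mul, one_mul]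
    · push_cast
      rw [neg_one_mul, neg_one_mul, k3]
      ring

end DI
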