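import Pool.Agent.Lib.DI.B.Spec

/-! # Theorem DI, Part B: the isogenies `π` and its conjugate -/

set_option autoImplicit false

namespace DI

open Complex Filter Topology

private theorem XMul_D {p q X0 X1 W0 W1 : ℂ} (hp : p ^ 2 = p - 2) (hq : q = 1 - p) (hp0 : p ≠ 0)
    (hB : X1 * (p ^ 2 * X0 - q) = X0 ^ 2 - p)
    (hC : p ^ 3 * W1 * (p ^ 2 * X0 - q) ^ 2 = W0 * ((p ^ 2 * X0 - q) ^ 2 + 7)) :
    (W1 - X1) / 2 * (p ^ 2 * X0 - q) ^ 2 =
      (W0 - X0) / 2 * (p * X0 ^ 2 - q ^ 2 * X0 + p ^ 2) + X0 ^ 3 + X0 ^ 2 - 2 * X0 - 1 := by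
  subst hq
  have hA : (p ^ 2 * X0 - (1 - p)) ^ 2 + 7 =
      p ^ 3 * (p * X0 ^ 2 - (1 - p) ^ 2 * X0 + p ^ 2) := by
    linear_combination (4 - X0 * p ^ 2 + X0 * p ^ 3 + p - p ^ 2 - p ^ 3) * hp
  have hW : W1 * (p ^ 2 * X0 - (1 - p)) ^ 2 = W0 * (p * X0 ^ 2 - (1 - p) ^ 2 * X0 + p ^ 2) := by
    refine mul_left_cancel₀ (pow_ne_zero 3 hp0) ?_
    rw [hA] at hC
    linear_combination hC
  linear_combination (1 / 2) * hW - (1 / 2) * (p ^ 2 * X0 - (1 - p)) * hB +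
    (1 / 2 + X0 + X0 * p / 2 - X0 ^ 2 / 2 - X0 ^ 3 / 2) * hp

private theorem XMul_BC {p x x' w w' X1 W1 : ℂ} (hp : p ^ 2 = p - 2) (hp0 : p ≠ 0)
    (hx : x - (p - 4) / 4 ≠ 0)
    (r1 : (x' - (p - 4) / 4) * (x - (p - 4) / 4) = 3 * ((p - 4) / 4) ^ 2 - 35 / 16)
    (r2 : w' * (x - (p - 4) / 4) + (x' - (p - 4) / 4) * w = 0)
    (r3 : p ^ 2 * (X1 - 1 / 4) = x + x' - (p - 4) / 4) (r4 : p ^ 3 * W1 = w + w') :
    p ^ 2 * (x + 1 / 4) - (1 - p) ≠ 0 ∧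
    X1 * (p ^ 2 * (x + 1 / 4) - (1 - p)) = (x + 1 / 4) ^ 2 - p ∧
    p ^ 3 * W1 * (p ^ 2 * (x + 1 / 4) - (1 - p)) ^ 2 =
      w * ((p ^ 2 * (x + 1 / 4) - (1 - p)) ^ 2 + 7) := by
  have hD : p ^ 2 * (x + 1 / 4) - (1 - p) = p ^ 2 * (x - (p - 4) / 4) := by
    linear_combination (-1 / 2 + p / 4) * hp
  refine ⟨?_, ?_, ?_⟩
  · rw [hD]
    exact mul_ne_zero (pow_ne_zero 2 hp0) hx
  · linear_combination X1 * hD + (x - (p - 4) / 4) * r3 + r1 + (3 / 8 - p / 16 + x / 4) * hp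
  · rw [hD]
    have h7 : w' * (p ^ 2 * (x - (p - 4) / 4)) ^ 2 = 7 * w := by
      linear_combination (p ^ 4 * (x - (p - 4) / 4)) * r2 - p ^ 4 * w * r1 +
        (-7 / 4 * p * w + 7 / 8 * p ^ 2 * w + 21 / 16 * p ^ 3 * w - 3 / 16 * p ^ 4 * w -
          7 / 2 * w) * hp
    linear_combination (p ^ 2 * (x - (p - 4) / 4)) ^ 2 * r4 + h7

private theorem XMul_pw (h1 : S_MulA) (h2 : S_MulB) (h3 : S_XB) (h4 : S_Om) {z : ℂ}
    (hz : ¬ inO z) (hpz : ¬ inO (pw * z)) :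
    pw ^ 2 * X z - qw ≠ 0 ∧
    X (pw * z) * (pw ^ 2 * X z - qw) = X z ^ 2 - pw ∧
    pw ^ 3 * W (pw * z) * (pw ^ 2 * X z - qw) ^ 2 = W z * ((pw ^ 2 * X z - qw) ^ 2 + 7) := by
  obtain ⟨hO, hg2, -, het, -⟩ := h4
  have hzt : ¬ inO (z + 1 / pw) := by
    intro h
    have h5 := inO_sub (inO_pw h) inO_one
    rw [mul_add, mul_one_div_cancel pw_ne, add_sub_cancel_right] at h5
    exact hpz h5
  have hzt' : ¬ inO (z - 1 / pw) := by
    intro h
    have h5 := inO_add (inO_pw h) inO_one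
    rw [mul_sub, mul_one_div_cancel pw_ne, sub_add_cancel] at h5
    exact hpz h5
  have htt : inO (1 / pw + 1 / pw) := by
    rw [two_div_pw]
    exact inO_qw_self
  obtain ⟨a1, a2⟩ := h1 z hz hzt
  obtain ⟨b1, b2⟩ := h2 (1 / pw) notO_t htt z hz hzt
  have hX : X z ≠ X (1 / pw) := by
    intro h
    rcases (h3.2.2.2.2.1 z (1 / pw) hz notO_t).1 h with h5 | h5
    · exact hzt' h5
    · exact hzt h5
  have e1 : wp (1 / pw) = (pw - 4) / 4 * Om ^ 2 := by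
    have : et = (pw - 4) / 4 * Om ^ 2 := by
      rw [← het, div_mul_cancel₀ _ (pow_ne_zero 2 hO)]
    exact this
  have e2 : LO.g₂ = 35 / 4 * Om ^ 4 := by
    rw [← hg2, div_mul_cancel₀ _ (pow_ne_zero 4 hO)]
  have x0 : wp z = (X z - 1 / 4) * Om ^ 2 := by
    unfold X
    rw [add_sub_cancel_right, div_mul_cancel₀ _ (pow_ne_zero 2 hO)]
  have x1 : wp (z + 1 / pw) = (X (z + 1 / pw) - 1 / 4) * Om ^ 2 := by
    unfold X
    rw [add_sub_cancel_right, div_mul_cancel₀ _ (pow_ne_zero 2 hO)]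
  have x2 : wp (pw * z) = (X (pw * z) - 1 / 4) * Om ^ 2 := by
    unfold X
    rw [add_sub_cancel_right, div_mul_cancel₀ _ (pow_ne_zero 2 hO)]
  have w0 : wp' z = W z * Om ^ 3 := by
    unfold W
    rw [div_mul_cancel₀ _ (pow_ne_zero 3 hO)]
  have w1 : wp' (z + 1 / pw) = W (z + 1 / pw) * Om ^ 3 := by
    unfold W
    rw [div_mul_cancel₀ _ (pow_ne_zero 3 hO)]
  have w2 : wp' (pw * z) = W (pw * z) * Om ^ 3 := by
    unfold W
    rw [div_mul_cancel₀ _ (pow_ne_zero 3 hO)]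
  have t0 : X (1 / pw) - 1 / 4 = (pw - 4) / 4 := by
    unfold X
    rw [add_sub_cancel_right, e1, mul_div_cancel_right₀ _ (pow_ne_zero 2 hO)]
  rw [x0, x1, e1, e2] at b1
  rw [x0, x1, w0, w1, e1] at b2
  rw [x0, x1, x2, e1] at a1
  rw [w0, w1, w2] at a2
  have key := XMul_BC (p := pw) (x := X z - 1 / 4) (x' := X (z + 1 / pw) - 1 / 4) (w := W z)
    (w' := W (z + 1 / pw)) (X1 := X (pw * z)) (W1 := W (pw * z)) pw_sq pw_ne
    (by
      rw [← t0]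
      intro h
      apply hX
      linear_combination h)
    (by
      refine mul_right_cancel₀ (pow_ne_zero 4 hO) ?_
      linear_combination b1)
    (by
      refine (mul_eq_zero.1 ?_).resolve_right (pow_ne_zero 5 hO)
      linear_combination b2)
    (by
      refine mul_right_cancel₀ (pow_ne_zero 2 hO) ?_
      linear_combination a1)
    (by
      refine mul_right_cancel₀ (pow_ne_zero 3 hO) ?_
      linear_combination a2)
  rw [sub_add_cancel] at key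
  exact key

theorem tXMul (h1 : S_MulA) (h2 : S_MulB) (h3 : S_XB) (h4 : S_Om) (h5 : S_XC) : S_XMul := by
  have main : ∀ p q : ℂ, p ^ 2 = p - 2 → q = 1 - p → p ≠ 0 → ∀ z : ℂ,
      (p ^ 2 * X z - q ≠ 0 ∧
      X (p * z) * (p ^ 2 * X z - q) = X z ^ 2 - p ∧
      p ^ 3 * W (p * z) * (p ^ 2 * X z - q) ^ 2 = W z * ((p ^ 2 * X z - q) ^ 2 + 7)) →
      p ^ 2 * X z - q ≠ 0 ∧
      X (p * z) * (p ^ 2 * X z - q) = X z ^ 2 - p ∧
      p ^ 3 * W (p * z) * (p ^ 2 * X z - q) ^ 2 = W z * ((p ^ 2 * X z - q) ^ 2 + 7) ∧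
      Y (p * z) * (p ^ 2 * X z - q) ^ 2 =
        Y z * (p * X z ^ 2 - q ^ 2 * X z + p ^ 2) + X z ^ 3 + X z ^ 2 - 2 * X z - 1 := by
    intro p q hp hq hp0 z h
    exact ⟨h.1, h.2.1, h.2.2, XMul_D hp hq hp0 h.2.1 h.2.2⟩
  have hqs : qw ^ 2 = qw - 2 := by
    rw [qw_eq]
    linear_combination pw_sq
  rintro p q (⟨rfl, rfl⟩ | ⟨rfl, rfl⟩) z hz hpz
  · exact main pw qw pw_sq qw_eq pw_ne z (XMul_pw h1 h2 h3 h4 hz hpz)
  · refine main qw pw hqs (by rw [qw_eq]; ring) qw_ne z ?_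
    obtain ⟨s, hs, -, hc⟩ := h5
    have hs0 : (s : ℂ) ≠ 0 := by
      rcases hs with rfl | rfl
      · norm_num
      · norm_num
    have hu : ¬ inO ((starRingEnd ℂ) z) := fun h => hz (inO_conj_iff.1 h)
    have hpu : (starRingEnd ℂ) (pw * (starRingEnd ℂ) z) = qw * z := by
      rw [map_mul, conj_pw, Complex.conj_conj]
    have hpu' : ¬ inO (pw * (starRingEnd ℂ) z) := by
      intro h
      have := inO_conj h
      rw [hpu] at this
      exact hpz this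
    obtain ⟨k1, k2, k3⟩ := XMul_pw h1 h2 h3 h4 hu hpu'
    have cX : (starRingEnd ℂ) (X ((starRingEnd ℂ) z)) = X z := by
      rw [(hc _).1, Complex.conj_conj]
    have cX1 : (starRingEnd ℂ) (X (pw * (starRingEnd ℂ) z)) = X (qw * z) := by
      rw [(hc _).1, hpu]
    have cW : (starRingEnd ℂ) (W ((starRingEnd ℂ) z)) = s * W z := by
      rw [(hc _).2.1, Complex.conj_conj]
    have cW1 : (starRingEnd ℂ) (W (pw * (starRingEnd ℂ) z)) = s * W (qw * z) := by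
      rw [(hc _).2.1, hpu]
    have cD : (starRingEnd ℂ) (pw ^ 2 * X ((starRingEnd ℂ) z) - qw) = qw ^ 2 * X z - pw := by
      rw [map_sub, map_mul, map_pow, conj_pw, conj_qw, cX]
    refine ⟨?_, ?_, ?_⟩
    · rw [← cD]
      exact fun h => k1 (by rwa [map_eq_zero] at h)
    · have e := congrArg (starRingEnd ℂ) k2
      rw [map_mul, cD, cX1, map_sub, map_pow, cX, conj_pw] at e
      exact e
    · have e := congrArg (starRingEnd ℂ) k3
      rw [map_mul, map_mul, map_pow, map_pow, conj_pw, cW1, cD, map_mul, cW, map_add, map_pow, cD] at e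
      have e7 : (starRingEnd ℂ) (7 : ℂ) = 7 := map_ofNat _ 7
      rw [e7] at e
      refine mul_left_cancel₀ hs0 ?_
      linear_combination e

end DI
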