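import Pool.Agent.Lib.DI.B.Spec

/-! # Theorem DI, Part B, module `ZadA`: the first addition formula of `zt` -/

set_option autoImplicit false

namespace DI

open Complex Filter Topology

theorem ZadA_shift (f : ℂ → ℂ) (a c : ℂ) (h : Tendsto (fun u => f (a + u)) (𝓝[≠] 0) (𝓝 c)) :
    Tendsto f (𝓝[≠] a) (𝓝 c) := by
  have h1 : Tendsto (fun u : ℂ => u - a) (𝓝[≠] a) (𝓝[≠] 0) := by
    refine tendsto_nhdsWithin_of_tendsto_nhds_of_eventually_within _ ?_ ?_
    · have h2 : Tendsto (fun u : ℂ => u - a) (𝓝 a) (𝓝 (a - a)) :=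
        (continuous_id.sub continuous_const).tendsto a
      rw [sub_self] at h2
      exact h2.mono_left nhdsWithin_le_nhds
    · rw [eventually_nhdsWithin_iff]
      exact Eventually.of_forall fun u hu h1 => hu (sub_eq_zero.1 h1)
  refine (h.comp h1).congr fun u => ?_
  simp only [Function.comp_apply, add_sub_cancel]

theorem ZadA_lim (f G : ℂ → ℂ) (hG : ContinuousAt G 0) (h : ∀ u, u ≠ 0 → f u = u * G u) :
    Tendsto f (𝓝[≠] 0) (𝓝 0) := by
  have h1 : Tendsto (fun u : ℂ => u * G u) (𝓝 0) (𝓝 0) := by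
    have h2 := (continuous_id.tendsto (0 : ℂ)).mul hG.tendsto
    simpa only [id, zero_mul] using h2
  refine (h1.mono_left nhdsWithin_le_nhds).congr' ?_
  rw [EventuallyEq, eventually_nhdsWithin_iff]
  exact Eventually.of_forall fun u hu => (h u hu).symm

/-- The expansion of `zt` at a point `c` which is not in the lattice. -/
theorem ZadA_zt (h2 : S_Tay) (h4 : S_Zet) (c : ℂ) (hc : ¬ inO c) :
    ∃ r : ℂ → ℂ, AnalyticAt ℂ r 0 ∧ ∀ h, zt (c + h) =
      zt c - wp c * h - wp' c / 2 * h ^ 2 + h ^ 3 * r h := by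
  have hev : ∀ᶠ u in 𝓝 c, deriv zt u = -wp u := by
    filter_upwards [ev_notO hc] with u hu
    exact (h4.1 u hu).deriv
  have han : AnalyticAt ℂ zt c := by
    rw [Complex.analyticAt_iff_eventually_differentiableAt]
    filter_upwards [ev_notO hc] with u hu
    exact (h4.1 u hu).differentiableAt
  obtain ⟨r, hr, h⟩ := h2 zt c han 3
  refine ⟨r, hr, fun u => ?_⟩
  rw [h u]
  have e1 : iteratedDeriv 1 zt c = -wp c := by
    rw [iteratedDeriv_one]
    exact hev.self_of_nhds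
  have e2 : iteratedDeriv 2 zt c = -wp' c := by
    rw [iteratedDeriv_succ, iteratedDeriv_one]
    rw [Filter.EventuallyEq.deriv_eq hev]
    exact (hasDerivAt_wp hc).neg.deriv
  rw [Finset.sum_range_succ, Finset.sum_range_succ, Finset.sum_range_one, e1, e2,
    iteratedDeriv_zero, Nat.factorial_zero, Nat.factorial_one, Nat.factorial_two]
  push_cast
  ring

/-- The function of the proof. -/
noncomputable def ZadA_f (z' u : ℂ) : ℂ :=
  (zt (u + z') - zt u - zt z') * (wp u - wp z') - (wp' u - wp' z') / 2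

theorem ZadA_diff (h4 : S_Zet) (z' u : ℂ) (hu : ¬ inO u) (hu' : ¬ inO (u + z')) :
    DifferentiableAt ℂ (ZadA_f z') u := by
  have a1 : DifferentiableAt ℂ (fun u => zt (u + z')) u :=
    ((h4.1 _ hu').comp_add_const u z').differentiableAt
  have a2 : DifferentiableAt ℂ zt u := (h4.1 u hu).differentiableAt
  have a3 : DifferentiableAt ℂ wp u := (hasDerivAt_wp hu).differentiableAt
  have a4 : DifferentiableAt ℂ wp' u := (analyticAt_wp' hu).differentiableAt
  unfold ZadA_f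
  exact (((a1.sub a2).sub_const _).mul (a3.sub_const _)).sub ((a4.sub_const _).div_const _)

theorem ZadA_per (h4 : S_Zet) (z' u : ℂ) (v : O) (hu : ¬ inO u) (hu' : ¬ inO (u + z')) :
    ZadA_f z' (u + em v) = ZadA_f z' u := by
  unfold ZadA_f
  have e : u + em v + z' = u + z' + em v := by ring
  rw [e, h4.2.2.1 _ v hu', h4.2.2.1 _ v hu, wp_add, wp'_add]
  ring

theorem ZadA_zero (h2 : S_Tay) (h3 : S_Exp) (h4 : S_Zet) (z' : ℂ) (hz' : ¬ inO z') :
    Tendsto (ZadA_f z') (𝓝[≠] 0) (𝓝 0) := by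
  obtain ⟨ρ, hρ, e1⟩ := ZadA_zt h2 h4 z' hz'
  obtain ⟨q, hq, e2⟩ := h4.2.2.2
  obtain ⟨r, r1, hr, hr1, e3⟩ := h3.1
  have cρ := hρ.continuousAt
  have cq := hq.continuousAt
  have cr := hr.continuousAt
  have cr1 := hr1.continuousAt
  refine ZadA_lim _ (fun h => -2 * ca - 3 * cb * h ^ 2 - h ^ 4 * r h + wp z' ^ 2
    - wp z' * ca * h ^ 2 - wp z' * cb * h ^ 4 - wp z' * h ^ 6 * r h
    + wp z' * wp' z' / 2 * h - wp' z' / 2 * ca * h ^ 3 - wp' z' / 2 * cb * h ^ 5
    - wp' z' / 2 * h ^ 7 * r h + (ρ h - q h) * (1 - wp z' * h ^ 2 + ca * h ^ 4 + cb * h ^ 6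
    + h ^ 8 * r h) - h ^ 4 * r1 h / 2) ?_ ?_
  · fun_prop
  · intro h hh
    unfold ZadA_f
    rw [add_comm h z', e1 h, e2 h hh, (e3 h hh).1, (e3 h hh).2]
    field_simp
    ring

theorem ZadA_cont (a b c d : ℂ) (S T R Q : ℂ → ℂ) (hS : ContinuousAt S 0)
    (hT : ContinuousAt T 0) (hR : ContinuousAt R 0) (hQ : ContinuousAt Q 0) :
    ContinuousAt (fun h => h * (-S h + T h / 2 + (a - b * h + h ^ 2 * (Q h - R h)) *
      (c + d * h - h ^ 2 * S h))) 0 := by
  fun_prop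

theorem ZadA_neg (h2 : S_Tay) (h3 : S_Exp) (h4 : S_Zet) (z' : ℂ) (hz' : ¬ inO z') :
    Tendsto (ZadA_f z') (𝓝[≠] (-z')) (𝓝 0) := by
  obtain ⟨ρ, hρ, e1⟩ := ZadA_zt h2 h4 z' hz'
  obtain ⟨q, hq, e2⟩ := h4.2.2.2
  obtain ⟨s, s1, hs, hs1, e3⟩ := h3.2.2 z' hz'
  have hn : ContinuousAt (fun h : ℂ => -h) 0 := continuousAt_id.neg
  have cρ : ContinuousAt (fun h => ρ (-h)) 0 :=
    ContinuousAt.comp (by rw [neg_zero]; exact hρ.continuousAt) hn
  have cq := hq.continuousAt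
  have cs : ContinuousAt (fun h => s (-h)) 0 :=
    ContinuousAt.comp (by rw [neg_zero]; exact hs.continuousAt) hn
  have cs1 : ContinuousAt (fun h => s1 (-h)) 0 :=
    ContinuousAt.comp (by rw [neg_zero]; exact hs1.continuousAt) hn
  refine ZadA_shift _ _ _ (ZadA_lim _ (fun h => h * (-s (-h) + s1 (-h) / 2 +
    (wp z' - wp' z' / 2 * h + h ^ 2 * (q h - ρ (-h))) *
    (-wp' z' + (3 * wp z' ^ 2 - LO.g₂ / 4) * h - h ^ 2 * s (-h)))) ?_ ?_)
  · exact ZadA_cont _ _ _ _ _ _ _ _ cs cs1 cρ cq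
  · intro h hh
    unfold ZadA_f
    have f1 : -z' + h = -(z' + -h) := by ring
    have f2 : -z' + h + z' = h := by ring
    rw [f2, f1, h4.2.1, wp_neg, wp'_neg, e1 (-h), e2 h hh, (e3 (-h)).1, (e3 (-h)).2]
    field_simp
    ring

theorem tZadA (h1 : S_Lio) (h2 : S_Tay) (h3 : S_Exp) (h4 : S_Zet) : S_ZadA := by
  intro z z' hz hz' hzz
  obtain ⟨c, hc⟩ := h1 (ZadA_f z') (fun z₀ => by
      filter_upwards [ev_inO z₀, ev_add z' z₀] with u hu hu'
      exact ZadA_diff h4 z' u hu hu')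
    (fun z₀ => by
      by_cases h5 : inO z₀
      · obtain ⟨v, hv⟩ := inO_iff.1 h5
        refine ⟨-v, 0, ?_⟩
        rw [map_neg, hv, add_neg_cancel]
        exact ZadA_zero h2 h3 h4 z' hz'
      by_cases h6 : inO (z₀ + z')
      · obtain ⟨v, hv⟩ := inO_iff.1 h6
        refine ⟨-v, 0, ?_⟩
        have h7 : z₀ + em (-v) = -z' := by
          rw [map_neg, hv]
          ring
        rw [h7]
        exact ZadA_neg h2 h3 h4 z' hz'
      · refine ⟨0, ZadA_f z' z₀, ?_⟩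
        rw [map_zero, add_zero]
        exact (ZadA_diff h4 z' z₀ h5 h6).continuousAt.tendsto.mono_left nhdsWithin_le_nhds)
    (fun v z₀ => by
      filter_upwards [ev_inO z₀, ev_add z' z₀] with u hu hu'
      exact ZadA_per h4 z' u v hu hu')
  have h5 : c = 0 := tendsto_nhds_unique (hc 0) (ZadA_zero h2 h3 h4 z' hz')
  have h6 : c = ZadA_f z' z := tendsto_nhds_unique (hc z)
    ((ZadA_diff h4 z' z hz hzz).continuousAt.tendsto.mono_left nhdsWithin_le_nhds)
  rw [h5] at h6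
  unfold ZadA_f at h6
  linear_combination -h6

end DI
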