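import Pool.Agent.Lib.DI.B.Spec

set_option autoImplicit false

/-! # Theorem DI, Part B: the addition theorem, second part (`S_ZadB`) -/

namespace DI

open Complex Filter Topology

private noncomputable def ZadB_f (z' u : ℂ) : ℂ :=
  (zt (u + z') - zt u - zt z') ^ 2 - wp (u + z') - wp u - wp z'

private lemma ZadB_diff (h4 : S_Zet) {z' u : ℂ} (h : ¬ inO u) (h' : ¬ inO (u + z')) :
    DifferentiableAt ℂ (ZadB_f z') u := by
  have d1 : DifferentiableAt ℂ zt u := (h4.1 u h).differentiableAt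
  have d2 : DifferentiableAt ℂ (fun x => zt (x + z')) u :=
    ((h4.1 _ h').comp_add_const u z').differentiableAt
  have d3 : DifferentiableAt ℂ wp u := (hasDerivAt_wp h).differentiableAt
  have d4 : DifferentiableAt ℂ (fun x => wp (x + z')) u :=
    ((hasDerivAt_wp h').comp_add_const u z').differentiableAt
  exact (((((d2.sub d1).sub_const _).pow 2).sub d4).sub d3).sub_const _

private lemma ZadB_zero (h2 : S_Tay) (h3 : S_Exp) (h4 : S_Zet) {z' : ℂ} (hz : ¬ inO z') :
    Tendsto (ZadB_f z') (𝓝[≠] 0) (𝓝 0) := by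
  have hzt : AnalyticAt ℂ zt z' := by
    have ho : {z : ℂ | ¬ inO z} ∈ 𝓝 z' := isOpen_notO.mem_nhds hz
    exact DifferentiableOn.analyticAt
      (fun z hz => (h4.1 z hz).differentiableAt.differentiableWithinAt) ho
  obtain ⟨ρ, hρ, eρ⟩ := h2 zt z' hzt 2
  obtain ⟨hd, -, -, r2, hr2, er2⟩ := h4
  obtain ⟨⟨r, r1, hr, -, er⟩, -, -⟩ := h3
  have k1 : ContinuousAt ρ 0 := hρ.continuousAt
  have k2 : ContinuousAt r2 0 := hr2.continuousAt
  have k3 : ContinuousAt r 0 := hr.continuousAt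
  have k4 : ContinuousAt (fun h => wp (h + z')) 0 := by
    have h1 : ContinuousAt wp (0 + z') := by
      rw [zero_add]
      exact (hasDerivAt_wp hz).continuousAt
    exact ContinuousAt.comp (f := fun h : ℂ => h + z') h1 (by fun_prop)
  have hF : ContinuousAt (fun h : ℂ => -2 * (-wp z' + h * ρ h - h ^ 2 * r2 h) +
      h ^ 2 * (-wp z' + h * ρ h - h ^ 2 * r2 h) ^ 2 - wp (h + z') - ca * h ^ 2 - cb * h ^ 4 -
      h ^ 6 * r h - wp z') 0 := by
    fun_prop
  have hF' := hF.tendsto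
  have h0 : (-2 * (-wp z' + 0 * ρ 0 - 0 ^ 2 * r2 0) +
      (0 : ℂ) ^ 2 * (-wp z' + 0 * ρ 0 - 0 ^ 2 * r2 0) ^ 2 - wp (0 + z') - ca * 0 ^ 2 - cb * 0 ^ 4 -
      0 ^ 6 * r 0 - wp z') = 0 := by
    rw [zero_add]
    ring
  rw [h0] at hF'
  refine (hF'.mono_left nhdsWithin_le_nhds).congr' ?_
  filter_upwards [self_mem_nhdsWithin] with h hh
  have hh' : h ≠ 0 := hh
  have e1 : zt (h + z') = zt z' - wp z' * h + h ^ 2 * ρ h := by
    rw [add_comm h z', eρ h, Finset.sum_range_succ, Finset.sum_range_one, iteratedDeriv_zero,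
      iteratedDeriv_one, (hd z' hz).deriv]
    simp only [Nat.factorial, Nat.cast_one, div_one, pow_zero, mul_one, pow_one]
    ring
  unfold ZadB_f
  rw [e1, er2 h hh', (er h hh').1]
  field_simp
  ring

private lemma ZadB_symm (h4 : S_Zet) (z' u : ℂ) : ZadB_f z' (-z' - u) = ZadB_f z' u := by
  unfold ZadB_f
  have e1 : -z' - u + z' = -u := by ring
  have e2 : -z' - u = -(u + z') := by ring
  rw [e1, e2, h4.2.1, h4.2.1, wp_neg, wp_neg]
  ring

private lemma ZadB_neg (h2 : S_Tay) (h3 : S_Exp) (h4 : S_Zet) {z' : ℂ} (hz : ¬ inO z') :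
    Tendsto (ZadB_f z') (𝓝[≠] (-z')) (𝓝 0) := by
  have h : Tendsto (fun u : ℂ => -z' - u) (𝓝[≠] (-z')) (𝓝[≠] 0) := by
    refine tendsto_nhdsWithin_of_tendsto_nhds_of_eventually_within _ ?_ ?_
    · have h1 : Tendsto (fun u : ℂ => -z' - u) (𝓝 (-z')) (𝓝 (-z' - -z')) :=
        (by fun_prop : Continuous fun u : ℂ => -z' - u).tendsto (-z')
      rw [sub_self] at h1
      exact h1.mono_left nhdsWithin_le_nhds
    · rw [eventually_nhdsWithin_iff]
      refine Eventually.of_forall fun u hu h1 => hu ?_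
      exact (sub_eq_zero.1 h1).symm
  refine ((ZadB_zero h2 h3 h4 hz).comp h).congr fun u => ?_
  exact ZadB_symm h4 z' u

private lemma ZadB_per (h4 : S_Zet) {z' u : ℂ} (v : O) (h : ¬ inO u) (h' : ¬ inO (u + z')) :
    ZadB_f z' (u + em v) = ZadB_f z' u := by
  unfold ZadB_f
  have e1 : u + em v + z' = u + z' + em v := by ring
  rw [e1, h4.2.2.1 _ v h, h4.2.2.1 _ v h', wp_add, wp_add]
  ring

theorem tZadB (h1 : S_Lio) (h2 : S_Tay) (h3 : S_Exp) (h4 : S_Zet) : S_ZadB := by
  intro z z' hz hz' hzz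
  obtain ⟨c, hc⟩ := h1 (ZadB_f z')
    (fun x => by
      filter_upwards [ev_inO x, ev_add z' x] with u hu hu'
      exact ZadB_diff h4 hu hu')
    (fun x => by
      by_cases hx : inO x
      · obtain ⟨v, rfl⟩ := inO_iff.1 hx
        refine ⟨-v, 0, ?_⟩
        rw [map_neg, add_neg_cancel]
        exact ZadB_zero h2 h3 h4 hz'
      · by_cases hx' : inO (x + z')
        · obtain ⟨v, hv⟩ := inO_iff.1 hx'
          refine ⟨-v, 0, ?_⟩
          have e : x + em (-v) = -z' := by
            rw [map_neg, hv]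
            ring
          rw [e]
          exact ZadB_neg h2 h3 h4 hz'
        · refine ⟨0, ZadB_f z' x, ?_⟩
          rw [map_zero, add_zero]
          exact (ZadB_diff h4 hx hx').continuousAt.tendsto.mono_left nhdsWithin_le_nhds)
    (fun v x => by
      filter_upwards [ev_inO x, ev_add z' x] with u hu hu'
      exact ZadB_per h4 v hu hu')
  have h0 : c = 0 := tendsto_nhds_unique (hc 0) (ZadB_zero h2 h3 h4 hz')
  have h5 : ZadB_f z' z = 0 := by
    rw [← h0]
    exact tendsto_nhds_unique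
      ((ZadB_diff h4 hz hzz).continuousAt.tendsto.mono_left nhdsWithin_le_nhds) (hc z)
  unfold ZadB_f at h5
  linear_combination h5

end DI
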