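import Pool.Agent.Lib.DI.B.Spec

/-! # Theorem DI, Part B, module `ZetB`: the quasi-periods of `zt` -/

set_option autoImplicit false

namespace DI

open Complex Filter Topology

/-- `η v`, the value of `zt (z + em v) - zt z` at `z = 1/2`. -/
noncomputable def ZetB_eta (v : O) : ℂ := zt (1 / 2 + em v) - zt (1 / 2)

theorem ZetB_const (h : S_ZetA) (v : O) (z : ℂ) (hz : ¬ inO z) :
    zt (z + em v) - zt z = ZetB_eta v := by
  have hd : ∀ z, ¬ inO z → HasDerivAt (fun z => zt (z + em v) - zt z) 0 z := by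
    intro z hz
    have h1 := h.1 z hz
    have h2 : HasDerivAt zt (-wp (z + em v)) (z + em v) := h.1 _ (by rwa [inO_add_em])
    have h3 := (h2.comp_add_const z (em v)).sub h1
    rw [wp_add, sub_self] at h3
    exact h3
  exact isOpen_notO.is_const_of_deriv_eq_zero preconn_notO
    (f := fun z => zt (z + em v) - zt z)
    (fun z hz => (hd z hz).differentiableAt.differentiableWithinAt)
    (fun z hz => (hd z hz).deriv) hz notO_half

theorem ZetB_add (h : S_ZetA) (u v : O) : ZetB_eta (u + v) = ZetB_eta u + ZetB_eta v := by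
  have h1 : ¬ inO (1 / 2 + em u) := by
    rw [inO_add_em]
    exact notO_half
  have h2 := ZetB_const h v _ h1
  rw [← h2]
  unfold ZetB_eta
  rw [map_add, add_assoc]
  ring

theorem ZetB_one (h : S_ZetA) : ZetB_eta 1 = et1 := by
  have h1 : ¬ inO (-(1 / 2)) := by
    rw [inO_neg_iff]
    exact notO_half
  have h2 := ZetB_const h 1 _ h1
  have h3 : (-(1 / 2) : ℂ) + em 1 = 1 / 2 := by
    rw [map_one]
    norm_num
  rw [h3, h.2.1] at h2
  rw [← h2]
  unfold et1
  ring

theorem ZetB_half : ¬ inO (pw / 2) := by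
  refine half_notO QuadraticAlgebra.omega ?_ (by rw [em_omega]; ring)
  rintro ⟨u, hu⟩
  have := congrArg QuadraticAlgebra.im hu
  rw [QuadraticAlgebra.omega_im, QuadraticAlgebra.im_add] at this
  omega

theorem ZetB_omega (h : S_ZetA) : ZetB_eta QuadraticAlgebra.omega = et2 := by
  have h1 : ¬ inO (-(pw / 2)) := by
    rw [inO_neg_iff]
    exact ZetB_half
  have h2 := ZetB_const h QuadraticAlgebra.omega _ h1
  have h3 : (-(pw / 2) : ℂ) + em QuadraticAlgebra.omega = pw / 2 := by
    rw [em_omega]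
    ring
  rw [h3, h.2.1] at h2
  rw [← h2]
  unfold et2
  ring

theorem ZetB_dec (v : O) : v = v.re • (1 : O) + v.im • (QuadraticAlgebra.omega : O) := by
  apply QuadraticAlgebra.ext <;> simp

theorem ZetB_eq (h : S_ZetA) (v : O) : ZetB_eta v = v.re * et1 + v.im * et2 := by
  have h2 := congrArg (AddMonoidHom.mk' ZetB_eta (ZetB_add h)) (ZetB_dec v)
  rw [map_add, map_zsmul, map_zsmul, AddMonoidHom.mk'_apply, ZetB_one h, ZetB_omega h] at h2
  rw [h2, zsmul_eq_mul, zsmul_eq_mul]

theorem tZet (h1 : S_ZetA) : S_Zet := by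
  refine ⟨h1.1, h1.2.1, fun z v hz => ?_, h1.2.2⟩
  rw [← ZetB_eq h1, ← ZetB_const h1 v z hz]
  ring

end DI
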