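import Pool.Agent.Lib.DI.B.Br
import Pool.Agent.Lib.DI.B.A12
import Pool.Agent.Lib.DI.B.Lio
import Pool.Agent.Lib.DI.B.Tay
import Pool.Agent.Lib.DI.B.Exp
import Pool.Agent.Lib.DI.B.ZetA
import Pool.Agent.Lib.DI.B.ZetB
import Pool.Agent.Lib.DI.B.ZadA
import Pool.Agent.Lib.DI.B.ZadB
import Pool.Agent.Lib.DI.B.MulA
import Pool.Agent.Lib.DI.B.MulB
import Pool.Agent.Lib.DI.B.Lau
import Pool.Agent.Lib.DI.B.Cst
import Pool.Agent.Lib.DI.B.Inj
import Pool.Agent.Lib.DI.B.Sur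
import Pool.Agent.Lib.DI.B.Cj
import Pool.Agent.Lib.DI.B.KS
import Pool.Agent.Lib.DI.B.KD
import Pool.Agent.Lib.DI.B.KQ
import Pool.Agent.Lib.DI.B.KA
import Pool.Agent.Lib.DI.B.KB
import Pool.Agent.Lib.DI.B.Om
import Pool.Agent.Lib.DI.B.XB
import Pool.Agent.Lib.DI.B.XAdd
import Pool.Agent.Lib.DI.B.XC
import Pool.Agent.Lib.DI.B.XMul
import Pool.Agent.Lib.DI.B.X2
import Pool.Agent.Lib.DI.B.X7
import Pool.Agent.Lib.DI.B.X9
import Pool.Agent.Lib.DI.B.Tor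
import Pool.Agent.Lib.DI.B.AlgX
import Pool.Agent.Lib.DI.B.AlgE
import Pool.Agent.Lib.DI.B.Ord
import Pool.Agent.Lib.DI.B.Quo
import Pool.Agent.Lib.DI.B.PrA
import Pool.Agent.Lib.DI.B.PrB
import Pool.Agent.Lib.DI.B.PrC

/-! # Theorem DI, Part B: assembly (author helper46) -/

set_option autoImplicit false

namespace DI

theorem aTay : S_Tay := tTay

theorem aLio : S_Lio := tLio

theorem aExp : S_Exp := tExp aTay

theorem aZet : S_Zet := tZet (tZetA aTay)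

theorem aZadA : S_ZadA := tZadA aLio aTay aExp aZet

theorem aZadB : S_ZadB := tZadB aLio aTay aExp aZet

theorem aMulA : S_MulA := tMulA aLio aExp

theorem aMulB : S_MulB := tMulB aLio aExp

theorem aLau : S_Lau := tLau aExp aMulA aMulB

theorem aCon : S_Con := tCon aExp aMulB aLau

theorem aInj : S_Inj := tInj aExp aZadA aZadB aCon

theorem aSur : S_Sur := tSur aLio aExp

theorem aCj : S_Cj := tCj

theorem aKS : S_KS := tKS

theorem aKD : S_KD := tKD aKS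

theorem aKA : S_KA := tKA aKS tKQ

theorem aKB : S_KB := tKB aZet aCj aKS aKD aKA

theorem aOm : S_Om := tOm aCon aCj

theorem aXB : S_XB := tXB aInj aSur aKB aOm

theorem aXAdd : S_XAdd := tXAdd aExp aZadA aZadB aXB aOm

theorem aXC : S_XC := tXC aCj aKB aOm

theorem aXMul : S_XMul := tXMul aMulA aMulB aXB aOm aXC

theorem aX2 : S_X2 := tX2 aMulB aXB aOm aXC

theorem aX7 : S_X7 := tX7 aXB aXMul

theorem aX9 : S_X9 := tX9 aXB aX7

theorem aAlgX : S_AlgX := tAlgX aXB aXMul aX2 tTor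

theorem aAlgE : S_AlgE := tAlgE aKB aXB aXAdd aOm tTor aAlgX

theorem aOrd : S_Ord := tOrd aExp aXB aOm aInj

theorem aQuo : S_Quo := tQuo aLio

theorem aPrA : S_PrA := tPrA aXB aOrd aQuo

theorem aPrB : S_PrB := tPrB aExp aOm aXB

theorem aPrC : S_PrC := tPrC aXB aOrd aQuo

end DI

namespace Pool.Agent.DI

theorem tB0 : S_B0 := brB0 _root_.DI.aOm _root_.DI.aKS

theorem tB1 : S_B1 := brB1 _root_.DI.aXB

theorem tB2 : S_B2 := brB2 _root_.DI.aXB _root_.DI.aKS _root_.DI.aKB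

theorem tB3 : S_B3 := brB3 _root_.DI.aXB

theorem tB4 : S_B4 := brB4 _root_.DI.aXB _root_.DI.aXAdd _root_.DI.aKB

theorem tB5 : S_B5 := brB5 _root_.DI.aXB _root_.DI.aXAdd _root_.DI.aKB

theorem tB6 : S_B6 := brB6 _root_.DI.aXMul

theorem tB7 : S_B7 := brB7 _root_.DI.aX2

theorem tB8 : S_B8 := brB8 _root_.DI.aX7

theorem tB9 : S_B9 := brB9 _root_.DI.aX9

theorem tB10 : S_B10 := brB10 _root_.DI.aKB

theorem tB11 : S_B11 := brB11 _root_.DI.aOm _root_.DI.aKB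

theorem tB12 : S_B12 := brB12 _root_.DI.aXC _root_.DI.aKS _root_.DI.aKB

theorem tB13 : S_B13 :=
  brB13 _root_.DI.aAlgX _root_.DI.aAlgE _root_.DI.aOm _root_.DI.aKS _root_.DI.aKB

theorem tB14 : S_B14 := brB14 _root_.DI.aOm

theorem tB15 : S_B15 := brB15 _root_.DI.aPrA _root_.DI.aPrB

theorem tB16 : S_B16 := brB16 _root_.DI.aPrC

theorem tA0 : S_A0 := brA0 tB13

end Pool.Agent.DI
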