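import Pool.Agent.Lib.DI.B.Defs

/-! # Theorem DI, Part B: basic facts (author helper46) -/

set_option autoImplicit false

namespace DI

open Complex Filter Topology PeriodPair

theorem inO_zero : inO 0 := Submodule.zero_mem _

theorem inO_add {z u : ℂ} (hz : inO z) (hu : inO u) : inO (z + u) := Submodule.add_mem _ hz hu

theorem inO_neg {z : ℂ} (hz : inO z) : inO (-z) := Submodule.neg_mem _ hz

theorem inO_neg_iff {z : ℂ} : inO (-z) ↔ inO z :=
  ⟨fun h => by have := inO_neg h; rwa [neg_neg] at this, inO_neg⟩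

theorem inO_sub {z u : ℂ} (hz : inO z) (hu : inO u) : inO (z - u) := Submodule.sub_mem _ hz hu

theorem inO_add_iff {z u : ℂ} (hu : inO u) : inO (z + u) ↔ inO z :=
  ⟨fun h => by have := inO_sub h hu; rwa [add_sub_cancel_right] at this, fun h => inO_add h hu⟩

theorem inO_add_em {z : ℂ} (v : O) : inO (z + em v) ↔ inO z := inO_add_iff (inO_em v)

theorem inO_mul {z : ℂ} (v : O) (hz : inO z) : inO (em v * z) := by
  obtain ⟨u, rfl⟩ := inO_iff.1 hz
  rw [← map_mul]
  exact inO_em _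

theorem inO_conj {z : ℂ} (hz : inO z) : inO ((starRingEnd ℂ) z) := by
  obtain ⟨u, rfl⟩ := inO_iff.1 hz
  rw [← em_star]
  exact inO_em _

theorem inO_conj_iff {z : ℂ} : inO ((starRingEnd ℂ) z) ↔ inO z :=
  ⟨fun h => by have := inO_conj h; rwa [Complex.conj_conj] at this, inO_conj⟩

theorem em_int (n : ℤ) : em (n : O) = n := map_intCast em n

theorem em_nat (n : ℕ) : em (n : O) = n := map_natCast em n

theorem inO_pw {z : ℂ} (hz : inO z) : inO (pw * z) := by
  rw [← em_omega]
  exact inO_mul _ hz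

theorem inO_qw {z : ℂ} (hz : inO z) : inO (qw * z) := by
  rw [qw_eq, sub_mul, one_mul]
  exact inO_sub hz (inO_pw hz)

/-- If `pw * z` is in the lattice then `z` or `z + 1/pw` is in the lattice. -/
theorem inO_of_pw {z : ℂ} (hz : inO (pw * z)) : inO z ∨ inO (z + 1 / pw) := by
  obtain ⟨v, hv⟩ := inO_iff.1 hz
  have key : ∀ u : O, ∀ y : ℂ, em u = pw * y → (∃ k : ℤ, u.re = 2 * k) → inO y := by
    rintro u y hu ⟨k, hk⟩
    refine inO_iff.2 ⟨⟨k + u.im, -k⟩, ?_⟩
    refine mul_left_cancel₀ pw_ne ?_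
    rw [← hu, em_mk, em_apply, hk]
    push_cast
    linear_combination (-(k : ℂ)) * pw_sq
  rcases Int.even_or_odd' v.re with ⟨k, hk | hk⟩
  · exact Or.inl (key v z hv ⟨k, hk⟩)
  · refine Or.inr (key (v + 1) _ ?_ ⟨k + 1, ?_⟩)
    · rw [map_add, map_one, hv, mul_add, mul_one_div_cancel pw_ne]
    · rw [QuadraticAlgebra.re_add, QuadraticAlgebra.re_one, hk]
      ring

theorem inO_of_qw {z : ℂ} (hz : inO (qw * z)) : inO z ∨ inO (z + 1 / qw) := by
  have h : inO (pw * (starRingEnd ℂ) z) := by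
    have := inO_conj hz
    rwa [map_mul, conj_qw] at this
  rcases inO_of_pw h with h1 | h1
  · exact Or.inl (inO_conj_iff.1 h1)
  · right
    have := inO_conj h1
    rwa [map_add, map_div₀, map_one, conj_pw, Complex.conj_conj] at this

theorem em_norm_ge {v : O} (hv : v ≠ 0) : 1 ≤ ‖em v‖ := by
  have h1 : em v * (starRingEnd ℂ) (em v) = ((v.norm : ℤ) : ℂ) := by
    rw [← em_star, ← map_mul]
    have h2 := QuadraticAlgebra.algebraMap_norm_eq_mul_star v
    rw [← h2]
    exact map_intCast em _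
  rw [Complex.mul_conj] at h1
  have h2 : Complex.normSq (em v) = ((v.norm : ℤ) : ℝ) := by exact_mod_cast h1
  have h3 : 0 < Complex.normSq (em v) := Complex.normSq_pos.2 (em_ne_zero hv)
  rw [h2] at h3
  have h4 : 1 ≤ v.norm := by exact_mod_cast h3
  have h5 : (1 : ℝ) ≤ ‖em v‖ ^ 2 := by
    rw [← Complex.normSq_eq_norm_sq, h2]
    exact_mod_cast h4
  by_contra h6
  rw [not_le] at h6
  have : ‖em v‖ ^ 2 < 1 := by
    have := norm_nonneg (em v)
    nlinarith
  linarith

theorem half_notO {z : ℂ} (v : O) (h : ¬ ∃ u : O, v = u + u) (hz : z + z = em v) : ¬ inO z := by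
  intro h1
  obtain ⟨u, rfl⟩ := inO_iff.1 h1
  rw [← map_add] at hz
  exact h ⟨u, (em_inj hz).symm⟩

theorem notO_half : ¬ inO (1 / 2) := by
  refine half_notO 1 ?_ (by rw [map_one]; norm_num)
  rintro ⟨u, hu⟩
  have := congrArg QuadraticAlgebra.re hu
  rw [QuadraticAlgebra.re_one, QuadraticAlgebra.re_add] at this
  omega

theorem two_div_pw : 1 / pw + 1 / pw = qw := by
  have := pw_mul_qw
  field_simp [pw_ne]
  linear_combination -this

theorem two_div_qw : 1 / qw + 1 / qw = pw := by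
  have := pw_mul_qw
  field_simp [qw_ne]
  linear_combination -this

theorem em_qw : em (1 - QuadraticAlgebra.omega) = qw := by
  rw [map_sub, map_one, em_omega, qw_eq]

theorem inO_pw_self : inO pw := by
  rw [← em_omega]
  exact inO_em _

theorem inO_qw_self : inO qw := by
  rw [← em_qw]
  exact inO_em _

theorem inO_one : inO 1 := by
  rw [← map_one em]
  exact inO_em _

theorem notO_t : ¬ inO (1 / pw) := by
  refine half_notO (1 - QuadraticAlgebra.omega) ?_ (by rw [em_qw, two_div_pw])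
  rintro ⟨u, hu⟩
  have := congrArg QuadraticAlgebra.re hu
  rw [QuadraticAlgebra.re_sub, QuadraticAlgebra.re_one, QuadraticAlgebra.omega_re,
    QuadraticAlgebra.re_add] at this
  omega

theorem notO_s : ¬ inO (1 / qw) := by
  refine half_notO QuadraticAlgebra.omega ?_ (by rw [em_omega, two_div_qw])
  rintro ⟨u, hu⟩
  have := congrArg QuadraticAlgebra.im hu
  rw [QuadraticAlgebra.omega_im, QuadraticAlgebra.im_add] at this
  omega

/-! ### Punctured neighbourhoods -/

theorem ev_inO (z : ℂ) : ∀ᶠ u in 𝓝[≠] z, ¬ inO u := by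
  have h := LO.compl_lattice_sdiff_singleton_mem_nhds z
  rw [eventually_nhdsWithin_iff]
  filter_upwards [h] with u hu h1 h2
  exact hu ⟨h2, h1⟩

theorem ev_aff (c a : ℂ) (hc : c ≠ 0) (z : ℂ) : ∀ᶠ u in 𝓝[≠] z, ¬ inO (c * u + a) := by
  have h : Tendsto (fun u : ℂ => c * u + a) (𝓝[≠] z) (𝓝[≠] (c * z + a)) := by
    refine tendsto_nhdsWithin_of_tendsto_nhds_of_eventually_within _ ?_ ?_
    · exact ((by fun_prop : Continuous fun u : ℂ => c * u + a).tendsto z).mono_left
        nhdsWithin_le_nhds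
    · rw [eventually_nhdsWithin_iff]
      refine Eventually.of_forall fun u hu h1 => hu ?_
      exact mul_left_cancel₀ hc (add_right_cancel h1)
  exact h.eventually (ev_inO _)

theorem ev_add (a z : ℂ) : ∀ᶠ u in 𝓝[≠] z, ¬ inO (u + a) := by
  have := ev_aff 1 a one_ne_zero z
  simpa only [one_mul] using this

theorem isOpen_notO : IsOpen {z : ℂ | ¬ inO z} := LO.isClosed_lattice.isOpen_compl

theorem ev_notO {z : ℂ} (h : ¬ inO z) : ∀ᶠ u in 𝓝 z, ¬ inO u := isOpen_notO.mem_nhds h

theorem preconn_notO : IsPreconnected {z : ℂ | ¬ inO z} := by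
  have h : (LO.lattice : Set ℂ).Countable :=
    countable_of_Lindelof_of_discrete (X := LO.lattice)
  exact (h.isConnected_compl_of_one_lt_rank (by rw [Complex.rank_real_complex]; norm_num)).2

/-! ### `℘` -/

theorem wp_add (z : ℂ) (v : O) : wp (z + em v) = wp z := LO.weierstrassP_add_coe z ⟨_, inO_em v⟩

theorem wp'_add (z : ℂ) (v : O) : wp' (z + em v) = wp' z :=
  LO.derivWeierstrassP_add_coe z ⟨_, inO_em v⟩

theorem wp_add_inO (z : ℂ) {u : ℂ} (hu : inO u) : wp (z + u) = wp z := by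
  obtain ⟨v, rfl⟩ := inO_iff.1 hu
  exact wp_add z v

theorem wp'_add_inO (z : ℂ) {u : ℂ} (hu : inO u) : wp' (z + u) = wp' z := by
  obtain ⟨v, rfl⟩ := inO_iff.1 hu
  exact wp'_add z v

theorem wp_neg (z : ℂ) : wp (-z) = wp z := LO.weierstrassP_neg z

theorem wp'_neg (z : ℂ) : wp' (-z) = -wp' z := LO.derivWeierstrassP_neg z

theorem wp_congr {z u : ℂ} (h : inO (z - u)) : wp z = wp u := by
  have := wp_add_inO u h
  rwa [add_sub_cancel] at this

theorem wp'_congr {z u : ℂ} (h : inO (z - u)) : wp' z = wp' u := by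
  have := wp'_add_inO u h
  rwa [add_sub_cancel] at this

theorem analyticAt_wp {z : ℂ} (h : ¬ inO z) : AnalyticAt ℂ wp z :=
  LO.analyticOnNhd_weierstrassP z h

theorem analyticAt_wp' {z : ℂ} (h : ¬ inO z) : AnalyticAt ℂ wp' z :=
  LO.analyticOnNhd_derivWeierstrassP z h

theorem deriv_wp : deriv wp = wp' := LO.deriv_weierstrassP

theorem hasDerivAt_wp {z : ℂ} (h : ¬ inO z) : HasDerivAt wp (wp' z) z := by
  rw [← deriv_wp]
  exact (analyticAt_wp h).differentiableAt.hasDerivAt

theorem wp'_sq {z : ℂ} (h : ¬ inO z) :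
    wp' z ^ 2 = 4 * wp z ^ 3 - LO.g₂ * wp z - LO.g₃ := LO.derivWeierstrassP_sq z h

theorem wp'_half {z : ℂ} (h : inO (z + z)) : wp' z = 0 := by
  have h1 : wp' (-z) = wp' z := wp'_congr (by
    have := inO_neg h
    rwa [neg_add, ← sub_eq_add_neg] at this)
  rw [wp'_neg] at h1
  have h2 : wp' z + wp' z = 0 := by linear_combination -h1
  have h3 : (2 : ℂ) * wp' z = 0 := by rw [two_mul]; exact h2
  rcases mul_eq_zero.1 h3 with h4 | h4
  · norm_num at h4
  · exact h4

/-! ### Sums over the lattice -/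

theorem summable_eq (f : ℂ → ℂ) : Summable (fun v : O => f (em v)) ↔
    Summable fun l : LO.lattice => f l :=
  (Equiv.summable_iff eqO (f := fun l : LO.lattice => f l))

theorem tsum_eq (f : ℂ → ℂ) : ∑' v : O, f (em v) = ∑' l : LO.lattice, f l :=
  Equiv.tsum_eq eqO (fun l : LO.lattice => f l)

theorem sum3 (z : ℂ) : Summable fun v : O => (‖z + em v‖ ^ 3)⁻¹ := by
  have h := ZLattice.summable_norm_sub_zpow LO.lattice (-3) (by
    rw [LO.finrank_lattice]
    norm_num) (-z)
  have h2 : Summable fun l : LO.lattice => (‖z + (l : ℂ)‖ ^ 3)⁻¹ := by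
    refine h.congr fun l => ?_
    rw [zpow_neg, sub_neg_eq_add, add_comm]
    rfl
  exact (Equiv.summable_iff eqO (f := fun l : LO.lattice => (‖z + (l : ℂ)‖ ^ 3)⁻¹)).2 h2

end DI
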