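import Pool.Agent.Lib.DI.B.Basic

/-! # Theorem DI, Part B (elliptic functions): statements of the modules (author helper46)

Every statement `S_X` is a `Prop`; the module `X` proves it in the file `DI/B/X.lean` as
`theorem tX ... : S_X`, with the statements named in the docstring (uses ..) as hypotheses, in that
order. Definitions: `DI/B/Defs.lean` (`wp`, `wp'`, `zt`, `kz`, `Om`, `X`, `W`, `Y`, `E1`, `KK`, `lam`),
basic
facts: `DI/B/Basic.lean` (please read it first: `inO_..`, `ev_inO`, `ev_aff`, `ev_add`, `ev_notO`,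
`preconn_notO`, `wp_add`, `wp_congr`, `analyticAt_wp`, `hasDerivAt_wp`, `wp'_sq`, `wp'_half`, `inO_of_pw`,
`sum3`, ..).

METHOD. All identities between the functions are proved with `S_Lio`: a function which is
differentiable off a discrete set, has a limit at every point and is periodic (off a discrete set) is
constant. The limits at the lattice points are computed with the expansions `S_Exp`, `S_Zet`:
substitute them, the function is an explicit analytic function of `h` for small `h ≠ 0`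
(`field_simp`, `ring`). -/

set_option autoImplicit false

namespace DI

open Complex Filter Topology

/-- `g₂/20`, the coefficient of `z²` in `℘`. -/
noncomputable def ca : ℂ := LO.g₂ / 20

/-- `g₃/28`, the coefficient of `z⁴` in `℘`. -/
noncomputable def cb : ℂ := LO.g₃ / 28

/-- `℘(1/π)` -/
noncomputable def et : ℂ := wp (1 / pw)

/-- `(℘(z + 1/π) - et) (℘(z) - et)` -/
noncomputable def kap : ℂ := 3 * et ^ 2 - LO.g₂ / 4

/-! ## 1. Tools -/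

/-- MODULE `Lio` (90 lines). LIOUVILLE.
PROOF. (1) `f` has a limit at every point `z`: by the second hypothesis it has a limit at `z + em v`, and
`f u = f (u + em v)` for `u` near `z`, `u ≠ z`. (2) Put `g z = limUnder (𝓝[≠] z) f`, so `f → g z` at `z`.
Near `z`,
for `u ≠ z`, `f` is differentiable, hence continuous at `u`, so `g u = f u`. (3) `g` is differentiable at
`z`:
near `z` it is `Function.update f z (g z)`, and this is differentiable by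
`Complex.differentiableOn_update_limUnder_of_bddAbove` (or `.._of_isLittleO`): `f` is bounded near `z`
because it
has a limit. (4) `g (z + em v) = g z` (uniqueness of limits). (5) `g` is bounded: every `z` is
`x + y π + em v` with `0 ≤ x, y ≤ 1` (`y = Int.fract (z.im / pw.im)`, ..), and `g` is bounded on the compact
image of `[0,1] × [0,1]`. (6) `Differentiable.apply_eq_apply_of_bounded`. -/
def S_Lio : Prop := ∀ f : ℂ → ℂ,
  (∀ z, ∀ᶠ u in 𝓝[≠] z, DifferentiableAt ℂ f u) →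
  (∀ z, ∃ (v : O) (c : ℂ), Tendsto f (𝓝[≠] (z + em v)) (𝓝 c)) →
  (∀ (v : O) (z : ℂ), ∀ᶠ u in 𝓝[≠] z, f (u + em v) = f u) →
  ∃ c, ∀ z, Tendsto f (𝓝[≠] z) (𝓝 c)

/-- MODULE `Tay` (40 lines). TAYLOR. PROOF. First for a power series `p` (`HasFPowerSeriesAt f p c`),
by induction on `n` with `dslope`: `f z = f c + (z - c) * dslope f c z` for all `z` (`sub_smul_dslope`),
`HasFPowerSeriesAt.has_fpower_series_dslope_fslope`, `FormalMultilinearSeries.coeff_fslope`,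
`HasFPowerSeriesAt.coeff_zero`:
`f z = ∑ i < n, p.coeff i * (z - c)^i + (z - c)^n * g z`, `g` analytic at `c`. Then
`AnalyticAt.hasFPowerSeriesAt` (`p = ofScalars (iteratedDeriv i f c / i!)`), `r h = g (c + h)`. -/
def S_Tay : Prop := ∀ (f : ℂ → ℂ) (c : ℂ), AnalyticAt ℂ f c → ∀ n : ℕ,
  ∃ r : ℂ → ℂ, AnalyticAt ℂ r 0 ∧ ∀ h, f (c + h) =
    ∑ i ∈ Finset.range n, iteratedDeriv i f c / (i.factorial : ℂ) * h ^ i + h ^ n * r h

/-- MODULE `Exp` (120 lines; uses `S_Tay`). EXPANSIONS OF `℘` AND `℘'`.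
PROOF. (1) `S_Tay` with `c = 0` for `℘[LO - 0]` (`n = 6`) and `℘'[LO - 0]` (`n = 5`) (Mathlib
`PeriodPair.analyticAt_weierstrassPExcept`, `analyticAt_derivWeierstrassPExcept`,
`iteratedDeriv_weierstrassPExcept_self`, `iteratedDeriv_derivWeierstrassPExcept_self`, `sumInvPow_zero`,
`G_eq_zero_of_odd`, `g₂ = 60 G 4`, `g₃ = 140 G 6`, `weierstrassPExcept_add`, `derivWeierstrassPExcept_sub`
with
`l₀ = 0`). (2) Differentiate `wp'_sq`: `2 ℘' ℘'' = (12 ℘² - g₂) ℘'`. So the analytic function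
`deriv wp' - 6 wp² + g₂/2` on `{¬ inO}` is zero where `wp' ≠ 0`, in particular near any `z₀ ≠ 0` close to
`0` (by (1)
`z³ ℘' z → -2`); `AnalyticOnNhd.eqOn_zero_of_preconnected_of_eventuallyEq_zero`, `preconn_notO`.
(3) `S_Tay` with `n = 3`, `n = 2` and (2), `deriv_wp`, `iteratedDeriv_one`, `iteratedDeriv_succ`. -/
def S_Exp : Prop :=
  (∃ r r1 : ℂ → ℂ, AnalyticAt ℂ r 0 ∧ AnalyticAt ℂ r1 0 ∧ ∀ z, z ≠ 0 →
    wp z = (z ^ 2)⁻¹ + ca * z ^ 2 + cb * z ^ 4 + z ^ 6 * r z ∧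
    wp' z = -2 * (z ^ 3)⁻¹ + 2 * ca * z + 4 * cb * z ^ 3 + z ^ 5 * r1 z) ∧
  (∀ z, ¬ inO z → HasDerivAt wp' (6 * wp z ^ 2 - LO.g₂ / 2) z) ∧
  ∀ c, ¬ inO c → ∃ r r1 : ℂ → ℂ, AnalyticAt ℂ r 0 ∧ AnalyticAt ℂ r1 0 ∧ ∀ h,
    wp (c + h) = wp c + wp' c * h + (3 * wp c ^ 2 - LO.g₂ / 4) * h ^ 2 + h ^ 3 * r h ∧
    wp' (c + h) = wp' c + (6 * wp c ^ 2 - LO.g₂ / 2) * h + h ^ 2 * r1 h

/-- MODULE `ZetA` (130 lines; uses `S_Tay`). THE ZETA FUNCTION.
PROOF. As in Mathlib for `℘` (`Analysis/SpecialFunctions/Elliptic/Weierstrass.lean`): with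
`F l z = if l = 0 then 0 else 1/(z - l) + 1/l + z/l²` (`= z²/(l² (z - l))`, so `‖F l z‖ ≤ 2 r² ‖l‖^(-3)` for
`‖z‖ < r`, `2 r ≤ ‖l‖`), `PeriodPair.hasSumLocallyUniformly_aux` gives local uniform convergence to
`zE z = ∑' F l z`; `zE` is differentiable on the complement of the lattice without `0` and there
`deriv zE = - ℘[LO - 0]` (termwise, as in `eqOn_deriv_weierstrassPExcept_derivWeierstrassPExcept`).
`zt z = 1/z + zE z` (the term `l = 0` is `1/z`, as `1/0 = 0`) and `wp z = 1/z² + ℘[LO - 0] z`: (1). (2)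
`zt` is odd:
reindex `l → -l`. (3): `zE` is analytic at `0`, `zE 0 = 0`, `deriv zE = -℘[LO - 0]`, `℘[LO - 0] 0 = 0`,
`℘'[LO - 0] 0 = 0`: `S_Tay` with `n = 3`. -/
def S_ZetA : Prop :=
  (∀ z, ¬ inO z → HasDerivAt zt (-wp z) z) ∧
  (∀ z, zt (-z) = -zt z) ∧
  ∃ r : ℂ → ℂ, AnalyticAt ℂ r 0 ∧ ∀ z, z ≠ 0 → zt z = z⁻¹ + z ^ 3 * r z

/-- MODULE `ZetB` (70 lines; uses `S_ZetA`; proves `S_Zet`). QUASI-PERIODS.
PROOF. `zt (z + em v) - zt z` has derivative `0` on the open preconnected set `{¬ inO}` (`isOpen_notO`,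
`preconn_notO`), so it is a constant `η v` (`IsOpen.is_const_of_deriv_eq_zero`); `η (u + v) = η u + η v`;
`z = -1/2`, `v = 1` gives `η 1 = 2 zt (1/2) = et1`, `z = -pw/2`, `v = ω` gives `η ω = et2` (`1/2`, `pw/2`
are not in
the lattice: `notO_half`, `half_notO`); `η` is an additive homomorphism `O → ℂ`, `v = v.re • 1 + v.im • ω`.
-/
def S_Zet : Prop :=
  (∀ z, ¬ inO z → HasDerivAt zt (-wp z) z) ∧
  (∀ z, zt (-z) = -zt z) ∧
  (∀ z (v : O), ¬ inO z → zt (z + em v) = zt z + (v.re * et1 + v.im * et2)) ∧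
  ∃ r : ℂ → ℂ, AnalyticAt ℂ r 0 ∧ ∀ z, z ≠ 0 → zt z = z⁻¹ + z ^ 3 * r z

/-! ## 2. Addition theorem -/

/-- MODULE `ZadA` (130 lines; uses `S_Lio`, `S_Tay`, `S_Exp`, `S_Zet`).
PROOF. Fix `z'`, `c = wp z'`, `c' = wp' z'`; `S_Lio` for
`f u = (zt (u + z') - zt u - zt z') (wp u - c) - (wp' u - c')/2`. Differentiable for `u`, `u + z'` not in
the lattice
(`ev_inO`, `ev_add`). Periodic there: the quasi-periods of `zt (u + z')` and `zt u` cancel. Limits: if `u₀`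
and
`u₀ + z'` are not in the lattice, continuity. If `u₀ = em v₀` take `v = -v₀`, limit at `0`: with
`zt (z' + h) = zt z' - c h - (c'/2) h² + h³ ρ h` (`S_Tay` for `zt`, which is analytic at `z'` as it is
differentiable
near `z'`; second derivative `-wp'`), `zt h = 1/h + h³ r₂`, `wp h = 1/h² + ca h² + ..`,
`wp' h = -2/h³ + 2 ca h + ..`:
`f h = (-1/h - c h - (c'/2) h² + h³ (..)) (1/h² - c + h² (..)) - (-2/h³ - c' + h (..))/2
= h * (analytic)`, limit `0`. If `u₀ + z' = em v₀` take `v = -v₀`, limit at `-z'`: `u = -z' + h`,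
`zt (u + z') - zt u - zt z' = zt h + zt (z' - h) - zt z' = 1/h + c h + h² (..)`,
`wp u - c = wp (z' - h) - c = -c' h + h² (..)`,
`wp' u - c' = -wp' (z' - h) - c' = -2 c' + h (..)`: `f u = h * (analytic)`, limit `0`. So the constant is
`0` (limit at `0`)
and `f z = 0` by continuity. -/
def S_ZadA : Prop := ∀ z z' : ℂ, ¬ inO z → ¬ inO z' → ¬ inO (z + z') →
  (zt (z + z') - zt z - zt z') * (wp z - wp z') = (wp' z - wp' z') / 2

/-- MODULE `ZadB` (130 lines; uses `S_Lio`, `S_Tay`, `S_Exp`, `S_Zet`).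
PROOF. The same with `f u = (zt (u + z') - zt u - zt z')² - wp (u + z') - wp u - c`. At `0`:
`(-1/h - c h + h² (..))² - (c + h (..)) - (1/h² + h² (..)) - c → 0`; at `-z'`:
`(1/h + c h + h² (..))² - (1/h² + h² (..)) - (c + h (..)) - c → 0`. -/
def S_ZadB : Prop := ∀ z z' : ℂ, ¬ inO z → ¬ inO z' → ¬ inO (z + z') →
  (zt (z + z') - zt z - zt z') ^ 2 = wp (z + z') + wp z + wp z'

/-! ## 3. Multiplication by `π` -/

/-- MODULE `MulA` (110 lines; uses `S_Lio`, `S_Exp`).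
PROOF. `S_Lio` for `f u = pw² wp (pw u) - wp u - wp (u + 1/pw)`: differentiable if `u`, `u + 1/pw` are not
in the
lattice (then `pw u` is not: `inO_of_pw`); periodic (`pw * em v = em (ω v)`). Limit at `0`:
`pw² (1/(pw h)² + (pw h)² (..)) - 1/h² - h² (..) - wp (h + 1/pw) → - wp (1/pw)`. Limit at `-1/pw`,
`u = -1/pw + h`:
`wp (pw u) = wp (-1 + pw h) = wp (pw h)`, `wp (u + 1/pw) = wp h`, `wp u → wp (-1/pw) = wp (1/pw)`: limit
`- wp (1/pw)`. Constant `- wp (1/pw)` (limit at `0`), continuity. Second claim: differentiate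
(`HasDerivAt` of both sides, equal near `z`; `Filter.EventuallyEq.deriv_eq`), `hasDerivAt_wp`. -/
def S_MulA : Prop := ∀ z : ℂ, ¬ inO z → ¬ inO (z + 1 / pw) →
  pw ^ 2 * wp (pw * z) = wp z + wp (z + 1 / pw) - wp (1 / pw) ∧
  pw ^ 3 * wp' (pw * z) = wp' z + wp' (z + 1 / pw)

/-- MODULE `MulB` (110 lines; uses `S_Lio`, `S_Exp`). General 2-torsion point `t`.
PROOF. `S_Lio` for `f u = (wp (u + t) - e) (wp u - e)`, `e = wp t`. `wp' t = 0` (`wp'_half`). Limit at `0`: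
`wp (h + t) - e = (3 e² - g₂/4) h² + h³ r h` (`S_Exp`, third part), times `1/h² - e + h² (..)`: limit
`3 e² - g₂/4`.
Limit at `-t`, `u = -t + h`: `wp (u + t) = wp h`, `wp u = wp (h - t) = wp (h + t)` (`2 t` in the lattice):
the same
function. Second claim: differentiate. -/
def S_MulB : Prop := ∀ t : ℂ, ¬ inO t → inO (t + t) → ∀ z : ℂ, ¬ inO z → ¬ inO (z + t) →
  (wp (z + t) - wp t) * (wp z - wp t) = 3 * wp t ^ 2 - LO.g₂ / 4 ∧
  wp' (z + t) * (wp z - wp t) + (wp (z + t) - wp t) * wp' z = 0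

/-- MODULE `Lau` (70 lines; uses `S_Exp`, `S_MulA`, `S_MulB`). Comparison of coefficients.
PROOF. For `z` near `0`: `pw² wp (pw z) (wp z - et) = wp z (wp z - et) + (wp (z + 1/pw) - et) (wp z - et)
= (wp z) (wp z - et) + kap`. Insert the expansion of `wp` at `0` (`S_Exp`): for `z ≠ 0`
`kap = ca (pw⁴ - 1) + (cb (pw⁶ - 1) - et ca (pw⁴ - 1)) z² + z³ * (analytic)`. `z → 0` gives the first
claim; then
divide by `z²` and `z → 0`. -/
def S_Lau : Prop := kap = ca * (pw ^ 4 - 1) ∧ cb * (pw ^ 6 - 1) = et * kap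

/-- MODULE `Con` (100 lines; uses `S_Exp`, `S_MulB`, `S_Lau`). The constants of the lattice.
PROOF. `pw⁴ - 1 = 1 - 3 pw`, `pw⁶ - 1 = 5 pw + 1`, both not `0`. If `g₂ = 0`: `ca = 0`, `kap = 0`, so
`cb = 0`
and `et² = 0`. By `S_MulB` (`t = 1/pw`) `wp (z + 1/pw) * wp z = 0`; `wp z ≠ 0` for small `z ≠ 0` (`S_Exp`),
so `wp = 0`
near `1/pw` (punctured); identity theorem on `{¬ inO}` (`preconn_notO`): `wp = 0` on it, a contradiction
to `wp z ≠ 0` for small `z ≠ 0`. If `g₃ = 0`: `et kap = 0`; `kap = (g₂/20) (1 - 3 pw) ≠ 0`, so `et = 0`,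
`kap = -g₂/4`, `pw⁴ = -4`: false. Then `et = cb (pw⁶ - 1)/(ca (pw⁴ - 1)) = (g₃/g₂) (5/7) (pw - 4)/2`, since
`(5 pw + 1)/(1 - 3 pw) = (pw - 4)/2`, and `3 et² = kap + g₂/4 = g₂ (pw⁴ + 4)/20`; `(pw - 4)² = 7 (2 - pw)`,
`pw⁴ + 4 = 3 (2 - pw)` give `125 g₃² = 7 g₂³`. -/
def S_Con : Prop := LO.g₂ ≠ 0 ∧ LO.g₃ ≠ 0 ∧ 125 * LO.g₃ ^ 2 = 7 * LO.g₂ ^ 3 ∧
  et = LO.g₃ / LO.g₂ * (5 / 7) * ((pw - 4) / 2)

/-- MODULE `Inj` (150 lines; uses `S_Exp`, `S_ZadA`, `S_ZadB`, `S_Con`).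
PROOF. (A) `(wp z - wp z')² (wp (z + z') + wp z + wp z') = (wp' z - wp' z')²/4` (`S_ZadA`, `S_ZadB`).
(i) `wp' z₁ = 0` implies `D = 6 wp z₁² - g₂/2 ≠ 0`: else `g₂ = 12 c²`, `g₃ = 4 c³ - g₂ c = -8 c³`, so
`g₂³ = 27 g₃²`, `125 g₂³ = 27 * 7 g₂³`, false.
(ii) KEY: there are no `z₁`, `z₂` not in the lattice, `z₁ + z₂` not in the lattice, `wp z₁ = wp z₂`,
`wp' z₁ = wp' z₂ = 0`: use (A) for `z₁ + h`, `z₂`, small `h ≠ 0` (`S_Exp`, third part):
`h⁴ (D/2 + h r)² (wp (z₁ + z₂ + h) + ..) = h² (D + h r₁)²/4`, divide by `h²`, `h → 0`: `D²/4 = 0`.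
(iii) `wp' z = 0`, `¬ inO z` implies `inO (z + z)`: (ii) with `z₁ = z₂ = z`. (iv) `wp z = wp z'`, `z ± z'`
not in the
lattice: (A) for `z`, `z'` and for `z`, `-z'` give `wp' z = wp' z'`, `wp' z = -wp' z'`, so both are `0`,
(ii). -/
def S_Inj : Prop :=
  (∀ z z' : ℂ, ¬ inO z → ¬ inO z' → (wp z = wp z' ↔ inO (z - z') ∨ inO (z + z'))) ∧
  (∀ z : ℂ, ¬ inO z → (wp' z = 0 ↔ inO (z + z))) ∧
  ∀ z : ℂ, ¬ inO z → wp' z = 0 → 6 * wp z ^ 2 - LO.g₂ / 2 ≠ 0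

/-- MODULE `Sur` (50 lines; uses `S_Lio`, `S_Exp`). `℘` is onto.
PROOF. If `wp z ≠ c` for all `z` not in the lattice, `f u = (wp u - c)⁻¹` is differentiable off the lattice,
periodic, and `f → 0` at `0` (`wp h → ∞`: `h² wp h → 1`). So `f` has the limit `0` everywhere and
`f (1/2) = 0` by
continuity, a contradiction. -/
def S_Sur : Prop := ∀ c : ℂ, ∃ z, ¬ inO z ∧ wp z = c

/-! ## 4. Complex conjugation -/

/-- MODULE `Cj` (80 lines). PROOF. `wp z = ∑' v : O, (1/(z - em v)^2 - 1/(em v)^2)` (`tsum_eq`; unfold `wp`,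
`PeriodPair.weierstrassP`), `em (star v) = conj (em v)`, reindex by `star` (an involution of `O`,
`Equiv.tsum_eq`),
`Complex.conj_tsum` (or `map_tsum`/`ContinuousLinearEquiv`; for `conj` `tsum` commutes with no summability
assumption). The same for `wp'`, `zt`, `G 4`, `G 6` (`LO.G n = ∑' l, (l^n)⁻¹`). -/
def S_Cj : Prop :=
  (∀ z, wp ((starRingEnd ℂ) z) = (starRingEnd ℂ) (wp z)) ∧
  (∀ z, wp' ((starRingEnd ℂ) z) = (starRingEnd ℂ) (wp' z)) ∧
  (∀ z, zt ((starRingEnd ℂ) z) = (starRingEnd ℂ) (zt z)) ∧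
  (starRingEnd ℂ) LO.g₂ = LO.g₂ ∧ (starRingEnd ℂ) LO.g₃ = LO.g₃

/-! ## 5. The periodic zeta function -/

/-- `R` is a set of representatives of `μ⁻¹ O / O`. -/
structure IsReps (μ : O) (R : Finset ℂ) : Prop where
  mem : ∀ u ∈ R, inO (em μ * u)
  ex : ∀ z : ℂ, inO (em μ * z) → ∃ u ∈ R, inO (z - u)
  uni : ∀ u ∈ R, ∀ u' ∈ R, inO (u - u') → u = u'

/-- MODULE `KS` (70 lines). The regularised series, `t > 0`.
PROOF. (1) `exp (-x) ≤ 1/x` for `x > 0`: the terms are bounded by `‖z + em v‖⁻³/t` (`sum3`; the term with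
`z + em v = 0` is `0`). (2) Reindex `v → v + u` (`Equiv.addRight`). (3) `v → -v`. (4) `star` (`em_star`). -/
def S_KS : Prop :=
  (∀ t : ℝ, 0 < t → ∀ z : ℂ,
    Summable fun v : O => (z + em v)⁻¹ * (Real.exp (-t * ‖z + em v‖ ^ 2) : ℂ)) ∧
  (∀ (t : ℝ) (z : ℂ) (v : O), KK t (z + em v) = KK t z) ∧
  (∀ (t : ℝ) (z : ℂ), KK t (-z) = -KK t z) ∧
  ∀ (t : ℝ) (z : ℂ), KK t ((starRingEnd ℂ) z) = (starRingEnd ℂ) (KK t z)

/-- MODULE `KD` (90 lines; uses `S_KS`). Distribution, `t > 0`.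
PROOF. With `φ x = x⁻¹ exp(-t ‖x‖²)`: `∑ u ∈ R, ∑' v, φ (z + u + em v) = ∑' m : O, φ (z + em m / em μ)`:
the map
`(u, v) ↦ m`, `em m = em μ (u + em v)`, is a bijection `R × O → O` (`IsReps`), summable over the product
because the
right side is summable (`Equiv.summable_iff`, `Summable.tsum_prod`, `tsum_fintype`); and
`φ (z + em m/em μ) = em μ * ((em μ z + em m)⁻¹ exp(-(t/‖em μ‖²) ‖em μ z + em m‖²))`. (Or: finite sum of
`tsum`s by
`Summable.tsum_finsetSum` and regroup.) -/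
def S_KD : Prop := ∀ (t : ℝ), 0 < t → ∀ (μ : O) (R : Finset ℂ), μ ≠ 0 → IsReps μ R → ∀ z : ℂ,
  ∑ u ∈ R, KK t (z + u) = em μ * KK (t / ‖em μ‖ ^ 2) (em μ * z)

/-- The summand of the regularised series minus its linear part. -/
noncomputable def qq (z : ℂ) (t : ℝ) (x : ℂ) : ℂ :=
  (z + x)⁻¹ * (Real.exp (-t * ‖z + x‖ ^ 2) : ℂ) +
    z * ((Real.exp (-t * ‖x‖ ^ 2) : ℂ) / x ^ 2 +
      t * ((starRingEnd ℂ) x / x) * (Real.exp (-t * ‖x‖ ^ 2) : ℂ)) +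
    (starRingEnd ℂ) z * (t * (Real.exp (-t * ‖x‖ ^ 2) : ℂ)) - (Real.exp (-t * ‖x‖ ^ 2) : ℂ) / x -
    ((z + x)⁻¹ - x⁻¹ + z / x ^ 2)

/-- MODULE `KQ` (90 lines). The bound for the domination.
PROOF. `E = exp(-t ‖x‖²)`, `s = t ‖x‖²`, `y = t (z conj x + conj z x)` (a real number, `|y| ≤ 2 t ‖z‖ ‖x‖`),
`a = y + t ‖z‖²`, so `exp(-t ‖z + x‖²) = E exp(-a)` and `|a| ≤ 3 t ‖z‖ ‖x‖`, `|a| ≤ (3/5) s`;
`‖z + x‖ ≥ ‖x‖/2`.
`qq = E (exp(-a) - 1 + y)/(z + x) + (E - 1) z²/(x² (z + x)) + E y z/(x (z + x))`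
[`1/(z+x) - 1/x + z/x² = z²/(x² (z+x))`,
`1/x - 1/(z + x) = z/(x (z + x))`, `t (z conj x/x + conj z) = y/x`]. Bounds:
`|exp(-a) - 1 + a| ≤ a² exp |a|`
(`Complex.norm_exp_sub_sum_le_norm_mul_exp`, `n = 2`); first term
`≤ (9 t² ‖z‖² ‖x‖² exp(-2s/5) + t ‖z‖² E) 2/‖x‖ = (18 s² exp(-2s/5) + 2 s exp(-s)) ‖z‖²/‖x‖³`, with
`s² exp(-2s/5) ≤ 25/2`, `s exp(-s) ≤ 1`; second `≤ 2 ‖z‖²/‖x‖³`; third `≤ 4 s exp(-s) ‖z‖²/‖x‖³`. Total
`≤ 233`. -/
def S_KQ : Prop := ∀ (z x : ℂ) (t : ℝ), 0 < t → x ≠ 0 → 5 * ‖z‖ ≤ ‖x‖ →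
  ‖qq z t x‖ ≤ 300 * ‖z‖ ^ 2 / ‖x‖ ^ 3

/-- MODULE `KA` (130 lines; uses `S_KS`, `S_KQ`). The limit of the regularised series, up to a linear
function.
PROOF. `A t = ∑' v, (E/v² + t (conj v / v) E)`, `B t = ∑' v, t E`, `E = exp(-t ‖v‖²)`, `v` for `em v`
(`1/0 = 0`). Then
`∑' v, qq z t (em v) = KK t z + A t z + B t conj z - 0 - zt z` (`∑' E/v = 0` because it is odd;
`zt z = ∑' v, ((z + v)⁻¹ - v⁻¹ + z/v²)`,
by `tsum_eq` and `l → -l`; all the series converge: terms `O(‖v‖⁻³)`, using `exp(-x) ≤ 2/x²` for `E`,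
`‖v‖ ≥ 1` (`em_norm_ge`) and
`sum3 0`). `qq z t x → 0` for `t → 0+`, if `z + x ≠ 0` (continuous in `t`, value `0` at `t = 0`; also for
`x = 0`). By `S_KQ` the
terms with `5 ‖z‖ ≤ ‖v‖`, `v ≠ 0`, are dominated by `300 ‖z‖²/‖v‖³`; the others are finitely many (by
`sum3 0` or
discreteness) and bounded for `0 < t ≤ 1` by a constant depending on `v`.
`tendsto_tsum_of_dominated_convergence`. -/
def S_KA : Prop := ∃ A B : ℝ → ℂ, ∀ z : ℂ, ¬ inO z →
  Tendsto (fun t : ℝ => KK t z + A t * z + B t * (starRingEnd ℂ) z) (𝓝[>] 0) (𝓝 (zt z))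

/-- MODULE `KB` (100 lines; uses `S_Zet`, `S_Cj`, `S_KS`, `S_KD`, `S_KA`). The periodic zeta function.
PROOF. Take `z₀` not in the lattice. `S_KA` for `z₀ + em v` minus `S_KA` for `z₀`:
`A t em v + B t conj (em v)` tends
to `v.re et1 + v.im et2`. For `v = 1`: `A + B → et1`; for `v = ω`: `A pw + B qw → et2`. So
`B (qw - pw) → et2 - pw et1`, `B → be`, `A → al`; then `KK t z → zt z - al z - be conj z = kz z`. The
second claim and the
last one are limits (`S_KS`, `S_KD`; for the distribution: `t / ‖em μ‖² → 0+`; `z + u` is not in the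
lattice if
`em μ * z` is not). Third claim: `S_Zet` (2). Fourth:
limits in `S_KS` (4). -/
def S_KB : Prop :=
  (∀ z : ℂ, ¬ inO z → Tendsto (fun t : ℝ => KK t z) (𝓝[>] 0) (𝓝 (kz z))) ∧
  (∀ (z : ℂ) (v : O), ¬ inO z → kz (z + em v) = kz z) ∧
  (∀ z : ℂ, kz (-z) = -kz z) ∧
  (∀ z : ℂ, ¬ inO z → kz ((starRingEnd ℂ) z) = (starRingEnd ℂ) (kz z)) ∧
  ∀ (μ : O) (R : Finset ℂ), μ ≠ 0 → IsReps μ R → ∀ z : ℂ, ¬ inO (em μ * z) →
    ∑ u ∈ R, kz (z + u) = em μ * kz (em μ * z)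

/-! ## 6. The functions `X`, `Y`, `W`, `E1` -/

/-- MODULE `Om` (60 lines; uses `S_Con`, `S_Cj`). The period.
PROOF. `Om_sq`, `S_Con`: `g₂/Om⁴ = (49/100) g₂³/g₃² = 35/4`, `g₃/Om⁶ = (343/1000) g₂³/g₃² = 49/8`,
`et/Om² = (pw - 4)/4`.
`Om²` is real (`S_Cj`), so `(conj Om)² = Om²`, `conj Om = ± Om`. -/
def S_Om : Prop := Om ≠ 0 ∧ LO.g₂ / Om ^ 4 = 35 / 4 ∧ LO.g₃ / Om ^ 6 = 49 / 8 ∧
  et / Om ^ 2 = (pw - 4) / 4 ∧ ∃ s : ℤ, (s = 1 ∨ s = -1) ∧ (starRingEnd ℂ) Om = s * Om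

/-- MODULE `XB` (100 lines; uses `S_Inj`, `S_Sur`, `S_KB`, `S_Om`). Basic properties.
PROOF. `wp_add`, `wp_neg`, .., `wp'_sq`: `W² = 4 (X - 1/4)³ - (35/4)(X - 1/4) - 49/8`. Last claim: `S_Sur`
gives `z`
with `X z = x`; `(2 y + x)² = 4x³ - 3x² - 8x - 4 = W z²`, so `W z = ±(2y + x)`; replace `z` by `-z` if
necessary. -/
def S_XB : Prop :=
  (∀ (z : ℂ) (v : O), X (z + em v) = X z ∧ W (z + em v) = W z ∧ Y (z + em v) = Y z) ∧
  (∀ z : ℂ, X (-z) = X z ∧ W (-z) = -W z ∧ Y (-z) = -Y z - X z ∧ E1 (-z) = -E1 z) ∧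
  (∀ (z : ℂ) (v : O), ¬ inO z → E1 (z + em v) = E1 z) ∧
  (∀ z : ℂ, ¬ inO z → Y z ^ 2 + X z * Y z = X z ^ 3 - X z ^ 2 - 2 * X z - 1 ∧
    W z ^ 2 = 4 * X z ^ 3 - 3 * X z ^ 2 - 8 * X z - 4) ∧
  (∀ z z' : ℂ, ¬ inO z → ¬ inO z' → (X z = X z' ↔ inO (z - z') ∨ inO (z + z'))) ∧
  (∀ z z' : ℂ, ¬ inO z → ¬ inO z' → X z = X z' → Y z = Y z' → inO (z - z')) ∧
  (∀ z : ℂ, ¬ inO z → (W z = 0 ↔ inO (z + z))) ∧
  ∀ x y : ℂ, y ^ 2 + x * y = x ^ 3 - x ^ 2 - 2 * x - 1 → ∃ z, ¬ inO z ∧ X z = x ∧ Y z = y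

/-- MODULE `XAdd` (120 lines; uses `S_Exp`, `S_ZadA`, `S_ZadB`, `S_XB`, `S_Om`). ADDITION FORMULAS (0.1).
PROOF. `kz (z + z') - kz z - kz z' = zt (z + z') - zt z - zt z' =: S` (definition of `kz`).
`S/Om = lam z z' + 1/2`
(`S_ZadA`, divide by `wp z - wp z' ≠ 0`; `lam + 1/2 = (W z - W z')/(2 (X z - X z'))`). `X (z + z')`:
`S_ZadB` divided by
`Om²`. `W (z + z')`: put `w = -(z + z')`; `S_ZadA` for `z`, `w` (their sum is `-z'`):
`(zt (-z') - zt z - zt w) (wp z - wp w) = (wp' z - wp' w)/2` and the first factor is `S` (`zt` is odd,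
`S_Zet` (2) follows
from `S_XB`: `E1` is odd; or add `S_Zet` as a last hypothesis), so
`wp' (z + z') = -wp' z + 2 S (wp z - wp (z + z'))`.
TANGENT CASE `z' = z`, `z + z` not in the lattice: `S_ZadA` for `z`, `z + h`, divide by `h`, `h → 0`
(`hasDerivAt_wp`,
`S_Exp` (2); `zt` is continuous at `z + z`, `z`): `S wp' z = (6 wp z² - g₂/2)/2`, and
`S/Om = (3 X² - 2 X - 2 - Y)/W + 1/2`. -/
def S_XAdd : Prop :=
  (∀ z z' : ℂ, ¬ inO z → ¬ inO z' → ¬ inO (z + z') → X z ≠ X z' →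
    X (z + z') = lam z z' ^ 2 + lam z z' + 1 - X z - X z' ∧
    Y (z + z') = -Y z + lam z z' * X z - (lam z z' + 1) * X (z + z') ∧
    E1 (z + z') = E1 z + E1 z' + lam z z' + 1 / 2) ∧
  ∀ z l : ℂ, ¬ inO z → ¬ inO (z + z) → l * W z = 3 * X z ^ 2 - 2 * X z - 2 - Y z →
    X (z + z) = l ^ 2 + l + 1 - 2 * X z ∧
    Y (z + z) = -Y z + l * X z - (l + 1) * X (z + z) ∧
    E1 (z + z) = 2 * E1 z + l + 1 / 2

/-- MODULE `XC` (60 lines; uses `S_Cj`, `S_KB`, `S_Om`). Complex conjugation.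
PROOF. `s` from `S_Om`; `s² = 1`, so `conj (Om²) = Om²`, `conj (Om³) = s Om³`; `X` is even, `W` is odd
(`wp_neg`,
`wp'_neg`), `kz` is odd; `Y = (W - X)/2`, and `s = ±1`: two cases. -/
def S_XC : Prop := ∃ s : ℤ, (s = 1 ∨ s = -1) ∧ (starRingEnd ℂ) Om = s * Om ∧ ∀ z : ℂ,
  (starRingEnd ℂ) (X z) = X ((starRingEnd ℂ) z) ∧
  (starRingEnd ℂ) (W z) = s * W ((starRingEnd ℂ) z) ∧
  (starRingEnd ℂ) (Y z) = Y (s * (starRingEnd ℂ) z) ∧
  (¬ inO z → (starRingEnd ℂ) (E1 z) = E1 (s * (starRingEnd ℂ) z))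

/-! ## 7. The isogenies `π`, `π̄`, `√-7` -/

/-- `(p, q)` is `(π, π̄)` or `(π̄, π)`. -/
def PQ (p q : ℂ) : Prop := (p = pw ∧ q = qw) ∨ (p = qw ∧ q = pw)

/-- MODULE `XMul` (130 lines; uses `S_MulA`, `S_MulB`, `S_XB`, `S_Om`, `S_XC`). FORMULAS (0.2).
PROOF. First `p = pw`, `t = 1/pw`, `e = et/Om² = (pw - 4)/4`, `k = kap/Om⁴ = 3 e² - 35/16`,
`x = X z - 1/4`. Then
`k pw⁴ = -7`, `(pw - 3)/4 = qw/pw²`, so `x - e = (pw² X z - qw)/pw² = D/pw²`, and `D ≠ 0` because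
`wp z ≠ et` (by
the injectivity in `S_XB`: `z ± 1/pw` is not in the lattice, as `pw z` is not). `S_MulB` (with `t`):
`wp (z + t) = et + kap/(wp z - et)`,
`wp' (z + t) = -kap wp' z/(wp z - et)²`; insert into `S_MulA`: `X (pw z) = 1/4 + (x + k/(x - e))/pw²`,
`pw³ W (pw z) = W z (1 - k/(x - e)²)`. The second is the third claim, the first is the second claim (clear
denominators,
`pw² = pw - 2`). `Y`-formula: `Y = (W - X)/2`, `D² + 7 = p³ (p X² - q² X + p²)`, and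
`X (p X² - q² X + p²) - (X² - p) D = 2 (X³ + X² - 2 X - 1)`. For `p = qw`: take `conj` of the formulas for
`conj z`
(`S_XC`; the sign `s` cancels). -/
def S_XMul : Prop := ∀ p q : ℂ, PQ p q → ∀ z : ℂ, ¬ inO z → ¬ inO (p * z) →
  p ^ 2 * X z - q ≠ 0 ∧
  X (p * z) * (p ^ 2 * X z - q) = X z ^ 2 - p ∧
  p ^ 3 * W (p * z) * (p ^ 2 * X z - q) ^ 2 = W z * ((p ^ 2 * X z - q) ^ 2 + 7) ∧
  Y (p * z) * (p ^ 2 * X z - q) ^ 2 =
    Y z * (p * X z ^ 2 - q ^ 2 * X z + p ^ 2) + X z ^ 3 + X z ^ 2 - 2 * X z - 1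

/-- MODULE `X2` (90 lines; uses `S_MulB`, `S_XB`, `S_Om`, `S_XC`). FORMULAS (0.3).
PROOF. `X (1/pw) = et/Om² + 1/4 = (pw - 3)/4 = qw/pw²`; `p = qw`: `conj` (`S_XC`). `W (1/2) = 0` (`S_XB`),
so
`0 = 4 X³ - 3 X² - 8 X - 4 = (X - 2) (4 X² + 5 X + 2) = 4 (X - 2) (X - qw/pw²) (X - pw/qw²)` for
`X = X (1/2)`; and
`X (1/2) ≠ X (1/pw), X (1/qw)` by the injectivity (`1/2 = 1/pw + 1/qw`, `notO_s`, `notO_t`, `2 (1/p)` in
the lattice).
Translation, `p = pw`: `S_MulB` (`t = 1/pw`) divided by `Om⁴`: `(X (z + t) - q/p²) (X z - q/p²) = k`,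
`k p⁴ = -7`
(`k = 3 (p-4)²/16 - 35/16`), so `(p² X (z + t) - q) (p² X z - q) = -7`, and `q² + 7 = p⁵`. `p = qw`:
`conj`. -/
def S_X2 : Prop := X (1 / 2) = 2 ∧ ∀ p q : ℂ, PQ p q → X (1 / p) = q / p ^ 2 ∧
  ∀ z : ℂ, ¬ inO z → ¬ inO (p * z) → X (z + 1 / p) * (p ^ 2 * X z - q) = q * X z - p ^ 3

/-- MODULE `X7` (90 lines; uses `S_XB`, `S_XMul`). The points of order `√-7 = 2 pw - 1 = pw - qw`.
PROOF. If `pw z` is in the lattice then so is `z = 2 pw z - (2 pw - 1) z`; the same for `qw z`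
(`2 qw - 1 = -(2 pw - 1)`).
`pw z - qw z` is in the lattice, so `X (pw z) = X (qw z)`, by `S_XMul`
`(X² - p)(q² X - p) = (X² - q)(p² X - q)` with `p = pw`,
`q = qw`, and this is `(q - p) (X³ + X² - 2 X - 1) = 0` (`p + q = 1`, `p q = 2`). Then
`W² = 4 X³ - 3 X² - 8 X - 4 = -7 X² = ((2 pw - 1) X)²`. Last claim, `D = p² X - q`, `W' = W (p z)`,
`X' = X (p z)`:
`p³ W' D² = W (D² + 7)`, `X' D = X² - p`, so `p³ D² (W' X - W X') = W (X (D² + 7) - p³ D (X² - p))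
= 2 p³ W (X³ + X² - 2 X - 1) = 0`. -/
def S_X7 : Prop := ∀ z : ℂ, ¬ inO z → inO ((2 * pw - 1) * z) →
  X z ^ 3 + X z ^ 2 - 2 * X z - 1 = 0 ∧
  (W z = (2 * pw - 1) * X z ∨ W z = -((2 * pw - 1) * X z)) ∧
  ∀ p q : ℂ, PQ p q → ¬ inO (p * z) ∧ W (p * z) * X z = W z * X (p * z)

/-- MODULE `X9` (80 lines; uses `S_XB`, `S_X7`). THE SIGN. PROOF. `r = 2 pw - 1`, `r² = -7`. `1/r` is not
in the
lattice (`em_norm_ge`, `‖r‖² = 7`; or `1 = em v * r` gives `7 ∣ 1`). `S_X7` for `1/r` gives `s` with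
`W (1/r) = s r X (1/r)`.
For `j` not divisible by `7`, `j/r` is not in the lattice (`r j` is not divisible by `7`). `7/r = -r` is in
the lattice, so `X (j/r)`,
`W (j/r)` depend on `j` modulo `7` only. `(pw - 4)/r = pw`, so `pw (j/r) = 4 j/r + j pw` and `S_X7` (last
claim, `p = pw`)
gives: if `W z = s r X z` at `z = j/r` then the same at `4 j/r` (`X z ≠ 0` by the cubic equation). So it
holds at `j = 1, 4, 16 = 2`. `jacobiSym j 7 = 1` iff `j` is `1, 2, 4`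
modulo `7` (`jacobiSym.mod_left`, `decide`). -/
def S_X9 : Prop := ∃ s : ℤ, (s = 1 ∨ s = -1) ∧ ∀ j : ℤ, jacobiSym j 7 = 1 →
  W (j / (2 * pw - 1)) = s * (2 * pw - 1) * X (j / (2 * pw - 1))

/-! ## 8. Algebraicity -/

/-- MODULE `Tor` (60 lines). Pigeonhole. PROOF. `n z = em v`, so `pw^j z = em (ω^j v)/n`. If some `pw^j z`
is in the
lattice take the minimal such `j` (`j ≥ 1`, `l = j - 1`; if `pw^i z` is in the lattice so is `pw^j z`,
`j ≥ i`: `inO_pw`).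
Otherwise: the map `j ↦ (ω^j v).re, .im` modulo `n` in `ZMod n × ZMod n` is not injective
(`Finite.exists_ne_map_eq_of_infinite`), so `n` divides `ω^(i+k) v - ω^i v`. -/
def S_Tor : Prop := ∀ (z : ℂ) (n : ℕ), 0 < n → inO (n * z) → ¬ inO z →
  (∃ l : ℕ, (∀ j ≤ l, ¬ inO (pw ^ j * z)) ∧ inO (pw ^ (l + 1) * z)) ∨
  ((∀ j : ℕ, ¬ inO (pw ^ j * z)) ∧ ∃ i k : ℕ, 0 < k ∧ inO (pw ^ (i + k) * z - pw ^ i * z))

/-- MODULE `AlgX` (120 lines; uses `S_XB`, `S_XMul`, `S_X2`, `S_Tor`).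
PROOF. `pw` is algebraic (`pw_sq`). (1) DESCENT: if `z`, `pw z` are not in the lattice and `X (pw z)` is
algebraic then `X z`
is algebraic: it is a root of `x² - pw - X (pw z) (pw² x - qw)`, a monic polynomial with algebraic
coefficients (use
the algebraically closed `integralClosure`/`algebraicClosure ℚ ℂ`, or: `(x - b/2)²` is algebraic,
`IsAlgebraic.of_pow`). So it suffices to find one `l` with `pw^j z` not in the lattice for `j ≤ l` and
`X (pw^l z)` algebraic.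
(2) First case of `S_Tor`: `y = pw^l z`, `pw y` in the lattice, `y` not: `y + 1/pw` is in the lattice
(`inO_of_pw`),
`X y = X (1/pw) = qw/pw²`. (3) Second case, `y = pw^i z`: polynomials `A 0 = x`, `D 0 = 1`,
`A (k+1) = (A k)² - pw (D k)²`, `D (k+1) = pw² A k D k - qw (D k)²` over the subfield of algebraic numbers
(or over `ℂ` with
algebraic coefficients). By `S_XMul` and induction `D k (X y) X (pw^k y) = A k (X y)`; `A k` is monic of
degree `2^k`, `D k`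
has degree `≤ 2^k - 1` and the coefficient `pw^(2k)` of `x^(2^k - 1)`. As `X (pw^k y) = X y`, `X y` is a
root of
`A k - x D k`, whose coefficient of `x^(2^k)` is `1 - pw^(2k) ≠ 0` (`‖pw‖² = 2`, `k ≥ 1`). (4) `Y`:
`W² = 4X³ - ..` is
algebraic, `Y = (W - X)/2`. -/
def S_AlgX : Prop := ∀ (z : ℂ) (n : ℕ), 0 < n → inO (n * z) → ¬ inO z →
  IsAlgebraic ℚ (X z) ∧ IsAlgebraic ℚ (Y z)

/-- MODULE `AlgE` (100 lines; uses `S_KB`, `S_XB`, `S_XAdd`, `S_Om`, `S_Tor`, `S_AlgX`).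
PROOF. (1) `E1 (1/pw) = 0` (odd, and `1/pw + 1/pw = qw`). (2) `z`, `pw z` not in the lattice, `z` torsion:
`E1 z + E1 (z + 1/pw) = pw E1 (pw z)` (`S_KB`, last claim, `μ = ω`, `R = {0, 1/pw}`: `inO_of_pw`,
`notO_t`), and
`E1 (z + 1/pw) = E1 z + E1 (1/pw) + lam z (1/pw) + 1/2` (`S_XAdd`; `X z ≠ X (1/pw)` by the injectivity).
`lam z (1/pw)` is
algebraic. So `pw E1 (pw z) - 2 E1 z` is algebraic. (3) First case of `S_Tor`: `y = pw^l z`, `y + 1/pw` in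
the
lattice: `E1 y = E1 (-1/pw) = 0`; descend with (2). (4) Second case: `y = pw^i z`; by (2)
`pw^k E1 (pw^k y) - 2^k E1 y` is
algebraic and `E1 (pw^k y) = E1 y`, `pw^k ≠ 2^k` (`‖pw‖² = 2`, `k ≥ 1`); descend from `y` to `z` with (2).
-/
def S_AlgE : Prop := ∀ (z : ℂ) (n : ℕ), 0 < n → inO (n * z) → ¬ inO z → IsAlgebraic ℚ (E1 z)

/-! ## 9. Product formulas -/

/-- The indicator of a proposition. -/
noncomputable def ind (P : Prop) : ℤ := by
  classical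
  exact if P then 1 else 0

/-- MODULE `Ord` (100 lines; uses `S_Exp`, `S_XB`, `S_Om`, `S_Inj`). THE ORDER OF `X (c u + a) - X b`.
PROOF. First `c = 1`, `a = 0`. `z` in the lattice: `order_weierstrassP` (Mathlib),
`X u - X b = wp u/Om² + const`:
`meromorphicOrderAt_add_of_ne` (or `.._add_eq_left_of_lt`), `z ± b` are not in the lattice. `z` not in the
lattice: analytic; if
`X z ≠ X b` the order is `0` and `z ± b` are not in the lattice (`S_XB`). If `X z = X b`, `W z ≠ 0`: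
exactly one of
`z - b`, `z + b` is in the lattice (both would give `z + z` in the lattice), order `1` as the derivative
`wp' z/Om²` is not
`0` (`meromorphicOrderAt_eq_int_iff` with `S_Exp`, third part). If `X z = X b`, `W z = 0`: both are in the
lattice
(`z + z` is), order `2`: `wp (z + h) - wp z = h² ((6 wp z² - g₂/2)/2 + h r h)`, and `6 wp z² - g₂/2 ≠ 0`
(third part of
`S_Inj`). General case: composition with `u ↦ c u + a` (derivative `c ≠ 0`):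
`meromorphicOrderAt_comp_of_deriv_ne_zero`. -/
def S_Ord : Prop := ∀ c a b : ℂ, c ≠ 0 → ¬ inO b → ∀ z : ℂ,
  MeromorphicAt (fun u => X (c * u + a) - X b) z ∧
  meromorphicOrderAt (fun u => X (c * u + a) - X b) z =
    ((ind (inO (c * z + a - b)) + ind (inO (c * z + a + b)) - 2 * ind (inO (c * z + a)) : ℤ) : WithTop ℤ)

/-- MODULE `Quo` (70 lines; uses `S_Lio`). Functions with the same divisor.
PROOF. `f = F / G`; order `0` at every point (`meromorphicOrderAt_fun_div` or `_mul`, `_inv`; the orders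
are not `⊤`), so `f`
tends to a limit `≠ 0` at every point (`tendsto_ne_zero_of_meromorphicOrderAt_eq_zero`), is analytic near
every point
(`MeromorphicAt.eventually_analyticAt`), periodic: `S_Lio` gives `c`, `c ≠ 0`. At a point `u ≠ z` near `z`
`f` is analytic,
so `f u = c` (uniqueness of the limit), and `G u ≠ 0` (`meromorphicOrderAt_ne_top_iff_eventually_ne_zero`).
-/
def S_Quo : Prop := ∀ F G : ℂ → ℂ, (∀ z, MeromorphicAt F z) → (∀ z, MeromorphicAt G z) →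
  (∀ z, meromorphicOrderAt F z = meromorphicOrderAt G z ∧ meromorphicOrderAt F z ≠ ⊤) →
  (∀ (v : O) (z : ℂ), F (z + em v) = F z ∧ G (z + em v) = G z) →
  ∃ c, c ≠ 0 ∧ ∀ z, ∀ᶠ u in 𝓝[≠] z, F u = c * G u

/-- MODULE `PrA` (110 lines; uses `S_XB`, `S_Ord`, `S_Quo`). THE PRODUCT FORMULA.
PROOF. `F z = ∏ u ∈ R, (X (z + u) - X T)`, `G z = X (em α z) - X T`. The order of `F` at `z` is
`∑ u ∈ R, 2 (ind (inO (z + u - T)) - ind (inO (z + u)))` (`T` and `-T` are congruent;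
`meromorphicOrderAt_fun_prod`), of `G`
`2 (ind (inO (em α z - T)) - ind (inO (em α z)))`. (i) `∑ u ∈ R, ind (inO (y + u)) = ind (inO (em α y))`:
`IsReps` for `-y`.
(ii) `α - 1 = 2 β` (`α` is prime to `2`: `a α + b 2 = 1`; modulo `2` the four elements `0, 1, ω, 1 + ω` of
`O/2`, only `1` is
invertible; or via norms: compare `re`, `im` parities), so `em α T - T` is in the lattice, and
`inO (em α z - T)` iff `inO (em α (z - T))`: (i) for `y = z - T`. `S_Quo` gives `c`; then continuity at `z`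
(both sides are
analytic at `z` if `em α z` is not in the lattice: `z + u` is not). -/
def S_PrA : Prop := ∀ (α : O) (R : Finset ℂ), IsCoprime α 2 → IsReps α R → ∀ T : ℂ, inO (2 * T) → ¬ inO T →
  ∃ c : ℂ, c ≠ 0 ∧ ∀ z : ℂ, ¬ inO (em α * z) →
    ∏ u ∈ R, (X (z + u) - X T) = c * (X (em α * z) - X T)

open Classical in
/-- MODULE `PrB` (60 lines; uses `S_Exp`, `S_Om`, `S_XB`). THE CONSTANT.
PROOF. `h² X h → 1/Om²` for `h → 0`, `h ≠ 0` (`S_Exp`), so `h² X (em α h) → 1/(em α² Om²)`. Exactly one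
`u₀ ∈ R` is in the lattice
(`IsReps` for `0`), `X (h + u₀) = X h`. Multiply the identity by `h²` and let `h → 0` (it holds for small
`h ≠ 0`: `ev_aff`):
the left side tends to `(1/Om²) ∏ (u ∈ R, u ≠ u₀) (X u - X T)`, the right side to `c/(em α² Om²)`. -/
def S_PrB : Prop := ∀ (α : O) (R : Finset ℂ), α ≠ 0 → IsReps α R → ∀ T c : ℂ, ¬ inO T →
  (∀ z : ℂ, ¬ inO (em α * z) → ∏ u ∈ R, (X (z + u) - X T) = c * (X (em α * z) - X T)) →
  c = em α ^ 2 * ∏ u ∈ R, (if inO u then 1 else X u - X T)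

/-- A half system of `E[μ] - 0`. -/
structure IsHalf (μ : O) (S : Finset ℂ) : Prop where
  mem : ∀ u ∈ S, inO (em μ * u) ∧ ¬ inO u
  ex : ∀ z : ℂ, inO (em μ * z) → ¬ inO z → ∃ u ∈ S, inO (z - u) ∨ inO (z + u)
  uni : ∀ u ∈ S, ∀ u' ∈ S, inO (u - u') ∨ inO (u + u') → u = u'

/-- MODULE `PrC` (150 lines; uses `S_XB`, `S_Ord`, `S_Quo`). DISTRIBUTION OF THE THETA FUNCTION.
PROOF. `F z = ∏ v ∈ R, ∏ u ∈ S, (X (z + v) - X u)`, `G z = ∏ u ∈ S, (X (em α z) - X u)` (take inverses at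
the end; at `z` with
`em (α μ) z` not in the lattice all factors are finite and not `0`). (a) For all `y`:
`∑ u ∈ S, (ind (inO (y - u)) + ind (inO (y + u))) = ind (inO (em μ y)) - ind (inO y)`: if `em μ y` is in
the lattice and `y` is
not, exactly one `u` and only one of the two signs (`u + u` in the lattice and `em μ u` in the lattice give
`u` in the
lattice as `a μ + b 2 = 1`). (b) For all `y`: `∑ v ∈ R, ind (inO (y + v)) = ind (inO (em α y))` (`IsReps`),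
and
`∑ v ∈ R, ind (inO (em μ (y + v))) = ind (inO (em μ (em α y)))`: with `a α + b μ = 1`; at most one `v` (if
`em μ (v - v')` and
`em α (v - v')` are in the lattice so is `v - v'`); existence: if `em (μ α) y` is in the lattice then
`em α (em b em μ y)` is, take `v` congruent to `- em b em μ y`; then `y + v` is congruent to `em a em α y`,
killed by `μ`.
So the order of `F` at `z` is
`∑ v ((ind μ(z+v)) - ind (z+v) - 2 |S| ind (z+v)) = ind (μ α z) - (1 + 2 |S|) ind (α z)`, the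
order of `G` at `z`. `S_Quo`, and continuity as in `PrA`. -/
def S_PrC : Prop := ∀ (α μ : O) (R S : Finset ℂ), α ≠ 0 → IsCoprime α μ → IsCoprime μ 2 → IsReps α R →
  IsHalf μ S → ∃ c : ℂ, c ≠ 0 ∧ ∀ z : ℂ, ¬ inO (em (α * μ) * z) →
    ∏ v ∈ R, ∏ u ∈ S, (X (z + v) - X u)⁻¹ = c * ∏ u ∈ S, (X (em α * z) - X u)⁻¹

end DI
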