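import Pool.Agent.Lib.DI.Iface
import Pool.Agent.Lib.DI.B.Spec

/-! # Theorem DI, Part B: bridge between the internal names and the interface (author helper46) -/

set_option autoImplicit false

open scoped Topology
open Filter

noncomputable section

namespace Pool.Agent.DI

theorem Br_pw : _root_.DI.pw = wC := rfl

theorem Br_qw : _root_.DI.qw = wbC := rfl

theorem Br_LO : _root_.DI.LO = LO := rfl

theorem Br_em (v : OO) : _root_.DI.em v = toC v := rfl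

theorem Br_lat (z : ℂ) : _root_.DI.inO z ↔ Lat z := by
  rw [_root_.DI.inO_iff]
  constructor
  · rintro ⟨v, hv⟩
    exact ⟨v, hv.symm⟩
  · rintro ⟨v, hv⟩
    exact ⟨v, hv.symm⟩

theorem Br_Om : _root_.DI.Om = OmC := by
  unfold _root_.DI.Om OmC Om2
  rw [Br_LO]
  congr 1
  · ring
  · norm_num

theorem Br_X (z : ℂ) : _root_.DI.X z = XC z := by
  unfold _root_.DI.X XC _root_.DI.wp
  rw [Br_LO, Br_Om]

theorem Br_W0 (z : ℂ) : _root_.DI.W z = LO.derivWeierstrassP z / OmC ^ 3 := by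
  unfold _root_.DI.W _root_.DI.wp'
  rw [Br_LO, Br_Om]

theorem Br_Y (z : ℂ) : _root_.DI.Y z = YC z := by
  unfold _root_.DI.Y YC
  rw [Br_W0, Br_X]

theorem Br_W (z : ℂ) : _root_.DI.W z = 2 * YC z + XC z := by
  rw [← Br_Y, ← Br_X]
  exact _root_.DI.W_eq z

theorem Br_KK (t : ℝ) (z : ℂ) : _root_.DI.KK t z = KtC t z := rfl

theorem Br_KK_per (hS : _root_.DI.S_KS) (t : ℝ) (z : ℂ) (v : OO) : KtC t (z + toC v) = KtC t z :=
  hS.2.1 t z v

theorem Br_KK_zero (hS : _root_.DI.S_KS) (t : ℝ) {z : ℂ} (hz : Lat z) : KtC t z = 0 := by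
  obtain ⟨v, rfl⟩ := hz
  have h1 := Br_KK_per hS t 0 v
  rw [zero_add] at h1
  rw [h1]
  have h2 : KtC t (-0) = -KtC t 0 := hS.2.2.1 t 0
  rw [neg_zero] at h2
  linear_combination (1 / 2 : ℂ) * h2

theorem Br_EC_lat (hS : _root_.DI.S_KS) {z : ℂ} (hz : Lat z) : EC z = 0 := by
  unfold EC
  have h : (fun t : ℝ => KtC t z) = fun _ => 0 := funext fun t => Br_KK_zero hS t hz
  rw [h, (tendsto_const_nhds (x := (0 : ℂ)) (f := 𝓝[>] (0 : ℝ))).limUnder_eq, zero_div]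

theorem Br_E1 (hB : _root_.DI.S_KB) {z : ℂ} (hz : ¬ Lat z) : _root_.DI.E1 z = EC z := by
  have h1 := hB.1 z (fun h => hz ((Br_lat z).1 h))
  have h2 : limUnder (𝓝[>] (0 : ℝ)) (fun t => KtC t z) = _root_.DI.kz z := Tendsto.limUnder_eq h1
  unfold _root_.DI.E1 EC
  rw [h2, Br_Om]

theorem Br_EC_per (hS : _root_.DI.S_KS) (z : ℂ) (v : OO) : EC (z + toC v) = EC z := by
  unfold EC
  have h : (fun t : ℝ => KtC t (z + toC v)) = fun t => KtC t z :=
    funext fun t => Br_KK_per hS t z v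
  rw [h]

theorem Br_lat_add (z : ℂ) (v : OO) : Lat (z + toC v) ↔ Lat z := by
  rw [← Br_lat, ← Br_lat]
  exact _root_.DI.inO_add_em v

theorem Br_lat_neg (z : ℂ) : Lat (-z) ↔ Lat z := by
  rw [← Br_lat, ← Br_lat]
  exact _root_.DI.inO_neg_iff

theorem Br_EC_neg (hS : _root_.DI.S_KS) (hB : _root_.DI.S_KB) (z : ℂ) : EC (-z) = -EC z := by
  by_cases hz : Lat z
  · rw [Br_EC_lat hS hz, Br_EC_lat hS ((Br_lat_neg z).2 hz), neg_zero]
  · rw [← Br_E1 hB hz, ← Br_E1 hB (fun h => hz ((Br_lat_neg z).1 h))]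
    unfold _root_.DI.E1
    rw [hB.2.2.1, neg_div]

theorem brB0 (hO : _root_.DI.S_Om) (hS : _root_.DI.S_KS) : S_B0 := by
  refine ⟨?_, fun z hz => ?_⟩
  · rw [← Br_Om]
    exact hO.1
  · obtain ⟨v, hv⟩ := hz
    have h1 : XC z = 1 / 4 := by
      unfold XC
      have : LO.weierstrassP z = 0 := by
        have := LO.weierstrassP_coe ⟨_, _root_.DI.inO_em v⟩
        rw [hv]
        exact this
      rw [this, zero_div, zero_add]
    refine ⟨h1, ?_, Br_EC_lat hS ⟨v, hv⟩⟩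
    unfold YC
    have : LO.derivWeierstrassP z = 0 := by
      have := LO.derivWeierstrassP_coe ⟨_, _root_.DI.inO_em v⟩
      rw [hv]
      exact this
    rw [this, h1]
    norm_num

theorem Br_not {z : ℂ} (hz : ¬ Lat z) : ¬ _root_.DI.inO z := fun h => hz ((Br_lat z).1 h)

theorem brB1 (hX : _root_.DI.S_XB) : S_B1 := by
  intro z hz
  have h := (hX.2.2.2.1 z (Br_not hz)).1
  rwa [Br_X, Br_Y] at h

theorem brB2 (hX : _root_.DI.S_XB) (hS : _root_.DI.S_KS) (hB : _root_.DI.S_KB) : S_B2 := by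
  refine ⟨fun z v => ⟨?_, ?_, Br_EC_per hS z v⟩, fun z => ⟨?_, ?_, Br_EC_neg hS hB z⟩⟩
  · have h := (hX.1 z v).1
    rwa [Br_X, Br_X] at h
  · have h := (hX.1 z v).2.2
    rwa [Br_Y, Br_Y] at h
  · have h := (hX.2.1 z).1
    rwa [Br_X, Br_X] at h
  · have h := (hX.2.1 z).2.2.1
    rw [Br_Y, Br_Y, Br_X] at h
    rw [h]
    ring

theorem brB3 (hX : _root_.DI.S_XB) : S_B3 := by
  refine ⟨fun z z' hz hz' => ?_, fun z hz => ?_, fun x y h => ?_⟩
  · have h := hX.2.2.2.2.1 z z' (Br_not hz) (Br_not hz')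
    rwa [Br_X, Br_X, Br_lat, Br_lat] at h
  · have h := hX.2.2.2.2.2.2.1 z (Br_not hz)
    rwa [Br_W, Br_lat, ← two_mul] at h
  · obtain ⟨z, h1, h2, h3⟩ := hX.2.2.2.2.2.2.2 x y h
    exact ⟨z, fun h => h1 ((Br_lat z).2 h), by rw [← Br_X]; exact h2, by rw [← Br_Y]; exact h3⟩

theorem brB4 (hX : _root_.DI.S_XB) (hA : _root_.DI.S_XAdd) (hB : _root_.DI.S_KB) : S_B4 := by
  intro z z' hz hz' hne l hl
  have hs : ¬ _root_.DI.inO (z + z') := by
    intro h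
    refine hne ?_
    rw [← Br_X, ← Br_X]
    exact (hX.2.2.2.2.1 z z' (Br_not hz) (Br_not hz')).2 (Or.inr h)
  have hs' : ¬ Lat (z + z') := fun h => hs ((Br_lat _).2 h)
  have hl' : _root_.DI.lam z z' = l := by
    unfold _root_.DI.lam
    rw [Br_X, Br_X, Br_Y, Br_Y, hl]
  obtain ⟨h1, h2, h3⟩ := hA.1 z z' (Br_not hz) (Br_not hz') hs (by rw [Br_X, Br_X]; exact hne)
  rw [hl', Br_X, Br_X, Br_X] at h1
  rw [hl', Br_Y, Br_Y, Br_X, Br_X] at h2
  rw [hl', Br_E1 hB hs', Br_E1 hB hz, Br_E1 hB hz'] at h3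
  refine ⟨h1, ?_, h3⟩
  rw [h2]
  ring

theorem brB5 (hX : _root_.DI.S_XB) (hA : _root_.DI.S_XAdd) (hB : _root_.DI.S_KB) : S_B5 := by
  intro z hz hz2 l hl
  rw [two_mul] at hz2
  have hW : 2 * YC z + XC z ≠ 0 := by
    rw [← Br_W]
    exact fun h => (Br_not hz2) ((hX.2.2.2.2.2.2.1 z (Br_not hz)).1 h)
  have hl' : l * _root_.DI.W z = 3 * _root_.DI.X z ^ 2 - 2 * _root_.DI.X z - 2 - _root_.DI.Y z := by
    rw [Br_W, Br_X, Br_Y, hl, div_mul_cancel₀ _ hW]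
  obtain ⟨h1, h2, h3⟩ := hA.2 z l (Br_not hz) (Br_not hz2) hl'
  rw [Br_X, Br_X] at h1
  rw [Br_Y, Br_Y, Br_X, Br_X] at h2
  rw [Br_E1 hB hz2, Br_E1 hB hz] at h3
  rw [two_mul z]
  refine ⟨h1, ?_, h3⟩
  rw [h2]
  ring

theorem Br_PQ {p pb : ℂ} (h : (p = wC ∧ pb = wbC) ∨ (p = wbC ∧ pb = wC)) : _root_.DI.PQ p pb := h

theorem brB6 (hM : _root_.DI.S_XMul) : S_B6 := by
  intro p pb h z hz hpz
  obtain ⟨h1, h2, _, h4⟩ := hM p pb (Br_PQ h) z (Br_not hz) (Br_not hpz)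
  rw [Br_X] at h1
  rw [Br_X, Br_X] at h2
  rw [Br_Y, Br_Y, Br_X] at h4
  exact ⟨h1, h2, h4⟩

theorem brB7 (h2 : _root_.DI.S_X2) : S_B7 := by
  refine ⟨?_, fun p pb h => ⟨?_, fun z hz hpz => ?_⟩⟩
  · rw [← Br_X]
    exact h2.1
  · rw [← Br_X]
    exact (h2.2 p pb (Br_PQ h)).1
  · have h3 := (h2.2 p pb (Br_PQ h)).2 z (Br_not hz) (Br_not hpz)
    rwa [Br_X, Br_X] at h3

theorem Br_rC : (2 * _root_.DI.pw - 1 : ℂ) = rC := rfl

theorem brB8 (h7 : _root_.DI.S_X7) : S_B8 := by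
  intro z hz hr
  obtain ⟨h1, h2, _⟩ := h7 z (Br_not hz) ((Br_lat _).2 hr)
  rw [Br_X] at h1
  rw [Br_W, Br_X, Br_rC] at h2
  refine ⟨h1, ?_⟩
  rcases h2 with h2 | h2
  · exact Or.inr h2
  · left
    rw [h2]
    ring

theorem brB9 (h9 : _root_.DI.S_X9) : S_B9 := by
  obtain ⟨s, hs, h⟩ := h9
  refine ⟨s, hs, fun j hj => ?_⟩
  have h1 := h j hj
  rwa [Br_W, Br_X, Br_rC] at h1

theorem Br_reps {μ : OO} {R : Finset ℂ} (h : IsSys μ R) : _root_.DI.IsReps μ R where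
  mem u hu := (Br_lat _).2 (h.mem u hu)
  ex z hz := by
    obtain ⟨u, h1, h2⟩ := h.ex z ((Br_lat _).1 hz)
    exact ⟨u, h1, (Br_lat _).2 h2⟩
  uni u hu u' hu' h1 := h.uni u hu u' hu' ((Br_lat _).1 h1)

theorem Br_half {μ : OO} {S : Finset ℂ} (h : IsHalf μ S) : _root_.DI.IsHalf μ S where
  mem u hu := ⟨(Br_lat _).2 (h.mem u hu).1, Br_not (h.mem u hu).2⟩
  ex z hz hz' := by
    obtain ⟨u, h1, h2⟩ := h.ex z ((Br_lat _).1 hz) (fun h3 => hz' ((Br_lat _).2 h3))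
    exact ⟨u, h1, h2.imp (Br_lat _).2 (Br_lat _).2⟩
  uni u hu u' hu' h1 := h.uni u hu u' hu' (h1.imp (Br_lat _).1 (Br_lat _).1)

theorem Br_lat_mul (v : OO) {z : ℂ} (hz : Lat z) : Lat (toC v * z) := by
  rw [← Br_lat] at hz ⊢
  exact _root_.DI.inO_mul v hz

theorem brB10 (hB : _root_.DI.S_KB) : S_B10 := by
  intro μ R hμ hR z hz
  have h := hB.2.2.2.2 μ R hμ (Br_reps hR) z (Br_not hz)
  have h1 : ∀ u ∈ R, EC (z + u) = _root_.DI.kz (z + u) / OmC := by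
    intro u hu
    have h2 : ¬ Lat (z + u) := by
      intro h3
      refine hz ?_
      have h4 := Br_lat_mul μ h3
      rw [mul_add] at h4
      rw [← Br_lat] at h4 ⊢
      exact (_root_.DI.inO_add_iff ((Br_lat _).2 (hR.mem u hu))).1 h4
    rw [← Br_E1 hB h2]
    unfold _root_.DI.E1
    rw [Br_Om]
  rw [Finset.sum_congr rfl h1, ← Finset.sum_div, h, ← Br_E1 hB hz]
  unfold _root_.DI.E1
  rw [Br_Om, Br_em, mul_div_assoc]

theorem brB11 (hO : _root_.DI.S_Om) (hB : _root_.DI.S_KB) : S_B11 := by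
  intro z hz
  have h := hB.1 z (Br_not hz)
  have h1 : OmC * EC z = _root_.DI.kz z := by
    rw [← Br_E1 hB hz]
    unfold _root_.DI.E1
    rw [Br_Om]
    refine mul_div_cancel₀ _ ?_
    rw [← Br_Om]
    exact hO.1
  rw [h1]
  exact h

theorem Br_lat_conj (z : ℂ) : Lat ((starRingEnd ℂ) z) ↔ Lat z := by
  rw [← Br_lat, ← Br_lat]
  exact _root_.DI.inO_conj_iff

theorem brB12 (hC : _root_.DI.S_XC) (hS : _root_.DI.S_KS) (hB : _root_.DI.S_KB) : S_B12 := by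
  obtain ⟨s, hs, hO, h⟩ := hC
  refine ⟨s, hs, ?_, fun z => ?_⟩
  · rw [← Br_Om]
    exact hO
  · obtain ⟨h1, _, h3, h4⟩ := h z
    rw [Br_X, Br_X] at h1
    rw [Br_Y, Br_Y] at h3
    refine ⟨h1, h3, ?_⟩
    have hl : Lat (s * (starRingEnd ℂ) z) ↔ Lat z := by
      rcases hs with rfl | rfl
      · push_cast
        rw [one_mul, Br_lat_conj]
      · push_cast
        rw [neg_one_mul, Br_lat_neg, Br_lat_conj]
    by_cases hz : Lat z
    · rw [Br_EC_lat hS hz, Br_EC_lat hS (hl.2 hz), map_zero]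
    · have h5 := h4 (Br_not hz)
      rwa [Br_E1 hB hz, Br_E1 hB (fun h6 => hz (hl.1 h6))] at h5

theorem brB13 (hAX : _root_.DI.S_AlgX) (hAE : _root_.DI.S_AlgE) (hO : _root_.DI.S_Om)
    (hS : _root_.DI.S_KS) (hB : _root_.DI.S_KB) : S_B13 := by
  rintro z ⟨v, n, hn, hz⟩
  by_cases hl : Lat z
  · obtain ⟨h1, h2, h3⟩ := (brB0 hO hS).2 z hl
    rw [h1, h2, h3]
    refine ⟨?_, ?_, isAlgebraic_zero⟩
    · have := isAlgebraic_algebraMap (R := ℚ) (A := ℂ) (1 / 4 : ℚ)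
      simpa using this
    · have := isAlgebraic_algebraMap (R := ℚ) (A := ℂ) (-1 / 8 : ℚ)
      simpa using this
  · have hn0 : (n : ℂ) ≠ 0 := Nat.cast_ne_zero.2 hn.ne'
    have h1 : _root_.DI.inO (n * z) := by
      rw [hz, mul_div_cancel₀ _ hn0]
      exact _root_.DI.inO_em v
    obtain ⟨h2, h3⟩ := hAX z n hn h1 (Br_not hl)
    have h4 := hAE z n hn h1 (Br_not hl)
    rw [Br_X] at h2
    rw [Br_Y] at h3
    rw [Br_E1 hB hl] at h4
    exact ⟨h2, h3, h4⟩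

theorem brA0 (h : S_B13) : S_A0 := fun z hz =>
  ⟨io_ofC _ (h z hz).1, io_ofC _ (h z hz).2.1, io_ofC _ (h z hz).2.2⟩

theorem brB14 (hO : _root_.DI.S_Om) : S_B14 := by
  intro z hz
  have h1 := _root_.DI.analyticAt_wp (Br_not hz)
  have h2 := _root_.DI.analyticAt_wp' (Br_not hz)
  have hO0 := hO.1
  have hX : AnalyticAt ℂ XC z := by
    have h3 : XC = fun z => _root_.DI.wp z / _root_.DI.Om ^ 2 + 1 / 4 := by
      funext z
      rw [← Br_X]
      rfl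
    rw [h3]
    exact (h1.div_const).add analyticAt_const
  refine ⟨hX, ?_, ?_⟩
  · have h3 : YC = fun z => (_root_.DI.wp' z / _root_.DI.Om ^ 3 - XC z) / 2 := by
      funext z
      rw [← Br_Y, ← Br_X]
      rfl
    rw [h3]
    exact (h2.div_const.sub hX).div_const
  · have h3 : XC = fun z => _root_.DI.wp z / _root_.DI.Om ^ 2 + 1 / 4 := by
      funext z
      rw [← Br_X]
      rfl
    have h4 := ((_root_.DI.hasDerivAt_wp (Br_not hz)).div_const (_root_.DI.Om ^ 2)).add_const (1 / 4 : ℂ)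
    rw [h3]
    refine h4.congr_deriv ?_
    rw [← h3, ← Br_Om, ← Br_W]
    unfold _root_.DI.W
    field_simp

theorem brB16 (hP : _root_.DI.S_PrC) : S_B16 := by
  intro α μ R S hα h1 h2 hR hS
  obtain ⟨c, hc, h⟩ := hP α μ R S hα h1 h2 (Br_reps hR) (Br_half hS)
  refine ⟨c, hc, fun z hz => ?_⟩
  have h3 := h z (Br_not hz)
  simp only [Br_X, Br_em] at h3
  exact h3

theorem brB15 (hA : _root_.DI.S_PrA) (hP : _root_.DI.S_PrB) : S_B15 := by
  intro α R h1 hR T hT hT'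
  obtain ⟨c, hc, h⟩ := hA α R h1 (Br_reps hR) T ((Br_lat _).2 hT) (Br_not hT')
  refine ⟨c, hc, fun z hz => ?_, ?_⟩
  · have h3 := h z (Br_not hz)
    simp only [Br_X, Br_em] at h3
    exact h3
  · have hα : α ≠ 0 := by
      rintro rfl
      have h4 : IsUnit (2 : OO) := isCoprime_zero_left.1 h1
      obtain ⟨u, hu⟩ := h4.exists_right_inv
      have h5 := congrArg QuadraticAlgebra.re hu
      rw [two_mul, QuadraticAlgebra.re_add, QuadraticAlgebra.re_one] at h5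
      omega
    have h4 := hP α R hα (Br_reps hR) T c (Br_not hT') h
    rw [h4, Br_em]
    congr 1
    refine Finset.prod_congr rfl fun u _ => ?_
    by_cases hu : Lat u
    · rw [if_pos hu, if_pos ((Br_lat u).2 hu)]
    · rw [if_neg hu, if_neg (Br_not hu), Br_X, Br_X]

end Pool.Agent.DI
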