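import Mathlib

/-! # Theorem DI, Part B (elliptic functions): definitions (author helper46)

`O = ℤ[π]`, `π = (1 + √-7)/2 = pw`, `1 - π = qw`. All functions are built from the Weierstrass
functions `℘`, `℘'` of the lattice `O` itself (`LO : PeriodPair`), scaled by `Om`:
`X z = ℘ z / Om ^ 2 + 1/4`, `W z = ℘' z / Om ^ 3 = 2 Y z + X z`. -/

set_option autoImplicit false
set_option linter.unusedSimpArgs false

namespace DI

open Complex

/-- The ring of integers of `ℚ(√-7)`. -/
abbrev O : Type := QuadraticAlgebra ℤ (-2) 1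

/-- `π = (1 + √-7)/2`. -/
noncomputable def pw : ℂ := ⟨1 / 2, √7 / 2⟩

/-- `1 - π`, the conjugate of `π`. -/
noncomputable def qw : ℂ := 1 - pw

theorem pw_sq : pw ^ 2 = pw - 2 := by
  have h : √7 * √7 = 7 := Real.mul_self_sqrt (by norm_num)
  apply Complex.ext
  · simp only [pw, pow_two, Complex.mul_re, Complex.sub_re]
    norm_num
    nlinarith
  · simp only [pw, pow_two, Complex.mul_im, Complex.sub_im]
    norm_num
    ring

theorem qw_eq : qw = 1 - pw := rfl

theorem pw_add_qw : pw + qw = 1 := by
  rw [qw_eq]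
  ring

theorem pw_mul_qw : pw * qw = 2 := by
  rw [qw_eq]
  linear_combination -pw_sq

theorem conj_pw : (starRingEnd ℂ) pw = qw := by
  apply Complex.ext
  · simp only [pw, qw, Complex.conj_re, Complex.sub_re, Complex.one_re]
    norm_num
  · simp only [pw, qw, Complex.conj_im, Complex.sub_im, Complex.one_im]
    norm_num

theorem conj_qw : (starRingEnd ℂ) qw = pw := by
  rw [← conj_pw, Complex.conj_conj]

theorem pw_ne : pw ≠ 0 := by
  intro h
  have := pw_mul_qw
  rw [h, zero_mul] at this
  norm_num at this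

theorem qw_ne : qw ≠ 0 := by
  intro h
  have := pw_mul_qw
  rw [h, mul_zero] at this
  norm_num at this

theorem pw_im_pos : 0 < pw.im := by
  have : 0 < √7 := Real.sqrt_pos.2 (by norm_num)
  change 0 < √7 / 2
  positivity

/-- The embedding `O → ℂ`. -/
noncomputable def em : O →+* ℂ where
  toFun v := (v.re : ℂ) + (v.im : ℂ) * pw
  map_one' := by
    rw [QuadraticAlgebra.re_one, QuadraticAlgebra.im_one]
    push_cast
    ring
  map_mul' u v := by
    rw [QuadraticAlgebra.re_mul, QuadraticAlgebra.im_mul]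
    push_cast
    linear_combination (-(u.im : ℂ) * v.im) * pw_sq
  map_zero' := by
    rw [QuadraticAlgebra.re_zero, QuadraticAlgebra.im_zero]
    push_cast
    ring
  map_add' u v := by
    rw [QuadraticAlgebra.re_add, QuadraticAlgebra.im_add]
    push_cast
    ring

theorem em_apply (v : O) : em v = (v.re : ℂ) + (v.im : ℂ) * pw := rfl

theorem em_mk (a b : ℤ) : em ⟨a, b⟩ = (a : ℂ) + (b : ℂ) * pw := rfl

theorem em_omega : em QuadraticAlgebra.omega = pw := by
  rw [em_apply, QuadraticAlgebra.omega_re, QuadraticAlgebra.omega_im]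
  push_cast
  ring

theorem em_inj : Function.Injective em := by
  intro u v h
  rw [em_apply, em_apply] at h
  have h1 := congrArg Complex.im h
  simp only [Complex.add_im, Complex.intCast_im, Complex.mul_im, Complex.intCast_re, zero_mul,
    add_zero, zero_add] at h1
  have h2 : (u.im : ℝ) = v.im := mul_right_cancel₀ pw_im_pos.ne' h1
  have h3 : u.im = v.im := by exact_mod_cast h2
  rw [h3] at h
  have h4 : (u.re : ℂ) = v.re := add_right_cancel h
  exact QuadraticAlgebra.ext (by exact_mod_cast h4) h3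

theorem em_ne_zero {v : O} (h : v ≠ 0) : em v ≠ 0 := fun h1 => h (em_inj (by rw [h1, map_zero]))

theorem em_star (v : O) : em (star v) = (starRingEnd ℂ) (em v) := by
  rw [em_apply, em_apply, QuadraticAlgebra.re_star, QuadraticAlgebra.im_star]
  simp only [map_add, map_mul, conj_pw, map_intCast]
  rw [qw_eq]
  push_cast
  ring

/-- The period pair `(1, π)` of the lattice `O`. -/
noncomputable def LO : PeriodPair where
  ω₁ := 1
  ω₂ := pw
  indep := by
    rw [LinearIndependent.pair_iff]
    intro s t h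
    have h1 := congrArg Complex.im h
    have h2 := congrArg Complex.re h
    simp only [Complex.add_im, Complex.real_smul, Complex.mul_im, Complex.ofReal_re,
      Complex.ofReal_im, Complex.one_im, Complex.one_re, mul_zero, zero_mul, add_zero,
      zero_add, Complex.zero_im] at h1
    simp only [Complex.add_re, Complex.real_smul, Complex.mul_re, Complex.ofReal_re,
      Complex.ofReal_im, Complex.one_im, Complex.one_re, mul_zero, zero_mul, sub_zero,
      mul_one, Complex.zero_re] at h2
    have ht : t = 0 := by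
      rcases mul_eq_zero.1 h1 with h3 | h3
      · exact h3
      · exact absurd h3 pw_im_pos.ne'
    rw [ht] at h2
    exact ⟨by linarith, ht⟩

theorem LO_fst : LO.ω₁ = 1 := rfl

theorem LO_snd : LO.ω₂ = pw := rfl

/-- `z` is a point of the lattice `O`. -/
def inO (z : ℂ) : Prop := z ∈ LO.lattice

theorem inO_iff {z : ℂ} : inO z ↔ ∃ v : O, em v = z := by
  unfold inO
  rw [PeriodPair.mem_lattice, LO_fst, LO_snd]
  constructor
  · rintro ⟨m, n, h⟩
    exact ⟨⟨m, n⟩, by rw [em_mk, ← h]; ring⟩
  · rintro ⟨v, h⟩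
    exact ⟨v.re, v.im, by rw [← h, em_apply]; ring⟩

theorem inO_em (v : O) : inO (em v) := inO_iff.2 ⟨v, rfl⟩

/-- The elements of the lattice. -/
noncomputable def eqO : O ≃ LO.lattice :=
  Equiv.ofBijective (fun v => ⟨em v, inO_em v⟩)
    ⟨fun u v h => em_inj (congrArg Subtype.val h), fun l => by
      obtain ⟨v, hv⟩ := inO_iff.1 l.2
      exact ⟨v, Subtype.ext hv⟩⟩

theorem eqO_coe (v : O) : ((eqO v : LO.lattice) : ℂ) = em v := rfl

/-- Weierstrass `℘` of the lattice `O`. -/
noncomputable def wp (z : ℂ) : ℂ := PeriodPair.weierstrassP LO z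

/-- The derivative of `wp`. -/
noncomputable def wp' (z : ℂ) : ℂ := PeriodPair.derivWeierstrassP LO z

/-- The Weierstrass zeta function of the lattice `O`. -/
noncomputable def zt (z : ℂ) : ℂ :=
  ∑' l : LO.lattice, (1 / (z - l) + 1 / l + z / l ^ 2)

/-- The quasi-periods. -/
noncomputable def et1 : ℂ := 2 * zt (1 / 2)

/-- The quasi-periods. -/
noncomputable def et2 : ℂ := 2 * zt (pw / 2)

/-- The coefficient of `conj z` in the periodic zeta function. -/
noncomputable def be : ℂ := (et2 - pw * et1) / (qw - pw)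

/-- The coefficient of `z` in the periodic zeta function. -/
noncomputable def al : ℂ := et1 - be

/-- The periodic zeta function. -/
noncomputable def kz (z : ℂ) : ℂ := zt z - al * z - be * (starRingEnd ℂ) z

/-- The period `Ω`, with `Om ^ 2 = (10/7) g₃(O)/g₂(O)`. -/
noncomputable def Om : ℂ := ((10 / 7) * LO.g₃ / LO.g₂) ^ ((2 : ℕ)⁻¹ : ℂ)

theorem Om_sq : Om ^ 2 = (10 / 7) * LO.g₃ / LO.g₂ := by
  unfold Om
  exact Complex.cpow_nat_inv_pow _ two_ne_zero

/-- The coordinate `X`. -/
noncomputable def X (z : ℂ) : ℂ := wp z / Om ^ 2 + 1 / 4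

/-- `W = 2 Y + X`. -/
noncomputable def W (z : ℂ) : ℂ := wp' z / Om ^ 3

/-- The coordinate `Y`. -/
noncomputable def Y (z : ℂ) : ℂ := (W z - X z) / 2

theorem W_eq (z : ℂ) : W z = 2 * Y z + X z := by
  unfold Y
  ring

/-- `E1`. -/
noncomputable def E1 (z : ℂ) : ℂ := kz z / Om

/-- The regularised series. -/
noncomputable def KK (t : ℝ) (z : ℂ) : ℂ :=
  ∑' v : O, (z + em v)⁻¹ * (Real.exp (-t * ‖z + em v‖ ^ 2) : ℂ)

/-- The slope of the chord. -/
noncomputable def lam (z z' : ℂ) : ℂ := (Y z - Y z') / (X z - X z')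

end DI
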