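import Pool.Agent.Lib.DI.B.Spec

/-! # Theorem DI, Part B: `℘` is onto (module Sur) -/

set_option autoImplicit false

namespace DI

open Complex Filter Topology

private theorem Sur_zero (h2 : S_Exp) (c : ℂ) :
    Tendsto (fun u => (wp u - c)⁻¹) (𝓝[≠] (0 : ℂ)) (𝓝 0) := by
  obtain ⟨r, r1, hr, _, hexp⟩ := h2.1
  have hrc : ContinuousAt r 0 := hr.continuousAt
  have h3 : Tendsto (fun h : ℂ => h ^ 2 / (1 + ca * h ^ 4 + cb * h ^ 6 + h ^ 8 * r h - c * h ^ 2))
      (𝓝 0) (𝓝 ((0 : ℂ) ^ 2 / (1 + ca * 0 ^ 4 + cb * 0 ^ 6 + 0 ^ 8 * r 0 - c * 0 ^ 2))) := by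
    refine Tendsto.div ((continuous_pow 2).tendsto 0) ?_ (by norm_num)
    refine Tendsto.sub (Tendsto.add ?_ (((continuous_pow 8).tendsto 0).mul hrc)) ?_
    · exact (by fun_prop : Continuous fun h : ℂ => 1 + ca * h ^ 4 + cb * h ^ 6).tendsto 0
    · exact (by fun_prop : Continuous fun h : ℂ => c * h ^ 2).tendsto 0
  have h4 : (0 : ℂ) ^ 2 / (1 + ca * 0 ^ 4 + cb * 0 ^ 6 + 0 ^ 8 * r 0 - c * 0 ^ 2) = 0 := by
    norm_num
  rw [h4] at h3
  refine (h3.mono_left nhdsWithin_le_nhds).congr' ?_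
  filter_upwards [self_mem_nhdsWithin] with h hh
  have hh0 : h ≠ 0 := hh
  have h5 : 1 + ca * h ^ 4 + cb * h ^ 6 + h ^ 8 * r h - c * h ^ 2 = h ^ 2 * (wp h - c) := by
    rw [(hexp h hh0).1]
    field_simp
  rw [h5]
  have h6 : h ^ 2 ≠ 0 := pow_ne_zero 2 hh0
  rw [div_mul_eq_div_div, div_self h6, one_div]

theorem tSur (h1 : S_Lio) (h2 : S_Exp) : S_Sur := by
  intro c
  by_contra hcon
  push Not at hcon
  have hcont : ∀ z, ¬ inO z → ContinuousAt (fun u => (wp u - c)⁻¹) z := fun z hz =>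
    (((analyticAt_wp hz).continuousAt).sub continuousAt_const).inv₀ (sub_ne_zero.mpr (hcon z hz))
  obtain ⟨c', hc'⟩ := h1 (fun u => (wp u - c)⁻¹) (by
    intro z
    filter_upwards [ev_inO z] with u hu
    exact (((analyticAt_wp hu).differentiableAt).sub_const c).inv (sub_ne_zero.mpr (hcon u hu)))
    (by
      intro z
      by_cases hz : inO z
      · obtain ⟨v, rfl⟩ := inO_iff.1 hz
        refine ⟨-v, 0, ?_⟩
        have h3 : em v + em (-v) = 0 := by rw [map_neg, add_neg_cancel]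
        rw [h3]
        exact Sur_zero h2 c
      · refine ⟨0, (wp z - c)⁻¹, ?_⟩
        rw [map_zero, add_zero]
        exact (hcont z hz).tendsto.mono_left nhdsWithin_le_nhds)
    (by
      intro v z
      refine Eventually.of_forall fun u => ?_
      simp only [wp_add])
  have h3 : c' = 0 := tendsto_nhds_unique (hc' 0) (Sur_zero h2 c)
  have h4 : (wp (1 / 2) - c)⁻¹ = c' :=
    tendsto_nhds_unique ((hcont (1 / 2) notO_half).tendsto.mono_left nhdsWithin_le_nhds)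
      (hc' (1 / 2))
  rw [h3] at h4
  exact inv_ne_zero (sub_ne_zero.mpr (hcon _ notO_half)) h4

end DI
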