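import Pool.Agent.Lib.DI.B.Spec

/-! Theorem DI, Part B, module Tor: pigeonhole for torsion points. -/

set_option autoImplicit false

namespace DI

open Complex Filter Topology

theorem tTor : S_Tor := by
  intro z n hn hnz hz
  obtain ⟨v, hv⟩ := inO_iff.1 hnz
  by_cases h : ∃ j : ℕ, inO (pw ^ j * z)
  · left
    classical
    have h0 : Nat.find h ≠ 0 := by
      intro h0
      have h1 := Nat.find_spec h
      rw [h0, pow_zero, one_mul] at h1
      exact hz h1
    obtain ⟨l, hl⟩ := Nat.exists_eq_succ_of_ne_zero h0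
    refine ⟨l, fun j hj => Nat.find_min h (by omega), ?_⟩
    have h1 := Nat.find_spec h
    rw [hl] at h1
    exact h1
  · right
    have h' : ∀ j : ℕ, ¬ inO (pw ^ j * z) := fun j hj => h ⟨j, hj⟩
    refine ⟨h', ?_⟩
    have : NeZero n := ⟨hn.ne'⟩
    obtain ⟨i, j, hij, heq⟩ := Finite.exists_ne_map_eq_of_infinite
      (fun j : ℕ => (((QuadraticAlgebra.omega ^ j * v : O).re : ZMod n),
        ((QuadraticAlgebra.omega ^ j * v : O).im : ZMod n)))
    wlog hlt : i < j generalizing i j
    · exact this j i hij.symm heq.symm (by omega)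
    refine ⟨i, j - i, by omega, ?_⟩
    have e1 := congrArg Prod.fst heq
    have e2 := congrArg Prod.snd heq
    simp only at e1 e2
    rw [ZMod.intCast_eq_intCast_iff_dvd_sub] at e1 e2
    obtain ⟨a, ha⟩ := e1
    obtain ⟨b, hb⟩ := e2
    rw [Nat.add_sub_cancel' hlt.le]
    refine inO_iff.2 ⟨⟨a, b⟩, ?_⟩
    have hn' : (n : ℂ) ≠ 0 := Nat.cast_ne_zero.2 hn.ne'
    refine mul_left_cancel₀ hn' ?_
    have e3 : em (QuadraticAlgebra.omega ^ j * v) = pw ^ j * (n * z) := by
      rw [map_mul, map_pow, em_omega, hv]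
    have e4 : em (QuadraticAlgebra.omega ^ i * v) = pw ^ i * (n * z) := by
      rw [map_mul, map_pow, em_omega, hv]
    rw [em_apply] at e3 e4
    have ha' : (((QuadraticAlgebra.omega ^ j * v : O).re : ℤ) : ℂ) -
        ((QuadraticAlgebra.omega ^ i * v : O).re : ℤ) = n * a := by
      exact_mod_cast ha
    have hb' : (((QuadraticAlgebra.omega ^ j * v : O).im : ℤ) : ℂ) -
        ((QuadraticAlgebra.omega ^ i * v : O).im : ℤ) = n * b := by
      exact_mod_cast hb
    rw [em_mk]
    linear_combination e3 - e4 - ha' - pw * hb'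

end DI
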